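import Pool.Agent.H40.SG.Wgt

/-!
# Lower bounds valid for every globalization

Adapt `Glob.lower`, `Glob.upper` in `Pool/Agent/H60/Sob/Bounds.lean`, using `Act.comp_le`, `Rp.top`,
`Rp.bot`, `Rp.ver_bot`, `Rp.shift`.

`lower_U` : for `j = i + 3` use `Rp.bot` for the first factor (`p = 0`, time `tn n`) and `Rp.bot` with
`Rp.shift` for the second factor (`q = 3`, time `tn i`); for `j ≤ 2` use `Rp.ver_bot` at time `1`
(`q = 0`).
-/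

set_option autoImplicit false

namespace Pool.Agent.H40.SG

open Complex Topology Filter
open Pool.Agent.H60.Sob (tn tn_pos sinh_tn cosh_tn_sq tanh_pow)

private theorem fin1 {d : ℕ} {N x C a b W P Q : ℝ} (hN : 1 ≤ N) (hx : 1 ≤ x) (hC : 0 ≤ C)
    (ha : (1/2) / N ≤ |a|) (hb : (1/2) / x ^ 2 ≤ |b|) (hW : W ≤ 4 ^ d * (N * x))
    (hP : 0 ≤ P) (hQ : 0 ≤ Q) (h : |a| * |b| * P ≤ C ^ 3 * W * Q) :
    P ≤ 4 * C ^ 3 * 4 ^ d * N ^ 2 * x ^ 3 * Q := by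
  have hN0 : 0 < N := by linarith
  have hx0 : 0 < x := by linarith
  have h1 : (1/2) / N * ((1/2) / x ^ 2) * P ≤ |a| * |b| * P := by gcongr
  have h2 : C ^ 3 * W * Q ≤ C ^ 3 * (4 ^ d * (N * x)) * Q := by gcongr
  have h3 := (h1.trans h).trans h2
  calc P = (4 * N * x ^ 2) * ((1/2) / N * ((1/2) / x ^ 2) * P) := by field_simp; ring
    _ ≤ (4 * N * x ^ 2) * (C ^ 3 * (4 ^ d * (N * x)) * Q) := by gcongr
    _ = _ := by ring

private theorem coef {n k : ℕ} : (1/2) / ((n:ℝ) + 2) ^ k ≤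
    |(-(Real.sinh (tn n) / Real.cosh (tn n))) ^ n / Real.cosh (tn n) ^ (2 * k)| := by
  have h0 : 0 < Real.cosh (tn n) := Real.cosh_pos _
  have h00 : 0 < Real.sinh (tn n) := Real.sinh_pos_iff.mpr (tn_pos n)
  rw [abs_div, abs_pow, abs_neg, abs_of_pos (div_pos h00 h0), abs_of_pos (pow_pos h0 _), pow_mul,
    cosh_tn_sq]
  gcongr
  exact tanh_pow n

private theorem max_le_mul {a b : ℝ} (ha : 1 ≤ a) (hb : 1 ≤ b) : max a b ≤ a * b :=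
  max_le (by nlinarith) (by nlinarith)

private theorem ev_ne (n j : ℕ) : ev n j ≠ 0 := by
  unfold ev
  rw [Ne, Finsupp.single_eq_zero]
  exact one_ne_zero

section

variable {E : Type} [NormedAddCommGroup E] [NormedSpace ℂ E] [CompleteSpace E]
variable {d : ℕ} {π : G →* (E →L[ℂ] E)} {ι : Sp →ₗ[ℂ] E} {C : ℝ}

private theorem pos_ev {D D' : Dat} {w : G → ℝ} (h : Glob D D' w π ι C) (n j : ℕ) :
    0 < ‖ι (ev n j)‖ := by
  rw [norm_pos_iff]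
  intro h0
  exact ev_ne n j (h.inj (h0.trans (map_zero ι).symm))

/-- the case of a second factor of discrete series type, shifted by `q` -/
private theorem core {D' : Dat} (h : Glob (hol (2 * d)) D' (wgt d) π ι C) (hd : 0 < d)
    (q : ℕ) (hq : ∀ n, Rp (hol 4) (res2 π) (fun j => ι (ev n (j + q))) C) (n j : ℕ) :
    ‖ι (ev 0 q)‖ ≤ 4 * C ^ 3 * 4 ^ d * ((n:ℝ) + 2) ^ (2 * d) * ((j:ℝ) + 2) ^ 3 *
      ‖ι (ev n (j + q))‖ := by
  have hn2 : (1:ℝ) ≤ (n:ℝ) + 2 := by linarith [Nat.cast_nonneg (α := ℝ) n]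
  have hj2 : (1:ℝ) ≤ (j:ℝ) + 2 := by linarith [Nat.cast_nonneg (α := ℝ) j]
  have hN : (1:ℝ) ≤ ((n:ℝ) + 2) ^ d := one_le_pow₀ hn2
  have h1 := (h.toAct.rp1 q).bot (k := 2 * d) (by omega) n (tn n) (tn_pos n)
  have h2 := (hq n).bot (k := 4) (by norm_num) j (tn j) (tn_pos j)
  have h3 := h.toAct.comp_le ((2 * d : ℕ) : ℤ) ((4 : ℕ) : ℤ) n (j + q) 0 q (tn n) (tn j) _ _ h1 (by
    have h4 : FF (res2 π) (fun j => ι (ev n j)) ((4 : ℕ) : ℤ) (j + q) (tn j) =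
      FF (res2 π) (fun j => ι (ev n (j + q))) ((4 : ℕ) : ℤ) j (tn j) := rfl
    rw [h4, h2, Nat.zero_add])
  have h5 := fin1 (d := d) hN hj2 h.toAct.C_nonneg coef (by
    have := coef (n := j) (k := 2)
    simpa using this) ((wgt_hy d hd n j).trans (by
      have := max_le_mul hN hj2
      gcongr)) (norm_nonneg _) (norm_nonneg _) h3
  rw [← pow_mul, mul_comm d 2] at h5
  exact h5

theorem lower_U (h : Glob (hol (2 * d)) ver (wgt d) π ι C) (hd : 0 < d) :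
    ∃ A : ℝ, 0 ≤ A ∧ ∀ n j : ℕ,
      1 ≤ A * ((n:ℝ) + 2) ^ (2 * d) * ((j:ℝ) + 2) ^ 3 * ‖ι (ev n j)‖ := by
  have hC := h.toAct.C_nonneg
  have p0 := pos_ev h 0 0
  have p3 := pos_ev h 0 3
  refine ⟨16 * C ^ 3 * 4 ^ d * (1 / ‖ι (ev 0 0)‖ + 1 / ‖ι (ev 0 3)‖), by positivity,
    fun n j => ?_⟩
  have hn2 : (1:ℝ) ≤ (n:ℝ) + 2 := by linarith [Nat.cast_nonneg (α := ℝ) n]
  have hj2 : (1:ℝ) ≤ (j:ℝ) + 2 := by linarith [Nat.cast_nonneg (α := ℝ) j]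
  have hN : (1:ℝ) ≤ ((n:ℝ) + 2) ^ d := one_le_pow₀ hn2
  rcases Nat.lt_or_ge j 3 with hj | hj
  · have h1 := (h.toAct.rp1 0).bot (k := 2 * d) (by omega) n (tn n) (tn_pos n)
    have h2 := (h.toAct.rp2 n).ver_bot j (by omega) 1 one_pos
    have h3 := h.toAct.comp_le ((2 * d : ℕ) : ℤ) (-2) n j 0 0 (tn n) 1 _ _ h1 h2
    have hs : 1 ≤ Real.sinh 1 := Real.self_le_sinh_iff.mpr zero_le_one
    have hc : 1 ≤ Real.cosh 1 := Real.one_le_cosh 1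
    have hch : (1:ℝ) ≤ ((2 : ℕ).choose j : ℝ) := by
      exact_mod_cast Nat.choose_pos (by omega)
    have hb : 1 ≤ |((2 : ℕ).choose j : ℝ) * Real.sinh 1 ^ j * Real.cosh 1 ^ (2 - j)| := by
      refine le_trans ?_ (le_abs_self _)
      have e1 : 1 ≤ Real.sinh 1 ^ j := one_le_pow₀ hs
      have e2 : 1 ≤ Real.cosh 1 ^ (2 - j) := one_le_pow₀ hc
      have e3 : 1 ≤ ((2 : ℕ).choose j : ℝ) * Real.sinh 1 ^ j := by nlinarith
      nlinarith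
    have h4 := fin1 (d := d) (x := 1) hN le_rfl hC coef (b := 1) (by norm_num)
      (W := 4 ^ d * ((n:ℝ) + 2) ^ d) (by rw [mul_one])
      (norm_nonneg (ι (ev 0 0))) (Q := 8 * ‖ι (ev n j)‖) (by positivity) (by
        rw [abs_one, mul_one]
        have e4 : |(-(Real.sinh (tn n) / Real.cosh (tn n))) ^ n / Real.cosh (tn n) ^ (2 * d)| *
            ‖ι (ev 0 0)‖ ≤ |(-(Real.sinh (tn n) / Real.cosh (tn n))) ^ n /
              Real.cosh (tn n) ^ (2 * d)| *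
              |((2 : ℕ).choose j : ℝ) * Real.sinh 1 ^ j * Real.cosh 1 ^ (2 - j)| *
              ‖ι (ev 0 0)‖ := by
          have e5 : 0 ≤ |(-(Real.sinh (tn n) / Real.cosh (tn n))) ^ n /
            Real.cosh (tn n) ^ (2 * d)| := abs_nonneg _
          refine mul_le_mul_of_nonneg_right ?_ (norm_nonneg _)
          exact le_mul_of_one_le_right e5 hb
        refine (e4.trans h3).trans ?_
        have e6 := wgt_hy_one d hd n
        calc C ^ 3 * wgt d (hy (tn n), hy 1) * ‖ι (ev n j)‖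
            ≤ C ^ 3 * (8 * 4 ^ d * ((n:ℝ) + 2) ^ d) * ‖ι (ev n j)‖ := by gcongr
          _ = _ := by ring)
    rw [← pow_mul, mul_comm d 2, one_pow, mul_one] at h4
    set X := ((n:ℝ) + 2) ^ (2 * d) with hX
    set Y := ((j:ℝ) + 2) ^ 3 with hY
    have hY1 : (8:ℝ) ≤ Y := by
      have : (2:ℝ) ≤ (j:ℝ) + 2 := by linarith [Nat.cast_nonneg (α := ℝ) j]
      calc (8:ℝ) = 2 ^ 3 := by norm_num
        _ ≤ Y := by rw [hY]; gcongr
    have hX0 : 0 ≤ X := by positivity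
    have h5 : ‖ι (ev 0 0)‖ ≤ 16 * C ^ 3 * 4 ^ d * X * Y * ‖ι (ev n j)‖ := by
      refine h4.trans ?_
      have e7 : 0 ≤ C ^ 3 * 4 ^ d * X * ‖ι (ev n j)‖ := by positivity
      nlinarith
    calc (1:ℝ) = 1 / ‖ι (ev 0 0)‖ * ‖ι (ev 0 0)‖ := by field_simp
      _ ≤ 1 / ‖ι (ev 0 0)‖ * (16 * C ^ 3 * 4 ^ d * X * Y * ‖ι (ev n j)‖) := by gcongr
      _ ≤ (1 / ‖ι (ev 0 0)‖ + 1 / ‖ι (ev 0 3)‖) * (16 * C ^ 3 * 4 ^ d * X * Y * ‖ι (ev n j)‖) := by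
          have e8 : 0 ≤ 1 / ‖ι (ev 0 3)‖ := by positivity
          gcongr
          linarith
      _ = _ := by ring
  · obtain ⟨i, rfl⟩ : ∃ i, j = i + 3 := ⟨j - 3, by omega⟩
    have h1 := core h hd 3 (fun n => (h.toAct.rp2 n).shift) n i
    have h2 : ((i:ℝ) + 2) ^ 3 ≤ (((i + 3 : ℕ):ℝ) + 2) ^ 3 := by
      push_cast
      gcongr
      linarith
    set X := ((n:ℝ) + 2) ^ (2 * d) with hX
    set Y := (((i + 3 : ℕ):ℝ) + 2) ^ 3 with hY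
    have hX0 : 0 ≤ X := by positivity
    have hY0 : 0 ≤ Y := by positivity
    have h5 : ‖ι (ev 0 3)‖ ≤ 16 * C ^ 3 * 4 ^ d * X * Y * ‖ι (ev n (i + 3))‖ := by
      refine h1.trans ?_
      have e7 : 4 * C ^ 3 * 4 ^ d * X * ((i:ℝ) + 2) ^ 3 * ‖ι (ev n (i + 3))‖ ≤
        4 * C ^ 3 * 4 ^ d * X * Y * ‖ι (ev n (i + 3))‖ := by gcongr
      refine e7.trans ?_
      have e8 : 0 ≤ C ^ 3 * 4 ^ d * X * Y * ‖ι (ev n (i + 3))‖ := by positivity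
      nlinarith
    calc (1:ℝ) = 1 / ‖ι (ev 0 3)‖ * ‖ι (ev 0 3)‖ := by field_simp
      _ ≤ 1 / ‖ι (ev 0 3)‖ * (16 * C ^ 3 * 4 ^ d * X * Y * ‖ι (ev n (i + 3))‖) := by gcongr
      _ ≤ (1 / ‖ι (ev 0 0)‖ + 1 / ‖ι (ev 0 3)‖) *
          (16 * C ^ 3 * 4 ^ d * X * Y * ‖ι (ev n (i + 3))‖) := by
          have e8 : 0 ≤ 1 / ‖ι (ev 0 0)‖ := by positivity
          gcongr
          linarith
      _ = _ := by ring

theorem lower_V (h : Glob (hol (2 * d)) (hol 4) (wgt d) π ι C) (hd : 0 < d) :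
    ∃ A : ℝ, 0 ≤ A ∧ ∀ n j : ℕ,
      1 ≤ A * ((n:ℝ) + 2) ^ (2 * d) * ((j:ℝ) + 2) ^ 3 * ‖ι (ev n j)‖ := by
  have hC := h.toAct.C_nonneg
  have p0 := pos_ev h 0 0
  refine ⟨4 * C ^ 3 * 4 ^ d * (1 / ‖ι (ev 0 0)‖), by positivity, fun n j => ?_⟩
  have h1 := core h hd 0 (fun n => h.toAct.rp2 n) n j
  rw [Nat.add_zero] at h1
  calc (1:ℝ) = 1 / ‖ι (ev 0 0)‖ * ‖ι (ev 0 0)‖ := by field_simp
    _ ≤ 1 / ‖ι (ev 0 0)‖ * (4 * C ^ 3 * 4 ^ d * ((n:ℝ) + 2) ^ (2 * d) * ((j:ℝ) + 2) ^ 3 *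
        ‖ι (ev n j)‖) := by gcongr
    _ = _ := by ring

end

end Pool.Agent.H40.SG
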