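import Pool.Agent.H40.SG.Wgt

/-!
# Upper bounds valid for every globalization

Adapt `Glob.lower`, `Glob.upper` in `Pool/Agent/H60/Sob/Bounds.lean`, using `Act.comp_le`, `Rp.top`,
`Rp.bot`, `Rp.ver_bot`, `Rp.shift`.

`upper_U` : `Act.comp_le` with `(n, j) := (0, 0)`, `(p, q) := (n, j)`, times `tn n` and `tn N` where
`N + 2 = (n + 2)^d (j + 2)`; then `ctop ver j (tn N) = tanh^j cosh² ≥ (n + 2)^d (j + 2) / 2`,
`ctop (hol (2 d)) n (tn n) ≥ c (n + 2)^(2 d - 1) / (n + 2)^d`, and `wgt ≤ 4^d (n + 2)^d (j + 2)`.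
`upper_V` : the same with `N = j` (then `wgt ≤ 4^d (n + 2)^d (j + 2)`, `ctop (hol 4) j (tn j) ≥ c (j + 2)`).
-/

set_option autoImplicit false

namespace Pool.Agent.H40.SG

open Complex Topology Filter
open Pool.Agent.H60.Sob (tn tn_pos sinh_tn cosh_tn_sq tanh_pow)

private theorem bu_ctop_hol (k : ℕ) (hk : 0 < k) : ∃ F : ℝ, 0 < F ∧ ∀ n : ℕ,
    ((n:ℝ) + 2) ^ (2 * k - 1) ≤ F * ((n:ℝ) + 2) ^ k * |ctop (hol (2 * k)) n (tn n)| := by
  obtain ⟨F, hF, hP⟩ := ctop_hol_lower (2 * k) (by omega)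
  refine ⟨2 * F, by positivity, fun n => ?_⟩
  have h0 : 0 < Real.cosh (tn n) := Real.cosh_pos _
  have h1 := hP n
  set P : ℝ := (∏ i ∈ Finset.range n, ((hol (2 * k)).r i : ℝ)) / n.factorial with hPd
  have hT := tanh_pow n
  set T : ℝ := (Real.sinh (tn n) / Real.cosh (tn n)) ^ n with hTd
  have h2 : (0:ℝ) < ((n:ℝ) + 2) ^ (2 * k - 1) := by positivity
  have hFP : 0 < F * P := lt_of_lt_of_le h2 h1
  have hP0 : 0 < P := by
    by_contra hneg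
    have := mul_nonpos_of_nonneg_of_nonpos hF.le (not_lt.mp hneg)
    linarith
  have h3 : ctop (hol (2 * k)) n (tn n) = P * T / ((n:ℝ) + 2) ^ k := by
    unfold ctop
    have h4 : Real.cosh (tn n) ^ (-(hol (2 * k)).κ) = (((n:ℝ) + 2) ^ k)⁻¹ := by
      have h5 : (hol (2 * k)).κ = ((2 * k : ℕ) : ℤ) := rfl
      rw [h5, zpow_neg, zpow_natCast, pow_mul, cosh_tn_sq]
    rw [h4, ← hPd, ← hTd, div_eq_mul_inv]
  have h4 : (0:ℝ) < ((n:ℝ) + 2) ^ k := by positivity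
  have hT0 : 0 < T := by linarith
  rw [h3, abs_of_pos (by positivity)]
  have h5 : 2 * F * ((n:ℝ) + 2) ^ k * (P * T / ((n:ℝ) + 2) ^ k) = F * P * (2 * T) := by
    field_simp
  rw [h5]
  nlinarith

section

variable {E : Type} [NormedAddCommGroup E] [NormedSpace ℂ E] [CompleteSpace E]
variable {d : ℕ} {π : G →* (E →L[ℂ] E)} {ι : Sp →ₗ[ℂ] E} {C : ℝ}

private theorem bu_comp {D' : Dat} (hD' : D'.OK) (h : Glob (hol (2 * d)) D' (wgt d) π ι C)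
    (hd : 0 < d) (n j N : ℕ) :
    |ctop (hol (2 * d)) n (tn n)| * |ctop D' j (tn N)| * ‖ι (ev n j)‖ ≤
      C ^ 3 * (4 ^ d * max (((n:ℝ) + 2) ^ d) ((N:ℝ) + 2)) * ‖ι (ev 0 0)‖ := by
  have hC := h.toAct.C_nonneg
  have h1 := (h.toAct.rp1 j).top (hol_OK (by omega : 0 < 2 * d)) n (tn n) (tn_pos n)
  have h2 := (h.toAct.rp2 0).top hD' j (tn N) (tn_pos N)
  refine (h.toAct.comp_le _ _ 0 0 n j (tn n) (tn N) _ _ h1 h2).trans ?_
  gcongr
  exact wgt_hy d hd n N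

theorem upper_U (h : Glob (hol (2 * d)) ver (wgt d) π ι C) (hd : 0 < d) :
    ∃ A : ℝ, 0 ≤ A ∧ ∀ n j : ℕ, ((n:ℝ) + 2) ^ d * ‖ι (ev n j)‖ ≤ A * ((n:ℝ) + 2) := by
  have hC := h.toAct.C_nonneg
  obtain ⟨F, hF, hP⟩ := bu_ctop_hol d hd
  refine ⟨2 * F * C ^ 3 * 4 ^ d * ‖ι (ev 0 0)‖, by positivity, fun n j => ?_⟩
  have hN2 : 4 ≤ (n + 2) ^ d * (j + 2) := by
    have : 2 ≤ (n + 2) ^ d := le_trans (by omega) (Nat.le_self_pow (by omega) (n + 2))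
    nlinarith
  obtain ⟨N, hN⟩ := Nat.exists_eq_add_of_le (le_trans (by omega : 2 ≤ 4) hN2)
  have hjN : j ≤ N := by
    have : 2 ≤ (n + 2) ^ d := le_trans (by omega) (Nat.le_self_pow (by omega) (n + 2))
    nlinarith
  have hNR : (N:ℝ) + 2 = ((n:ℝ) + 2) ^ d * ((j:ℝ) + 2) := by
    have : (((n + 2) ^ d * (j + 2) : ℕ) : ℝ) = ((2 + N : ℕ) : ℝ) := by rw [hN]
    push_cast at this
    linarith
  have h1 := bu_comp ver_OK h hd n j N
  have hx : (0:ℝ) < (n:ℝ) + 2 := by positivity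
  have hy : (0:ℝ) < (j:ℝ) + 2 := by positivity
  have hxd : (0:ℝ) < ((n:ℝ) + 2) ^ d := by positivity
  have hmax : max (((n:ℝ) + 2) ^ d) ((N:ℝ) + 2) ≤ ((n:ℝ) + 2) ^ d * ((j:ℝ) + 2) := by
    rw [hNR]
    refine max_le ?_ le_rfl
    have : (1:ℝ) ≤ (j:ℝ) + 2 := by linarith [Nat.cast_nonneg (α := ℝ) j]
    nlinarith
  have hb : ((n:ℝ) + 2) ^ d * ((j:ℝ) + 2) ≤ 2 * |ctop ver j (tn N)| := by
    have hT := tanh_pow_le hjN
    have h3 : ctop ver j (tn N) =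
        (Real.sinh (tn N) / Real.cosh (tn N)) ^ j * (((n:ℝ) + 2) ^ d * ((j:ℝ) + 2)) := by
      unfold ctop
      rw [ctop_ver, one_mul]
      congr 1
      have h5 : -ver.κ = ((2 : ℕ) : ℤ) := rfl
      rw [h5, zpow_natCast, cosh_tn_sq, hNR]
    have hT0 : 0 < (Real.sinh (tn N) / Real.cosh (tn N)) ^ j := by linarith
    rw [h3, abs_of_pos (by positivity)]
    have : 0 < ((n:ℝ) + 2) ^ d * ((j:ℝ) + 2) := by positivity
    nlinarith
  have ha := hP n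
  set a := |ctop (hol (2 * d)) n (tn n)| with had
  set b := |ctop ver j (tn N)| with hbd
  set K := ‖ι (ev n j)‖ with hK
  set K0 := ‖ι (ev 0 0)‖ with hK0
  set X := ((n:ℝ) + 2) ^ d with hX
  set y := (j:ℝ) + 2 with hyd
  have ha0 : 0 ≤ a := abs_nonneg _
  have hK' : 0 ≤ K := norm_nonneg _
  have hK0' : 0 ≤ K0 := norm_nonneg _
  have h2 : a * b * K ≤ C ^ 3 * (4 ^ d * (X * y)) * K0 := by
    refine h1.trans ?_
    gcongr
  have h3 : a * (X * y) * K ≤ 2 * (C ^ 3 * (4 ^ d * (X * y)) * K0) :=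
    calc a * (X * y) * K ≤ a * (2 * b) * K := by gcongr
      _ = 2 * (a * b * K) := by ring
      _ ≤ _ := by gcongr
  have h4 : a * K ≤ 2 * (C ^ 3 * 4 ^ d * K0) := by
    have hXy : 0 < X * y := by positivity
    refine le_of_mul_le_mul_left ?_ hXy
    calc X * y * (a * K) = a * (X * y) * K := by ring
      _ ≤ 2 * (C ^ 3 * (4 ^ d * (X * y)) * K0) := h3
      _ = X * y * (2 * (C ^ 3 * 4 ^ d * K0)) := by ring
  have h5 : ((n:ℝ) + 2) ^ (2 * d - 1) * ((n:ℝ) + 2) = X * X := by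
    rw [hX, ← pow_succ, ← pow_add]
    congr 1
    omega
  have h6 : X * (X * K) ≤ X * (2 * F * C ^ 3 * 4 ^ d * K0 * ((n:ℝ) + 2)) :=
    calc X * (X * K) = ((n:ℝ) + 2) ^ (2 * d - 1) * (((n:ℝ) + 2) * K) := by
          rw [← mul_assoc, ← h5]; ring
      _ ≤ (F * X * a) * (((n:ℝ) + 2) * K) := by gcongr
      _ = F * X * ((n:ℝ) + 2) * (a * K) := by ring
      _ ≤ F * X * ((n:ℝ) + 2) * (2 * (C ^ 3 * 4 ^ d * K0)) := by gcongr
      _ = _ := by ring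
  exact le_of_mul_le_mul_left h6 hxd

theorem upper_V (h : Glob (hol (2 * d)) (hol 4) (wgt d) π ι C) (hd : 0 < d) :
    ∃ A : ℝ, 0 ≤ A ∧ ∀ n j : ℕ, ‖ι (ev n j)‖ ≤ A * ((n:ℝ) + 2) := by
  have hC := h.toAct.C_nonneg
  obtain ⟨F, hF, hP⟩ := bu_ctop_hol d hd
  obtain ⟨F', hF', hP'⟩ : ∃ F : ℝ, 0 < F ∧ ∀ n : ℕ,
    ((n:ℝ) + 2) ^ 3 ≤ F * ((n:ℝ) + 2) ^ 2 * |ctop (hol 4) n (tn n)| :=
    bu_ctop_hol 2 (by norm_num)
  refine ⟨F * F' * C ^ 3 * 4 ^ d * ‖ι (ev 0 0)‖, by positivity, fun n j => ?_⟩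
  have h1 := bu_comp (hol_OK (by norm_num : 0 < 4)) h hd n j j
  have hx : (0:ℝ) < (n:ℝ) + 2 := by positivity
  have hy : (0:ℝ) < (j:ℝ) + 2 := by positivity
  have hxd : (0:ℝ) < ((n:ℝ) + 2) ^ d := by positivity
  have hmax : max (((n:ℝ) + 2) ^ d) ((j:ℝ) + 2) ≤ ((n:ℝ) + 2) ^ d * ((j:ℝ) + 2) := by
    have h2 : (1:ℝ) ≤ (j:ℝ) + 2 := by linarith [Nat.cast_nonneg (α := ℝ) j]
    have h3 : (1:ℝ) ≤ ((n:ℝ) + 2) ^ d := one_le_pow₀ (by linarith [Nat.cast_nonneg (α := ℝ) n])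
    refine max_le ?_ ?_ <;> nlinarith
  have ha := hP n
  have hb0 := hP' j
  set a := |ctop (hol (2 * d)) n (tn n)| with had
  set b := |ctop (hol 4) j (tn j)| with hbd
  set K := ‖ι (ev n j)‖ with hK
  set K0 := ‖ι (ev 0 0)‖ with hK0
  set x := (n:ℝ) + 2 with hxdef
  set y := (j:ℝ) + 2 with hyd
  have ha0 : 0 ≤ a := abs_nonneg _
  have hb0' : 0 ≤ b := abs_nonneg _
  have hK' : 0 ≤ K := norm_nonneg _
  have hK0' : 0 ≤ K0 := norm_nonneg _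
  have hb : y ≤ F' * b := by
    have hy2 : 0 < y ^ 2 := by positivity
    refine le_of_mul_le_mul_left ?_ hy2
    calc y ^ 2 * y = y ^ 3 := by ring
      _ ≤ F' * y ^ 2 * b := hb0
      _ = y ^ 2 * (F' * b) := by ring
  have h2 : a * b * K ≤ C ^ 3 * (4 ^ d * (x ^ d * y)) * K0 := by
    refine h1.trans ?_
    gcongr
  have h3 : a * y * K ≤ F' * (C ^ 3 * (4 ^ d * (x ^ d * y)) * K0) :=
    calc a * y * K ≤ a * (F' * b) * K := by gcongr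
      _ = F' * (a * b * K) := by ring
      _ ≤ _ := by gcongr
  have h4 : a * K ≤ F' * (C ^ 3 * (4 ^ d * x ^ d) * K0) := by
    refine le_of_mul_le_mul_left ?_ hy
    calc y * (a * K) = a * y * K := by ring
      _ ≤ F' * (C ^ 3 * (4 ^ d * (x ^ d * y)) * K0) := h3
      _ = y * (F' * (C ^ 3 * (4 ^ d * x ^ d) * K0)) := by ring
  have h5 : x ^ (2 * d - 1) * x = x ^ d * x ^ d := by
    rw [← pow_succ, ← pow_add]
    congr 1
    omega
  have h6 : x ^ d * (x ^ d * K) ≤ x ^ d * (x ^ d * (F * F' * C ^ 3 * 4 ^ d * K0 * x)) :=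
    calc x ^ d * (x ^ d * K) = x ^ (2 * d - 1) * (x * K) := by
          rw [← mul_assoc, ← h5]; ring
      _ ≤ (F * x ^ d * a) * (x * K) := by gcongr
      _ = F * x ^ d * x * (a * K) := by ring
      _ ≤ F * x ^ d * x * (F' * (C ^ 3 * (4 ^ d * x ^ d) * K0)) := by gcongr
      _ = _ := by ring
  exact le_of_mul_le_mul_left (le_of_mul_le_mul_left h6 hxd) hxd

end

end Pool.Agent.H40.SG
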