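import Pool.Agent.H40.SG.Mod

/-!
# `modP D D'` is a Harish-Chandra module; the embedding of `V` in `U`

Adapt the end of `Pool/Agent/H60/Sob/Grp.lean` (`exp_ne_of`, `modL_admissible`, `modL_isHC`). The
weights `(D.κ + 2 n, D'.κ + 2 j)` are different for different `(n, j)`; generation: from `ev 0 0` one
gets all `ev n j` since `D.r n ≠ 0`, `D'.r j ≠ 0` (take `X = (x, 0)` and `X = (0, x)`).
-/

set_option autoImplicit false

namespace Pool.Agent.H40.SG

open Complex Topology Filter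

private theorem exp_ne_of' (k : ℤ) (n m : ℕ) (h : n ≠ m) : ∃ θ : ℝ,
    exp (-(θ * I)) ^ (k + 2 * (n : ℤ)) ≠ exp (-(θ * I)) ^ (k + 2 * (m : ℤ)) := by
  obtain ⟨θ, hθ⟩ := Pool.Agent.H60.Sob.exp_ne_of 0 n m h
  refine ⟨θ, fun he => hθ ?_⟩
  have h0 : exp (-((θ:ℂ) * I)) ≠ 0 := exp_ne_zero _
  rw [zpow_add₀ h0, zpow_add₀ h0] at he
  have h1 := mul_left_cancel₀ (zpow_ne_zero k h0) he
  rw [zero_add, zero_add]
  exact_mod_cast h1

theorem modP_admissible {D D' : Dat} (hD : D.OK) (hD' : D'.OK) (χ : K → ℂ)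
    (W : Submodule ℂ Sp) (hW : ∀ v ∈ W, ∀ g, (modP hD hD').κ g v = χ g • v) :
    FiniteDimensional ℂ W := by
  have hW' : ∀ v ∈ W, ∀ (g : K) (n j : ℕ),
      (((g : G).1.1.1 1 1) ^ (D.κ + 2 * (n : ℤ)) * ((g : G).2.1.1 1 1) ^ (D'.κ + 2 * (j : ℤ))) *
        v (n, j) = χ g * v (n, j) := by
    intro v hv g n j
    rw [← kapP_apply]
    show ((modP hD hD').κ g v) (n, j) = _
    rw [hW v hv g, Finsupp.smul_apply, smul_eq_mul]
  by_cases h0 : W = ⊥
  · rw [h0]; infer_instance
  · obtain ⟨v0, hv0, hne⟩ := W.ne_bot_iff.mp h0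
    obtain ⟨⟨n0, j0⟩, hn0⟩ := Finsupp.ne_iff.mp hne
    rw [Finsupp.zero_apply] at hn0
    have h1 : W ≤ LinearMap.range (Finsupp.lsingle (n0, j0) : ℂ →ₗ[ℂ] Sp) := by
      intro v hv
      refine ⟨v (n0, j0), ?_⟩
      rw [Finsupp.lsingle_apply]
      ext ⟨n, j⟩
      rw [Finsupp.single_apply]
      split_ifs with h
      · rw [h]
      · by_contra hvn
        have hvn' : v (n, j) ≠ 0 := Ne.symm hvn
        have key : ∀ g : K, ((g : G).1.1.1 1 1) ^ (D.κ + 2 * (n : ℤ)) *
            ((g : G).2.1.1 1 1) ^ (D'.κ + 2 * (j : ℤ)) =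
            ((g : G).1.1.1 1 1) ^ (D.κ + 2 * (n0 : ℤ)) *
            ((g : G).2.1.1 1 1) ^ (D'.κ + 2 * (j0 : ℤ)) := by
          intro g
          rw [mul_right_cancel₀ hvn' (hW' v hv g n j), mul_right_cancel₀ hn0 (hW' v0 hv0 g n0 j0)]
        by_cases hnn : n = n0
        · have hjj : j ≠ j0 := by
            rintro rfl
            exact h (by rw [hnn])
          obtain ⟨θ, hθ⟩ := exp_ne_of' D'.κ j j0 hjj
          have h2 := key (rot 0 θ)
          have h6 : (rot 0 θ : G).1.1.1 1 1 = exp (-(((0:ℝ):ℂ) * I)) := rfl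
          have h7 : (rot 0 θ : G).2.1.1 1 1 = exp (-(θ * I)) := rfl
          rw [h6, h7] at h2
          simp only [Complex.ofReal_zero, zero_mul, neg_zero, Complex.exp_zero, one_zpow,
            one_mul] at h2
          exact hθ h2
        · obtain ⟨θ, hθ⟩ := exp_ne_of' D.κ n n0 hnn
          have h2 := key (rot θ 0)
          have h6 : (rot θ 0 : G).1.1.1 1 1 = exp (-(θ * I)) := rfl
          have h7 : (rot θ 0 : G).2.1.1 1 1 = exp (-(((0:ℝ):ℂ) * I)) := rfl
          rw [h6, h7] at h2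
          simp only [Complex.ofReal_zero, zero_mul, neg_zero, Complex.exp_zero, one_zpow,
            mul_one] at h2
          exact hθ h2
    exact Submodule.finiteDimensional_of_le h1

/-- The element `!![0, 1; 1, 0]` of `su(1,1)`. -/
private noncomputable def xel : su11 := (Pool.Agent.H60.Sob.elt 0 1 0).1

private theorem xel_00 : xel.1 0 0 = 0 := by
  unfold xel
  rw [Pool.Agent.H60.Sob.elt_00]
  simp

private theorem xel_01 : xel.1 0 1 = 1 := rfl

theorem gen_ev00 {D D' : Dat} (hD : D.OK) (hD' : D'.OK) (W : Submodule ℂ Sp) (h0 : ev 0 0 ∈ W)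
    (hρ : ∀ (X : gLie), ∀ v ∈ W, (modP hD hD').ρ X v ∈ W) : W = ⊤ := by
  have z00 : ((0 : su11) : Matrix (Fin 2) (Fin 2) ℂ) 0 0 = 0 := rfl
  have z01 : ((0 : su11) : Matrix (Fin 2) (Fin 2) ℂ) 0 1 = 0 := rfl
  have h1 : ∀ n, ev n 0 ∈ W := by
    intro n
    induction n using Nat.strong_induction_on with
    | _ n ih =>
      rcases n with _ | n
      · exact h0
      · have h2 := hρ (xel, 0) _ (ih n (Nat.lt_succ_self n))
        have h3 : (modP hD hD').ρ (xel, 0) (ev n 0) = (D.r n : ℂ) • ev (n + 1) 0 -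
            (D.l n : ℂ) • ev (n - 1) 0 := by
          show rhoP D D' (xel, 0) (ev n 0) = _
          rw [rhoP_ev]
          simp only [xel_00, xel_01, z00, z01, map_one, map_zero, neg_zero, zero_mul, mul_zero,
            mul_one, zero_smul, zero_add, add_zero, sub_zero]
        rw [h3] at h2
        have h4 : (D.l n : ℂ) • ev (n - 1) 0 ∈ W := W.smul_mem _ (ih (n - 1) (by omega))
        have h5 := W.add_mem h2 h4
        rw [sub_add_cancel] at h5
        have h6 : (D.r n : ℂ) ≠ 0 := by exact_mod_cast hD.rne n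
        exact (W.smul_mem_iff h6).mp h5
  have h2 : ∀ n j, ev n j ∈ W := by
    intro n j
    induction j using Nat.strong_induction_on with
    | _ j ih =>
      rcases j with _ | j
      · exact h1 n
      · have h2 := hρ (0, xel) _ (ih j (Nat.lt_succ_self j))
        have h3 : (modP hD hD').ρ (0, xel) (ev n j) = (D'.r j : ℂ) • ev n (j + 1) -
            (D'.l j : ℂ) • ev n (j - 1) := by
          show rhoP D D' (0, xel) (ev n j) = _
          rw [rhoP_ev]
          simp only [xel_00, xel_01, z00, z01, map_one, map_zero, neg_zero, zero_mul, mul_zero,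
            mul_one, zero_smul, zero_add, add_zero, sub_zero]
        rw [h3] at h2
        have h4 : (D'.l j : ℂ) • ev n (j - 1) ∈ W := W.smul_mem _ (ih (j - 1) (by omega))
        have h5 := W.add_mem h2 h4
        rw [sub_add_cancel] at h5
        have h6 : (D'.r j : ℂ) ≠ 0 := by exact_mod_cast hD'.rne j
        exact (W.smul_mem_iff h6).mp h5
  rw [eq_top_iff]
  intro v _
  exact ev_ind (P := fun v => v ∈ W) v W.zero_mem (fun v w hv hw => W.add_mem hv hw)
    (fun c v hv => W.smul_mem c hv) h2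

theorem modP_isHC {D D' : Dat} (hD : D.OK) (hD' : D'.OK) : IsHarishChandra (modP hD hD') := by
  classical
  refine ⟨modP_admissible hD hD', ?_⟩
  exact ⟨{ev 0 0}, fun W hS hρ => gen_ev00 hD hD' W (hS _ (Finset.mem_singleton_self _)) hρ⟩

/-- The inclusion of `V` in `U`: `e_n ⊗ e_j` is mapped to `e_n ⊗ e_(j+3)`. -/
noncomputable def incl : Sp →ₗ[ℂ] Sp :=
  Finsupp.lmapDomain ℂ ℂ (fun p : ℕ × ℕ => (p.1, p.2 + 3))

theorem incl_ev (n j : ℕ) : incl (ev n j) = ev n (j + 3) := by
  unfold incl ev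
  rw [Finsupp.lmapDomain_apply, Finsupp.mapDomain_single]

theorem incl_inj : Function.Injective incl := by
  intro v w h
  refine Finsupp.mapDomain_injective (f := fun p : ℕ × ℕ => (p.1, p.2 + 3)) ?_ h
  rintro ⟨n, j⟩ ⟨n', j'⟩ h
  simp only [Prod.mk.injEq] at h
  rw [h.1, Nat.add_right_cancel h.2]

private theorem hol_κ : (hol 4).κ = 4 := rfl

private theorem ver_κ : ver.κ = -2 := rfl

private theorem hol_r (j : ℕ) : (hol 4).r j = 4 + j := rfl

private theorem hol_l (j : ℕ) : (hol 4).l j = j := rfl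

private theorem ver_r (j : ℕ) : ver.r j = j + 1 := rfl

private theorem ver_l (j : ℕ) : ver.l (j + 3) = j := by
  show (if j + 3 = 0 then (0:ℤ) else ((j + 3 : ℕ) : ℤ) - 3) = j
  rw [if_neg (by omega)]
  push_cast
  ring

theorem incl_rho (D : Dat) (X : gLie) (v : Sp) :
    incl (rhoP D (hol 4) X v) = rhoP D ver X (incl v) := by
  have h : incl ∘ₗ rhoP D (hol 4) X = rhoP D ver X ∘ₗ incl := by
    refine ev_ext fun n j => ?_
    rw [LinearMap.comp_apply, LinearMap.comp_apply, incl_ev, rhoP_ev, rhoP_ev]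
    simp only [map_add, map_sub, map_smul, incl_ev, hol_κ, ver_κ, hol_r, hol_l, ver_r, ver_l]
    rcases j with _ | j
    · push_cast
      simp only [zero_mul, zero_smul]
      module
    · rw [show j + 1 - 1 + 3 = j + 1 + 3 - 1 by omega]
      push_cast
      module
  exact LinearMap.congr_fun h v

theorem incl_kap (D : Dat) (g : K) (v : Sp) :
    incl (kapP D (hol 4) g v) = kapP D ver g (incl v) := by
  have h : incl ∘ₗ kapP D (hol 4) g = kapP D ver g ∘ₗ incl := by
    refine ev_ext fun n j => ?_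
    rw [LinearMap.comp_apply, LinearMap.comp_apply, incl_ev, kapP_ev, kapP_ev, map_smul, incl_ev,
      hol_κ, ver_κ]
    rw [show (-2 : ℤ) + 2 * ((j + 3 : ℕ) : ℤ) = 4 + 2 * (j : ℤ) by push_cast; ring]
  exact LinearMap.congr_fun h v

end Pool.Agent.H40.SG
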