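import Pool.Agent.H40.SG.Wgt
import Pool.Agent.H40.SG.ModHC

/-!
# Transfer to the definitions used in the statement

Adapt `Pool/Agent/H60/Sob/Bridge.lean`. Here `K` is the same subgroup `SGS.K` on both sides, and
`SGS.KT` is the type of its elements.
-/

set_option autoImplicit false

namespace Pool.Agent.H40.SG

open Complex Topology Filter

theorem isExp_iff (X : SGS.gLie) (γ : ℝ → SGS.G) :
    SGS.IsExp X γ ↔ IsExp (X : gLie) (fun t => (γ t : G)) := by
  constructor
  · rintro ⟨h1, h2, h3⟩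
    exact ⟨⟨fun s t => congrArg Prod.fst (h1 s t), h2⟩,
      ⟨fun s t => congrArg Prod.snd (h1 s t), h3⟩⟩
  · rintro ⟨⟨h1, h2⟩, ⟨h3, h4⟩⟩
    exact ⟨fun s t => Prod.ext (h1 s t) (h3 s t), h2, h4⟩

/-- The `(𝔤, K)`-module in the sense of the statement. -/
noncomputable def modS {D D' : Dat} (hD : D.OK) (hD' : D'.OK) : SGS.GKModule Sp where
  ρ X v := (modP hD hD').ρ X v
  κ g v := (modP hD hD').κ g v
  ρ_lin X := ((modP hD hD').ρ X).isLinear
  κ_lin g := ((modP hD hD').κ g).isLinear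
  ρ_add X Y v := by
    have h := (modP hD hD').ρ_add X Y
    exact congrArg (fun f : Sp →ₗ[ℂ] Sp => f v) h
  ρ_smul r X v := by
    have h := (modP hD hD').ρ_smul r X
    exact congrArg (fun f : Sp →ₗ[ℂ] Sp => f v) h
  ρ_lie X Y v := by
    have h := (modP hD hD').ρ_lie X Y
    exact congrArg (fun f : Sp →ₗ[ℂ] Sp => f v) h
  κ_one v := by
    have h := map_one (modP hD hD').κ
    exact congrArg (fun f : Sp →ₗ[ℂ] Sp => f v) h
  κ_mul g l v := by
    have h := map_mul (modP hD hD').κ g l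
    exact congrArg (fun f : Sp →ₗ[ℂ] Sp => f v) h
  κ_fin v := (modP hD hD').κ_fin v
  κ_cont v l := (modP hD hD').κ_cont v l
  κ_deriv X γ h v l := (modP hD hD').κ_deriv X γ ((isExp_iff X _).1 h) v l
  κ_Ad g X v := (modP hD hD').κ_Ad g X v

variable {D D' : Dat} (hD : D.OK) (hD' : D'.OK)

theorem modS_isHC : SGS.IsHarishChandra (modS hD hD') := by
  obtain ⟨h1, S, hS⟩ := modP_isHC hD hD'
  refine ⟨fun χ => ?_, S, hS⟩
  refine h1 χ _ ?_
  intro v hv g
  induction hv using Submodule.span_induction with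
  | mem x hx => exact hx g
  | zero => rw [map_zero, smul_zero]
  | add x y _ _ hx hy => rw [map_add, hx, hy, smul_add]
  | smul a x _ hx => rw [map_smul, hx, smul_comm]

theorem inNorm_iff (w : SGS.G → ℝ) (p : Sp → ℝ) :
    SGS.InNorm (modS hD hD') w p ↔ InNorm (modP hD hD') (fun g => w g) p := by
  constructor
  · rintro ⟨E, i1, i2, π, ι, C, h, hp⟩
    have hlin : ∀ g, ∀ e, ‖(IsLinearMap.mk' _ (h.π_lin g)) e‖ ≤ (C * w g) * ‖e‖ := h.growth
    let π' : G →* (E →L[ℂ] E) :=
      { toFun := fun g => LinearMap.mkContinuous (IsLinearMap.mk' _ (h.π_lin g)) (C * w g) (hlin g)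
        map_one' := by
          ext1 e
          exact h.π_one e
        map_mul' := by
          intro a b
          ext1 e
          exact h.π_mul a b e }
    let ι' : Sp →ₗ[ℂ] E := IsLinearMap.mk' _ h.ι_lin
    have hgr : ∃ C' : ℝ, ∀ g, ‖π' g‖ ≤ C' * w g := by
      by_cases hne : Nontrivial E
      · refine ⟨C, fun g => ?_⟩
        have hw : 0 ≤ C * w g := by
          obtain ⟨e, he⟩ := exists_ne (0 : E)
          have h3 := (norm_nonneg _).trans (h.growth g e)
          exact nonneg_of_mul_nonneg_left h3 (norm_pos_iff.mpr he)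
        exact ContinuousLinearMap.opNorm_le_bound _ hw (hlin g)
      · refine ⟨0, fun g => ?_⟩
        rw [not_nontrivial_iff_subsingleton] at hne
        rw [zero_mul]
        refine ContinuousLinearMap.opNorm_le_bound _ le_rfl (fun e => ?_)
        rw [Subsingleton.elim (π' g e) 0, norm_zero, zero_mul]
    refine ⟨E, i1, i2, h.complete, π', ι', h.ι_inj, h.ι_dense, hp, h.π_cont, ?_,
      fun g v => h.ι_K g v, fun X γ hγ v => h.ι_deriv X γ ((isExp_iff X γ).2 hγ) v, hgr⟩
    intro e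
    exact h.fin_iff e
  · rintro ⟨E, i1, i2, hE, π, ι, h1, h2, h3, h4, h5, h6, h7, C, h8⟩
    refine ⟨E, i1, i2, fun g e => π g e, ι, C, ⟨hE, fun g => (π g).isLinear, ?_, ?_, h4,
      ι.isLinear, h1, h2, ?_, fun g v => h6 g v,
      fun X γ hγ v => h7 X γ ((isExp_iff X γ).1 hγ) v, ?_⟩, h3⟩
    · intro e
      have := π.map_one
      exact congrArg (fun f : E →L[ℂ] E => f e) this
    · intro g l e
      have := π.map_mul g l
      exact congrArg (fun f : E →L[ℂ] E => f e) this
    · intro e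
      exact h5 e
    · intro g e
      refine ((π g).le_opNorm e).trans ?_
      gcongr
      exact h8 g

private lemma bridge_su_ext {g h : SU11} (h0 : g.1.1 0 0 = h.1.1 0 0) (h1 : g.1.1 0 1 = h.1.1 0 1) :
    g = h := by
  apply Subtype.ext
  apply Subtype.ext
  ext i j
  fin_cases i <;> fin_cases j
  · exact h0
  · exact h1
  · have e1 : g.1.1 1 0 = starRingEnd ℂ (g.1.1 0 1) := g.2.1
    have e2 : h.1.1 1 0 = starRingEnd ℂ (h.1.1 0 1) := h.2.1
    show g.1.1 1 0 = h.1.1 1 0
    rw [e1, e2, h1]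
  · have e1 : g.1.1 1 1 = starRingEnd ℂ (g.1.1 0 0) := g.2.2
    have e2 : h.1.1 1 1 = starRingEnd ℂ (h.1.1 0 0) := h.2.2
    show g.1.1 1 1 = h.1.1 1 1
    rw [e1, e2, h0]

theorem isRot_iff (θ θ' : ℝ) (g : SGS.KT) : SGS.IsRot θ θ' g ↔ g = rot θ θ' := by
  constructor
  · rintro ⟨h1, h2⟩
    apply Subtype.ext
    refine Prod.ext (bridge_su_ext ?_ ?_) (bridge_su_ext ?_ ?_)
    · exact h1
    · exact g.2.1
    · exact h2
    · exact g.2.2
  · intro h
    subst h
    exact ⟨rfl, rfl⟩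

theorem isSobolev_iff (s : ℝ) (S : Sp →ₗ[ℂ] Sp) :
    SGS.IsSobolev (modS hD hD') s S ↔ IsSobolev (modP hD hD') s S := by
  constructor
  · intro h m m' v hv
    refine h m m' v (fun θ θ' g hg => ?_)
    rw [isRot_iff] at hg
    show (modP hD hD').κ g v = _
    rw [hg]
    exact hv θ θ'
  · intro h m m' v hv
    refine h m m' v (fun θ θ' => ?_)
    exact hv θ θ' (rot θ θ') ((isRot_iff _ _ _).mpr rfl)

theorem sobLe_iff (s : ℝ) (p q : Sp → ℝ) :
    SGS.SobLe (modS hD hD') s p q ↔ SobLe (modP hD hD') s p q := by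
  unfold SGS.SobLe SobLe
  simp only [isSobolev_iff]

theorem sobolevGap_eq (w : SGS.G → ℝ) :
    SGS.sobolevGap (modS hD hD') w = sobolevGap (modP hD hD') (fun g => w g) := by
  unfold SGS.sobolevGap sobolevGap gapSet
  simp only [sobLe_iff, inNorm_iff]

theorem gapOf_eq (p q : Sp → ℝ) :
    SGS.gapOf (modS hD hD') p q = sInf {s | 0 ≤ s ∧ SobLe (modP hD hD') s p q} := by
  unfold SGS.gapOf
  simp only [sobLe_iff]

theorem isMaxNorm_iff (w : SGS.G → ℝ) (p : Sp → ℝ) :
    SGS.IsMaxNorm (modS hD hD') w p ↔ IsMaxNorm (modP hD hD') (fun g => w g) p := by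
  unfold SGS.IsMaxNorm IsMaxNorm
  simp only [inNorm_iff]

theorem isMinNorm_iff (w : SGS.G → ℝ) (p : Sp → ℝ) :
    SGS.IsMinNorm (modS hD hD') w p ↔ IsMinNorm (modP hD hD') (fun g => w g) p := by
  unfold SGS.IsMinNorm IsMinNorm
  simp only [inNorm_iff]

/-- The inclusion is an embedding of modules. -/
theorem incl_isEmb {D : Dat} (hD : D.OK) :
    SGS.IsEmb (modS hD (hol_OK (k := 4) (by omega))) (modS hD ver_OK) incl :=
  ⟨incl_inj, fun X v => incl_rho D X v, fun g v => incl_kap D g v⟩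

/-- The weight, on the group of the statement. -/
noncomputable def wgtS (d : ℕ) (g : SGS.G) : ℝ := wgt d g

theorem wgtS_isWeight (d : ℕ) : SGS.IsWeight (wgtS d) := wgt_isWeight d

end Pool.Agent.H40.SG
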