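import Pool.Agent.H40.SG.Stmt
import Pool.Agent.H60.Sob.Model3

/-!
# Bundled definitions, and the modules

`G = SU(1,1) × SU(1,1)`. A lowest weight module of `SU(1,1)` with basis `e_0, e_1, ...` is given by
its data `Dat` (lowest weight, raising and lowering coefficients). `modP D D'` is the external
tensor product of two such modules; the underlying space is `(ℕ × ℕ) →₀ ℂ`.
-/

namespace Pool.Agent.H40.SG

open Complex Matrix Topology Filter

export Pool.Agent.H60.SobS (SU11 su11)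

/-- The semisimple group `G = SU(1,1) × SU(1,1)`. -/
abbrev G : Type := SU11 × SU11

/-- Its Lie algebra `𝔤 = su(1,1) × su(1,1)`. -/
abbrev gLie : Type := su11 × su11

/-- The commutator in `su(1,1)`. -/
def br1 (X Y : su11) : su11 := ⟨X.1 * Y.1 - Y.1 * X.1, SGS.bracket_mem X Y⟩

/-- The Lie bracket of `𝔤`. -/
def bracket (X Y : gLie) : gLie := (br1 X.1 Y.1, br1 X.2 Y.2)

/-- The adjoint action of `SU(1,1)`. -/
def Ad1 (g : SU11) (X : su11) : su11 := ⟨g.1.1 * X.1 * (g⁻¹).1.1, SGS.Ad_mem g X⟩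

/-- The adjoint action of `G` on `𝔤`. -/
def Ad (g : G) (X : gLie) : gLie := (Ad1 g.1 X.1, Ad1 g.2 X.2)

/-- The maximal compact subgroup `K = U(1) × U(1)` of `G`. -/
abbrev K : Subgroup G := SGS.K

/-- `γ` is the one-parameter subgroup `t ↦ exp (t X)` of `SU(1,1)`. -/
def IsExp1 (X : su11) (γ : ℝ → SU11) : Prop :=
  (∀ s t, γ (s + t) = γ s * γ t) ∧ (∀ i j, HasDerivAt (fun t => (γ t).1.1 i j) (X.1 i j) 0)

/-- `γ` is the one-parameter subgroup `t ↦ exp (t X)` of `G`. -/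
def IsExp (X : gLie) (γ : ℝ → G) : Prop :=
  IsExp1 X.1 (fun t => (γ t).1) ∧ IsExp1 X.2 (fun t => (γ t).2)

/-- A `(𝔤, K)`-module structure on a complex vector space `V`. -/
structure GKModule (V : Type) [AddCommGroup V] [Module ℂ V] where
  /-- the action of the Lie algebra -/
  ρ : gLie → V →ₗ[ℂ] V
  /-- the action of `K` -/
  κ : K →* Module.End ℂ V
  ρ_add : ∀ X Y, ρ (X + Y) = ρ X + ρ Y
  ρ_smul : ∀ (r : ℝ) X, ρ (r • X) = (r : ℂ) • ρ X
  ρ_lie : ∀ X Y, ρ (bracket X Y) = ρ X ∘ₗ ρ Y - ρ Y ∘ₗ ρ X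
  /-- every vector is `K`-finite -/
  κ_fin : ∀ v, FiniteDimensional ℂ (Submodule.span ℂ (Set.range fun k => κ k v))
  /-- the action of `K` is continuous -/
  κ_cont : ∀ v (l : V →ₗ[ℂ] ℂ), Continuous fun k => l (κ k v)
  /-- the two actions of the Lie algebra of `K` agree -/
  κ_deriv : ∀ (X : gLie) (γ : ℝ → K), IsExp X (fun t => (γ t : G)) → ∀ v (l : V →ₗ[ℂ] ℂ),
    HasDerivAt (fun t => l (κ (γ t) v)) (l (ρ X v)) 0
  /-- compatibility with the adjoint action of `K` on `𝔤` -/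
  κ_Ad : ∀ (k : K) X v, κ k (ρ X v) = ρ (Ad k X) (κ k v)

section

variable {V : Type} [AddCommGroup V] [Module ℂ V]

/-- A Harish-Chandra module: an admissible `(𝔤, K)`-module, finitely generated over `𝔤`. -/
def IsHarishChandra (M : GKModule V) : Prop :=
  (∀ χ : K → ℂ, ∀ W : Submodule ℂ V, (∀ v ∈ W, ∀ k, M.κ k v = χ k • v) →
    FiniteDimensional ℂ W) ∧
  (∃ S : Finset V, ∀ W : Submodule ℂ V, (∀ v ∈ S, v ∈ W) →
    (∀ (X : gLie), ∀ v ∈ W, M.ρ X v ∈ W) → W = ⊤)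

/-- A weight on `G`: a positive, locally bounded, submultiplicative function. -/
def IsWeight (w : G → ℝ) : Prop :=
  (∀ g, 0 < w g) ∧ (∀ g h, w (g * h) ≤ w g * w h) ∧
  (∀ g, ∃ C : ℝ, ∀ᶠ h in 𝓝 g, w h ≤ C)

/-- `p ∈ Norm(V, w)`: `p` is a `G`-continuous norm on `V` whose growth is at most `C w`. -/
def InNorm (M : GKModule V) (w : G → ℝ) (p : V → ℝ) : Prop :=
  ∃ (E : Type) (_ : NormedAddCommGroup E) (_ : NormedSpace ℂ E) (_ : CompleteSpace E)
    (π : G →* (E →L[ℂ] E)) (ι : V →ₗ[ℂ] E),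
    Function.Injective ι ∧ DenseRange ι ∧ (∀ v, p v = ‖ι v‖) ∧
    Continuous (fun x : G × E => π x.1 x.2) ∧
    (∀ e, FiniteDimensional ℂ (Submodule.span ℂ (Set.range fun k : K => π k e)) ↔
      e ∈ LinearMap.range ι) ∧
    (∀ (k : K) v, π k (ι v) = ι (M.κ k v)) ∧
    (∀ (X : gLie) (γ : ℝ → G), IsExp X γ → ∀ v,
      HasDerivAt (fun t => π (γ t) (ι v)) (ι (M.ρ X v)) 0) ∧
    ∃ C : ℝ, ∀ g, ‖π g‖ ≤ C * w g

end

/-- The element `diag(e^{iθ}, e^{-iθ})` of `SU(1,1)`. -/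
noncomputable def rt (θ : ℝ) : SU11 :=
  ⟨⟨!![exp (θ * I), 0; 0, exp (-(θ * I))], by
    simp [Matrix.det_fin_two, ← Complex.exp_add]⟩, by
    constructor
    · simp
    · simp [← Complex.exp_conj]⟩

/-- The element `(diag(e^{iθ}, e^{-iθ}), diag(e^{iθ'}, e^{-iθ'}))` of `K`. -/
noncomputable def rot (θ θ' : ℝ) : K := ⟨(rt θ, rt θ'), by
  constructor
  · rfl
  · rfl⟩

section

variable {V : Type} [AddCommGroup V] [Module ℂ V]

/-- `D` is the operator `D_s = (1 + Δ_K)^{s/2}`. -/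
def IsSobolev (M : GKModule V) (s : ℝ) (D : V →ₗ[ℂ] V) : Prop :=
  ∀ (m m' : ℤ) (v : V), (∀ θ θ' : ℝ, M.κ (rot θ θ') v = exp ((m * θ + m' * θ') * I) • v) →
    D v = (((1 + (m : ℝ) ^ 2 + (m' : ℝ) ^ 2) ^ (s / 2) : ℝ) : ℂ) • v

/-- `p ≲ q_s`, where `q_s(v) = q(D_s v)`. -/
def SobLe (M : GKModule V) (s : ℝ) (p q : V → ℝ) : Prop :=
  ∃ D, IsSobolev M s D ∧ ∃ c : ℝ, ∀ v, p v ≤ c * q (D v)

/-- The set of all `s ≥ 0` such that `p ≲ q_s` for all `p, q ∈ Norm(V, w)`. -/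
def gapSet (M : GKModule V) (w : G → ℝ) : Set ℝ :=
  {s | 0 ≤ s ∧ ∀ p q, InNorm M w p → InNorm M w q → SobLe M s p q}

/-- The Sobolev gap `s(V, w)`, for `Norm(V, w)` nonempty. -/
noncomputable def sobolevGap (M : GKModule V) (w : G → ℝ) : ℝ := sInf (gapSet M w)

/-- `p` represents the maximal class of `Norm(V, w)`. -/
def IsMaxNorm (M : GKModule V) (w : G → ℝ) (p : V → ℝ) : Prop :=
  InNorm M w p ∧ ∀ q, InNorm M w q → ∃ c : ℝ, ∀ v, q v ≤ c * p v

/-- `p` represents the minimal class of `Norm(V, w)`. -/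
def IsMinNorm (M : GKModule V) (w : G → ℝ) (p : V → ℝ) : Prop :=
  InNorm M w p ∧ ∀ q, InNorm M w q → ∃ c : ℝ, ∀ v, p v ≤ c * q v

end

/-! ### Lowest weight modules -/

/-- The data of a lowest weight module of `SU(1,1)`: `κ` the lowest weight (the basis vector `e_n`
has weight `κ + 2 n`), `r n` the coefficient of `e_(n+1)` and `l n` the coefficient of `e_(n-1)`. -/
structure Dat where
  /-- the lowest weight -/
  κ : ℤ
  /-- the raising coefficients -/
  r : ℕ → ℤ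
  /-- the lowering coefficients -/
  l : ℕ → ℤ

/-- The conditions on the data. -/
structure Dat.OK (D : Dat) : Prop where
  l0 : D.l 0 = 0
  rne : ∀ n, D.r n ≠ 0
  comm : ∀ n, D.r n * D.l (n + 1) - D.r (n - 1) * D.l n = D.κ + 2 * n

/-- The holomorphic discrete series of weight `k`. -/
def hol (k : ℕ) : Dat := ⟨k, fun n => k + n, fun n => n⟩

/-- The lowest weight Verma module of lowest weight `-2`: `e_3, e_4, ...` span a submodule isomorphic
to the holomorphic discrete series of weight `4`, the quotient is the adjoint representation. -/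
def ver : Dat := ⟨-2, fun n => n + 1, fun n => if n = 0 then 0 else (n : ℤ) - 3⟩

/-- The underlying space of the tensor products, with basis `ev n j = e_n ⊗ e_j`. -/
abbrev Sp : Type := (ℕ × ℕ) →₀ ℂ

/-- The basis vector `e_n ⊗ e_j`. -/
noncomputable def ev (n j : ℕ) : Sp := Finsupp.single (n, j) 1

/-- The action of `su(1,1)` on the first factor. -/
noncomputable def op1 (D : Dat) (X : su11) : Sp →ₗ[ℂ] Sp :=
  Finsupp.linearCombination ℂ fun p : ℕ × ℕ =>
    (-(X.1 0 0) * (D.κ + 2 * p.1)) • ev p.1 p.2 +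
    (D.r p.1 * starRingEnd ℂ (X.1 0 1)) • ev (p.1 + 1) p.2 -
    (D.l p.1 * X.1 0 1) • ev (p.1 - 1) p.2

/-- The action of `su(1,1)` on the second factor. -/
noncomputable def op2 (D : Dat) (X : su11) : Sp →ₗ[ℂ] Sp :=
  Finsupp.linearCombination ℂ fun p : ℕ × ℕ =>
    (-(X.1 0 0) * (D.κ + 2 * p.2)) • ev p.1 p.2 +
    (D.r p.2 * starRingEnd ℂ (X.1 0 1)) • ev p.1 (p.2 + 1) -
    (D.l p.2 * X.1 0 1) • ev p.1 (p.2 - 1)

/-- The action of `𝔤` on the tensor product. -/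
noncomputable def rhoP (D D' : Dat) (X : gLie) : Sp →ₗ[ℂ] Sp := op1 D X.1 + op2 D' X.2

/-- The action of `K` on the tensor product: an element with lower right entries `c`, `c'` acts on
`e_n ⊗ e_j` by `c^(κ + 2 n) c'^(κ' + 2 j)`. -/
noncomputable def kapP (D D' : Dat) (g : G) : Sp →ₗ[ℂ] Sp :=
  Finsupp.linearCombination ℂ fun p : ℕ × ℕ =>
    ((g.1.1.1 1 1) ^ (D.κ + 2 * p.1) * (g.2.1.1 1 1) ^ (D'.κ + 2 * p.2)) • ev p.1 p.2

theorem op1_ev (D : Dat) (X : su11) (n j : ℕ) :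
    op1 D X (ev n j) = (-(X.1 0 0) * (D.κ + 2 * n)) • ev n j +
      (D.r n * starRingEnd ℂ (X.1 0 1)) • ev (n + 1) j - (D.l n * X.1 0 1) • ev (n - 1) j := by
  unfold op1
  rw [ev, Finsupp.linearCombination_single, one_smul]
  rfl

theorem op2_ev (D : Dat) (X : su11) (n j : ℕ) :
    op2 D X (ev n j) = (-(X.1 0 0) * (D.κ + 2 * j)) • ev n j +
      (D.r j * starRingEnd ℂ (X.1 0 1)) • ev n (j + 1) - (D.l j * X.1 0 1) • ev n (j - 1) := by
  unfold op2
  rw [ev, Finsupp.linearCombination_single, one_smul]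
  rfl

theorem rhoP_ev (D D' : Dat) (X : gLie) (n j : ℕ) :
    rhoP D D' X (ev n j) =
      ((-(X.1.1 0 0) * (D.κ + 2 * n)) • ev n j +
        (D.r n * starRingEnd ℂ (X.1.1 0 1)) • ev (n + 1) j - (D.l n * X.1.1 0 1) • ev (n - 1) j) +
      ((-(X.2.1 0 0) * (D'.κ + 2 * j)) • ev n j +
        (D'.r j * starRingEnd ℂ (X.2.1 0 1)) • ev n (j + 1) -
        (D'.l j * X.2.1 0 1) • ev n (j - 1)) := by
  unfold rhoP
  rw [LinearMap.add_apply, op1_ev, op2_ev]

theorem kapP_ev (D D' : Dat) (g : G) (n j : ℕ) :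
    kapP D D' g (ev n j) =
      ((g.1.1.1 1 1) ^ (D.κ + 2 * n) * (g.2.1.1 1 1) ^ (D'.κ + 2 * j)) • ev n j := by
  unfold kapP
  rw [ev, Finsupp.linearCombination_single, one_smul]
  rfl

/-- Two linear maps which agree on the basis vectors are equal. -/
theorem ev_ext {M : Type*} [AddCommMonoid M] [Module ℂ M] {f g : Sp →ₗ[ℂ] M}
    (h : ∀ n j, f (ev n j) = g (ev n j)) : f = g := by
  refine Finsupp.lhom_ext fun p c => ?_
  obtain ⟨n, j⟩ := p
  have h3 : (Finsupp.single (n, j) c : Sp) = c • ev n j := by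
    unfold ev
    rw [Finsupp.smul_single, smul_eq_mul, mul_one]
  rw [h3, map_smul, map_smul, h]

/-- Induction over the basis vectors. -/
theorem ev_ind {P : Sp → Prop} (v : Sp) (h0 : P 0) (ha : ∀ v w, P v → P w → P (v + w))
    (hs : ∀ (c : ℂ) v, P v → P (c • v)) (he : ∀ n j, P (ev n j)) : P v := by
  induction v using Finsupp.induction_linear with
  | zero => exact h0
  | add v w hv hw => exact ha v w hv hw
  | single p c =>
    obtain ⟨n, j⟩ := p
    have h3 : (Finsupp.single (n, j) c : Sp) = c • ev n j := by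
      unfold ev
      rw [Finsupp.smul_single, smul_eq_mul, mul_one]
    rw [h3]
    exact hs _ _ (he n j)

theorem hol_OK {k : ℕ} (hk : 0 < k) : (hol k).OK := by
  refine ⟨rfl, fun n => ?_, fun n => ?_⟩
  · show (k:ℤ) + n ≠ 0
    omega
  · show ((k:ℤ) + n) * ((n + 1 : ℕ) : ℤ) - ((k:ℤ) + ((n - 1 : ℕ) : ℤ)) * (n:ℤ) = k + 2 * n
    rcases n with _ | n
    · simp
    · rw [Nat.add_sub_cancel]
      push_cast
      ring

theorem ver_OK : ver.OK := by
  refine ⟨rfl, fun n => ?_, fun n => ?_⟩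
  · show (n:ℤ) + 1 ≠ 0
    omega
  · rcases n with _ | n
    · simp [ver]
    · show ((n + 1 : ℕ) + 1 : ℤ) * (if n + 1 + 1 = 0 then 0 else ((n + 1 + 1 : ℕ) : ℤ) - 3) -
        (((n + 1 - 1 : ℕ) : ℤ) + 1) * (if n + 1 = 0 then 0 else ((n + 1 : ℕ) : ℤ) - 3) =
        -2 + 2 * ((n + 1 : ℕ) : ℤ)
      rw [if_neg (by omega), if_neg (by omega), Nat.add_sub_cancel]
      push_cast
      ring

end Pool.Agent.H40.SG
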