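import Pool.Agent.H40.SG.Ode

/-!
# Models of lowest weight modules in `C(DD, ℂ)`

`DD` is the closed unit disc, `den`, `num`, `mu`, `cfac` are those of `Pool/Agent/H60/Sob/Model.lean`
(for the group `SU(1,1) × ℝˣ`, so everything is used at `(g, 1)`). `Tf k α g` is the action of
`g ∈ SU(1,1)` on `C(DD, ℂ)`.
-/

set_option autoImplicit false

namespace Pool.Agent.H40.SG

open Complex Topology Filter
open Pool.Agent.H60.Sob (DD cfac mu den num cont_cfac cont_mu cfac_mul mu_mul cfac_one mu_one)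

/-- The element `(g, 1)` of the group `SU(1,1) × ℝˣ` used in `Pool/Agent/H60/Sob`. -/
def up (g : SU11) : Pool.Agent.H60.Sob.G := (g, 1)

theorem up_mul (g h : SU11) : up (g * h) = up g * up h := by
  unfold up
  rw [Prod.mk_mul_mk, one_mul]

theorem up_one : up 1 = 1 := rfl

theorem up_cont : Continuous up := by
  unfold up
  exact continuous_id.prodMk continuous_const

theorem up_exp {X : su11} {γ : ℝ → SU11} (h : IsExp1 X γ) :
    Pool.Agent.H60.Sob.IsExp (X, 0) (fun t => up (γ t)) := by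
  refine ⟨fun s t => ?_, h.2, ?_⟩
  · show up (γ (s + t)) = up (γ s) * up (γ t)
    rw [h.1 s t, up_mul]
  · exact hasDerivAt_const _ _

theorem Tf_cont_aux (k α : ℕ) (g : SU11) (f : C(DD, ℂ)) :
    Continuous fun Z : DD => cfac k α (up g) Z * f (mu (up g) Z) :=
  (cont_cfac k α continuous_const continuous_id).mul
    (f.continuous.comp (cont_mu continuous_const continuous_id))

/-- The action of `SU(1,1)` on continuous functions on the closed disc. -/
noncomputable def Tf (k α : ℕ) (g : SU11) (f : C(DD, ℂ)) : C(DD, ℂ) :=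
  ⟨fun Z => cfac k α (up g) Z * f (mu (up g) Z), Tf_cont_aux k α g f⟩

theorem Tf_apply (k α : ℕ) (g : SU11) (f : C(DD, ℂ)) (Z : DD) :
    Tf k α g f Z = cfac k α (up g) Z * f (mu (up g) Z) := rfl

/-- The functions `ψ n` model the basis vectors of the lowest weight module with data `D`, for the
action `Tf k α`. -/
structure Fam (D : Dat) (k α : ℕ) (ψ : ℕ → C(DD, ℂ)) : Prop where
  kap : ∀ g : SU11, g.1.1 0 1 = 0 → ∀ n : ℕ,
    Tf k α g (ψ n) = ((g.1.1 1 1) ^ (D.κ + 2 * n)) • ψ n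
  deriv : ∀ (X : su11) (γ : ℝ → SU11), IsExp1 X γ → ∀ n : ℕ,
    HasDerivAt (fun t => Tf k α (γ t) (ψ n))
      ((-(X.1 0 0) * (D.κ + 2 * n)) • ψ n + (D.r n * starRingEnd ℂ (X.1 0 1)) • ψ (n + 1) -
        (D.l n * X.1 0 1) • ψ (n - 1)) 0
  gen : ∀ g : SU11, Tf k α g (ψ 0) ∈ (Submodule.span ℂ (Set.range ψ)).topologicalClosure
  ne : ∀ n, ψ n ≠ 0

end Pool.Agent.H40.SG
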