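import Pool.Agent.H40.SG.Fam

/-!
# The model of the holomorphic discrete series

From `Pool/Agent/H60/Sob/Model2.lean` and `Model3.lean`: `PiFun_iot` (translate of `Wf^α Zf^n`),
`Ph_deriv`, `AA_closed`, `inv_mem`, `AA_le`, `piE_K`. With `L = ℂ`, `N = 0`, `x = 1` most lemmas there
apply directly.
-/

set_option autoImplicit false

namespace Pool.Agent.H40.SG

open Complex Topology Filter
open Pool.Agent.H60.Sob (DD cfac mu den num Zf Wf numf denf Ph)

/-- The translate of `Wf^α Zf^n`. -/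
theorem Tf_hol (k α n : ℕ) (g : SU11) :
    Tf k α g (Wf ^ α * Zf ^ n) = Ph k α n (up g) := by
  ext Z
  rw [Tf_apply]
  unfold Ph
  simp only [ContinuousMap.mul_apply, ContinuousMap.pow_apply, Pool.Agent.H60.Sob.Zf_apply,
    Pool.Agent.H60.Sob.numf_apply, Pool.Agent.H60.Sob.inv_apply, Pool.Agent.H60.Sob.mu_coe]
  rw [← Pool.Agent.H60.Sob.Wf_mu (up g) Z]
  unfold cfac
  have := Pool.Agent.H60.Sob.den_ne (up g) Z
  rw [mul_pow, inv_pow, pow_add, div_pow, pow_mul]
  push_cast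
  field_simp

private theorem famhol_kap (k α : ℕ) (g : SU11) (hg : g.1.1 0 1 = 0) (n : ℕ) :
    Tf k α g (Wf ^ α * Zf ^ n) = ((g.1.1 1 1) ^ (((k : ℕ) : ℤ) + 2 * (n : ℤ))) • (Wf ^ α * Zf ^ n) := by
  rw [Tf_hol]
  ext Z
  rw [ContinuousMap.smul_apply]
  unfold Ph
  simp only [ContinuousMap.mul_apply, ContinuousMap.pow_apply, Pool.Agent.H60.Sob.numf_apply,
    Pool.Agent.H60.Sob.inv_apply, Pool.Agent.H60.Sob.Zf_apply, smul_eq_mul]
  have hd : g.1.1 1 1 = starRingEnd ℂ (g.1.1 0 0) := g.2.2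
  have hu : g.1.1 0 0 * starRingEnd ℂ (g.1.1 0 0) = 1 := by
    have h := Pool.Agent.H60.Sob.SU_det (up g)
    have h2 : (up g).1.1.1 0 1 = 0 := hg
    rw [h2, map_zero, mul_zero, sub_zero] at h
    exact h
  unfold num den
  have hb' : (up g).1.1.1 0 1 = 0 := hg
  have ha' : (up g).1.1.1 0 0 = g.1.1 0 0 := rfl
  rw [hb', map_zero, zero_mul, sub_zero, sub_zero, ha', hd]
  set c := starRingEnd ℂ (g.1.1 0 0) with hc
  have hinv : (g.1.1 0 0)⁻¹ = c := inv_eq_of_mul_eq_one_right hu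
  rw [hinv]
  have e : (c ^ (((k : ℕ) : ℤ) + 2 * (n : ℤ)) : ℂ) = c ^ (k + 2 * n) := by
    rw [← zpow_natCast]
    push_cast
    rfl
  rw [e]
  ring

private theorem famhol_deriv (k α : ℕ) (X : su11) (γ : ℝ → SU11) (h : IsExp1 X γ) (n : ℕ) :
    HasDerivAt (fun t => Tf k α (γ t) (Wf ^ α * Zf ^ n))
      ((-(X.1 0 0) * ((k : ℂ) + 2 * n)) • (Wf ^ α * Zf ^ n) +
        (((k : ℂ) + n) * starRingEnd ℂ (X.1 0 1)) • (Wf ^ α * Zf ^ (n + 1)) -
        ((n : ℂ) * X.1 0 1) • (Wf ^ α * Zf ^ (n - 1))) 0 := by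
  have h1 := Pool.Agent.H60.Sob.Ph_deriv k α n (up_exp h)
  have e : (fun t => Tf k α (γ t) (Wf ^ α * Zf ^ n)) = fun t => Ph k α n (up (γ t)) := by
    funext t
    exact Tf_hol k α n (γ t)
  rw [e]
  refine h1.congr_deriv ?_
  have hXc : starRingEnd ℂ (X.1 0 0) = -X.1 0 0 := Pool.Agent.H60.Sob.gLie_conj (X, 0)
  ext Z
  simp only [ContinuousMap.mul_apply, ContinuousMap.sub_apply, ContinuousMap.smul_apply,
    ContinuousMap.add_apply, ContinuousMap.pow_apply, ContinuousMap.one_apply, smul_eq_mul, hXc]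
  rcases n with _ | n
  · simp only [Nat.cast_zero, pow_zero]
    push_cast
    ring
  · simp only [Nat.add_sub_cancel]
    push_cast
    ring

private theorem famhol_le (α : ℕ) {f : C(DD, ℂ)} (hf : f ∈ Pool.Agent.H60.Sob.AA) :
    Wf ^ α * f ∈
      (Submodule.span ℂ (Set.range fun n : ℕ => Wf ^ α * Zf ^ n)).topologicalClosure := by
  set S := (Submodule.span ℂ (Set.range fun n : ℕ => Wf ^ α * Zf ^ n)).topologicalClosure with hS
  have hScl : IsClosed (S : Set C(DD, ℂ)) := Submodule.isClosed_topologicalClosure _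
  have hcl : IsClosed {f : C(DD, ℂ) | Wf ^ α * f ∈ S} :=
    hScl.preimage (continuous_const.mul continuous_id)
  have h1 : ∀ f ∈ (Algebra.adjoin ℂ {Zf} : Subalgebra ℂ C(DD, ℂ)), Wf ^ α * f ∈ S := by
    intro f hf
    rw [Algebra.adjoin_singleton_eq_range_aeval] at hf
    obtain ⟨p, rfl⟩ := hf
    induction p using Polynomial.induction_on' with
    | add p q hp hq =>
      have : (Polynomial.aeval Zf).toRingHom (p + q) = (Polynomial.aeval Zf).toRingHom p +
        (Polynomial.aeval Zf).toRingHom q := map_add _ _ _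
      rw [this, mul_add]
      exact S.add_mem hp hq
    | monomial n a =>
      have : (Polynomial.aeval Zf).toRingHom (Polynomial.monomial n a) = a • Zf ^ n := by
        simp [Polynomial.aeval_monomial, Algebra.smul_def]
      rw [this, mul_smul_comm]
      exact S.smul_mem _ (Submodule.le_topologicalClosure _ (Submodule.subset_span ⟨n, rfl⟩))
  exact closure_minimal (s := ((Algebra.adjoin ℂ {Zf} : Subalgebra ℂ C(DD, ℂ)) : Set C(DD, ℂ)))
    h1 hcl hf

theorem fam_hol (k α : ℕ) : Fam (hol k) k α (fun n => Wf ^ α * Zf ^ n) := by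
  refine ⟨fun g hg n => ?_, fun X γ h n => ?_, fun g => ?_, fun n h0 => ?_⟩
  · exact famhol_kap k α g hg n
  · have h1 := famhol_deriv k α X γ h n
    refine h1.congr_deriv ?_
    simp only [hol]
    push_cast
    rfl
  · have h1 := famhol_le α (f := numf (up g) ^ 0 * (Ring.inverse (denf (up g))) ^ (k + 0))
      (Pool.Agent.H60.Sob.AA.mul_mem (Pool.Agent.H60.Sob.AA.pow_mem (Pool.Agent.H60.Sob.numf_mem _) _)
        (Pool.Agent.H60.Sob.AA.pow_mem (Pool.Agent.H60.Sob.inv_mem _) _))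
    rw [Tf_hol]
    exact h1
  · have h3 := congrArg (fun f : C(DD, ℂ) => f ⟨(1/2 : ℂ), by
      rw [Metric.mem_closedBall, dist_zero_right]; norm_num⟩) h0
    simp only [ContinuousMap.mul_apply, ContinuousMap.pow_apply, Pool.Agent.H60.Sob.Zf_apply,
      Pool.Agent.H60.Sob.Wf_apply, ContinuousMap.zero_apply] at h3
    rw [mul_eq_zero] at h3
    rcases h3 with h3 | h3
    · have h4 := eq_zero_of_pow_eq_zero h3
      have h5 : (1 - ‖(1/2 : ℂ)‖ ^ 2 : ℝ) = 0 := by exact_mod_cast h4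
      norm_num at h5
    · have h4 := eq_zero_of_pow_eq_zero h3
      norm_num at h4

end Pool.Agent.H40.SG
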