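import Pool.Agent.H40.SG.VerDefs

/-!
# The model of the Verma module: the derivative

See the explanation in `VerDefs.lean`. Write `q_j` for the translate of `chi j` as an expression in
`numf (up g)`, `denf (up g)`, `Ring.inverse (denf (up g))` and the conjugates of `numf`, `denf` (`star`), and
differentiate; `X 0 0` is purely imaginary (`l_conj`).
-/

set_option autoImplicit false

namespace Pool.Agent.H40.SG

open Complex Topology Filter
open Pool.Agent.H60.Sob (DD cfac mu den num Zf Wf numf denf Ph)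
open Pool.Agent.H60.Sob (numf_deriv denf_deriv inv_deriv Ph_deriv numf_apply denf_apply inv_apply
  den_ne mu_coe denf_one numf_one Zf_apply)

/-- the conjugate of the numerator -/
private noncomputable def nb (g : Pool.Agent.H60.Sob.G) : C(DD, ℂ) :=
  (g.1.1.1 0 0) • Zb - (starRingEnd ℂ (g.1.1.1 0 1)) • (1 : C(DD, ℂ))

/-- the conjugate of the denominator -/
private noncomputable def db (g : Pool.Agent.H60.Sob.G) : C(DD, ℂ) :=
  (starRingEnd ℂ (g.1.1.1 0 0)) • (1 : C(DD, ℂ)) - (g.1.1.1 0 1) • Zb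

private lemma nb_apply (g : Pool.Agent.H60.Sob.G) (Z : DD) :
    nb g Z = starRingEnd ℂ (num g Z) := by
  simp [nb, num, Zb_apply]

private lemma db_apply (g : Pool.Agent.H60.Sob.G) (Z : DD) :
    db g Z = starRingEnd ℂ (den g Z) := by
  simp [db, den, Zb_apply]

private lemma nb_deriv {X : Pool.Agent.H60.Sob.gLie} {γ : ℝ → Pool.Agent.H60.Sob.G}
    (h : Pool.Agent.H60.Sob.IsExp X γ) :
    HasDerivAt (fun t => nb (γ t))
      ((X.1.1 0 0) • Zb - (starRingEnd ℂ (X.1.1 0 1)) • (1 : C(DD, ℂ))) 0 := by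
  have h1 := (h.2.1 0 0).smul_const Zb
  have h2 := ((h.2.1 0 1).star).smul_const (1 : C(DD, ℂ))
  exact h1.sub h2

private lemma db_deriv {X : Pool.Agent.H60.Sob.gLie} {γ : ℝ → Pool.Agent.H60.Sob.G}
    (h : Pool.Agent.H60.Sob.IsExp X γ) :
    HasDerivAt (fun t => db (γ t))
      ((starRingEnd ℂ (X.1.1 0 0)) • (1 : C(DD, ℂ)) - (X.1.1 0 1) • Zb) 0 := by
  have h1 := (h.2.1 0 1).smul_const Zb
  have h2 := ((h.2.1 0 0).star).smul_const (1 : C(DD, ℂ))
  exact h2.sub h1

private lemma nb_one : nb 1 = Zb := by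
  unfold nb
  simp

private lemma db_one : db 1 = 1 := by
  unfold db
  simp

private lemma cf43 (g : Pool.Agent.H60.Sob.G) (Z : DD) :
    cfac 4 3 g Z = starRingEnd ℂ (den g Z) ^ 3 * (den g Z)⁻¹ := by
  unfold cfac
  have hd := den_ne g Z
  have h : ((‖den g Z‖ ^ (2 * 3) : ℝ) : ℂ) = (den g Z * starRingEnd ℂ (den g Z)) ^ 3 := by
    rw [Complex.mul_conj, Complex.normSq_eq_norm_sq]
    push_cast
    ring
  rw [h]
  field_simp

private lemma tf0 (g : SU11) :
    Tf 4 3 g (chi 0) = nb (up g) ^ 3 * Ring.inverse (denf (up g)) := by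
  ext Z
  rw [Tf_apply]
  have hd := den_ne (up g) Z
  have hdc : starRingEnd ℂ (den (up g) Z) ≠ 0 := by
    rwa [Ne, map_eq_zero]
  simp only [chi, ContinuousMap.mul_apply, ContinuousMap.pow_apply, Zb_apply, nb_apply, inv_apply,
    cf43, mu_coe, map_div₀]
  field_simp

private lemma tf1 (g : SU11) :
    Tf 4 3 g (chi 1) = nb (up g) ^ 3 * numf (up g) * Ring.inverse (denf (up g)) ^ 2 -
      (3:ℂ) • (nb (up g) ^ 2 * db (up g) * Ring.inverse (denf (up g))) := by
  ext Z
  rw [Tf_apply]
  have hd := den_ne (up g) Z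
  have hdc : starRingEnd ℂ (den (up g) Z) ≠ 0 := by
    rwa [Ne, map_eq_zero]
  simp only [chi, ContinuousMap.mul_apply, ContinuousMap.pow_apply, ContinuousMap.sub_apply,
    ContinuousMap.smul_apply, smul_eq_mul, Zb_apply, Zf_apply, nb_apply, db_apply, numf_apply,
    inv_apply, cf43, mu_coe, map_div₀]
  field_simp

private lemma tf2 (g : SU11) :
    Tf 4 3 g (chi 2) = nb (up g) ^ 3 * numf (up g) ^ 2 * Ring.inverse (denf (up g)) ^ 3 -
      (3:ℂ) • (nb (up g) ^ 2 * db (up g) * numf (up g) * Ring.inverse (denf (up g)) ^ 2) +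
      (3:ℂ) • (nb (up g) * db (up g) ^ 2 * Ring.inverse (denf (up g))) := by
  ext Z
  rw [Tf_apply]
  have hd := den_ne (up g) Z
  have hdc : starRingEnd ℂ (den (up g) Z) ≠ 0 := by
    rwa [Ne, map_eq_zero]
  simp only [chi, ContinuousMap.mul_apply, ContinuousMap.pow_apply, ContinuousMap.sub_apply,
    ContinuousMap.add_apply, ContinuousMap.smul_apply, smul_eq_mul, Zb_apply, Zf_apply, nb_apply,
    db_apply, numf_apply, inv_apply, cf43, mu_coe, map_div₀]
  field_simp

private lemma tf3 (i : ℕ) (g : SU11) : Tf 4 3 g (chi (i + 3)) = -Ph 4 3 i (up g) := by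
  rw [← Tf_hol]
  ext Z
  rw [Tf_apply, ContinuousMap.neg_apply, Tf_apply]
  simp only [chi, ContinuousMap.neg_apply, mul_neg]

theorem chi_deriv (X : su11) (γ : ℝ → SU11) (h : IsExp1 X γ) (n : ℕ) :
    HasDerivAt (fun t => Tf 4 3 (γ t) (chi n))
      ((-(X.1 0 0) * (ver.κ + 2 * n)) • chi n +
        (ver.r n * starRingEnd ℂ (X.1 0 1)) • chi (n + 1) -
        (ver.l n * X.1 0 1) • chi (n - 1)) 0 := by
  have H := up_exp h
  have h0 : up (γ 0) = 1 := Pool.Agent.H60.Sob.IsExp_zero H
  have en : numf (up (γ 0)) = Zf := by rw [h0, numf_one]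
  have ed : denf (up (γ 0)) = 1 := by rw [h0, denf_one]
  have enb : nb (up (γ 0)) = Zb := by rw [h0, nb_one]
  have edb : db (up (γ 0)) = 1 := by rw [h0, db_one]
  have hX := l_conj X
  rcases n with _ | _ | _ | i
  · have e : (fun t => Tf 4 3 (γ t) (chi 0)) =
        fun t => nb (up (γ t)) ^ 3 * Ring.inverse (denf (up (γ t))) := funext fun t => tf0 _
    rw [e]
    refine (((nb_deriv H).pow 3).mul (inv_deriv H)).congr_deriv ?_
    simp only [Pi.pow_apply, en, ed, enb, edb, Ring.inverse_one, one_pow, mul_one]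
    ext Z
    simp only [chi, ver, ContinuousMap.mul_apply, ContinuousMap.add_apply, ContinuousMap.sub_apply,
      ContinuousMap.smul_apply, ContinuousMap.pow_apply, ContinuousMap.natCast_apply,
      ContinuousMap.one_apply, ContinuousMap.neg_apply, smul_eq_mul, Zb_apply, Zf_apply]
    push_cast
    simp [chi, Zb_apply, Zf_apply]
    ring
  · have e : (fun t => Tf 4 3 (γ t) (chi (0 + 1))) =
        fun t => nb (up (γ t)) ^ 3 * numf (up (γ t)) * Ring.inverse (denf (up (γ t))) ^ 2 -
          (3:ℂ) • (nb (up (γ t)) ^ 2 * db (up (γ t)) * Ring.inverse (denf (up (γ t)))) :=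
      funext fun t => tf1 _
    rw [e]
    have h1 := (((nb_deriv H).pow 3).mul (numf_deriv H)).mul ((inv_deriv H).pow 2)
    have h2 := ((((nb_deriv H).pow 2).mul (db_deriv H)).mul (inv_deriv H)).const_smul (3:ℂ)
    refine (h1.sub h2).congr_deriv ?_
    simp only [Pi.pow_apply, Pi.mul_apply, en, ed, enb, edb, Ring.inverse_one, one_pow, mul_one]
    ext Z
    simp only [chi, ver, ContinuousMap.mul_apply, ContinuousMap.add_apply, ContinuousMap.sub_apply,
      ContinuousMap.smul_apply, ContinuousMap.pow_apply, ContinuousMap.natCast_apply,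
      ContinuousMap.one_apply, ContinuousMap.neg_apply, smul_eq_mul, Zb_apply, Zf_apply, hX]
    push_cast
    simp [chi, Zb_apply, Zf_apply]
    ring
  · have e : (fun t => Tf 4 3 (γ t) (chi (0 + 1 + 1))) =
        fun t => nb (up (γ t)) ^ 3 * numf (up (γ t)) ^ 2 * Ring.inverse (denf (up (γ t))) ^ 3 -
          (3:ℂ) • (nb (up (γ t)) ^ 2 * db (up (γ t)) * numf (up (γ t)) *
            Ring.inverse (denf (up (γ t))) ^ 2) +
          (3:ℂ) • (nb (up (γ t)) * db (up (γ t)) ^ 2 * Ring.inverse (denf (up (γ t)))) :=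
      funext fun t => tf2 _
    rw [e]
    have h1 := (((nb_deriv H).pow 3).mul ((numf_deriv H).pow 2)).mul ((inv_deriv H).pow 3)
    have h2 := (((((nb_deriv H).pow 2).mul (db_deriv H)).mul (numf_deriv H)).mul
      ((inv_deriv H).pow 2)).const_smul (3:ℂ)
    have h3 := (((nb_deriv H).mul ((db_deriv H).pow 2)).mul (inv_deriv H)).const_smul (3:ℂ)
    refine ((h1.sub h2).add h3).congr_deriv ?_
    simp only [Pi.pow_apply, Pi.mul_apply, en, ed, enb, edb, Ring.inverse_one, one_pow, mul_one]
    ext Z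
    have hc3 : (chi (0 + 1 + 1 + 1) : C(DD, ℂ)) = -(1 - Zf * Zb) ^ 3 := by
      show -(Wf ^ 3 * Zf ^ 0) = _
      rw [Wf_eq, pow_zero, mul_one]
    rw [hc3]
    simp only [chi, ver, ContinuousMap.mul_apply, ContinuousMap.add_apply, ContinuousMap.sub_apply,
      ContinuousMap.smul_apply, ContinuousMap.pow_apply, ContinuousMap.natCast_apply,
      ContinuousMap.one_apply, ContinuousMap.neg_apply, smul_eq_mul, Zb_apply, Zf_apply, hX]
    push_cast
    simp [chi, Zb_apply, Zf_apply]
    ring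
  · have e : (fun t => Tf 4 3 (γ t) (chi (i + 1 + 1 + 1))) = fun t => -Ph 4 3 i (up (γ t)) :=
      funext fun t => tf3 i _
    rw [e]
    refine ((Ph_deriv 4 3 i H).neg).congr_deriv ?_
    rcases i with _ | i
    · ext Z
      simp only [chi, ver, ContinuousMap.mul_apply, ContinuousMap.add_apply,
        ContinuousMap.sub_apply, ContinuousMap.smul_apply, ContinuousMap.pow_apply,
        ContinuousMap.natCast_apply, ContinuousMap.one_apply, ContinuousMap.neg_apply,
        smul_eq_mul, Zb_apply, Zf_apply, hX]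
      push_cast
      simp
      ring
    · ext Z
      simp only [chi, ver, ContinuousMap.mul_apply, ContinuousMap.add_apply,
        ContinuousMap.sub_apply, ContinuousMap.smul_apply, ContinuousMap.pow_apply,
        ContinuousMap.natCast_apply, ContinuousMap.one_apply, ContinuousMap.neg_apply,
        smul_eq_mul, Zb_apply, Zf_apply, hX]
      push_cast
      simp
      ring

end Pool.Agent.H40.SG
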