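import Pool.Agent.H40.SG.VerGen
import Pool.Agent.H40.SG.VerDeriv

/-!
# The model of the Verma module
-/

set_option autoImplicit false

namespace Pool.Agent.H40.SG

open Complex Topology Filter
open Pool.Agent.H60.Sob (DD cfac mu den num Zf Wf numf denf Ph)

theorem fam_ver : Fam ver 4 3 chi :=
  ⟨chi_kap, chi_deriv, chi_gen_mem, chi_ne⟩

end Pool.Agent.H40.SG
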