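import Pool.Agent.H40.SG.Glob

/-!
# `K`-finite vectors of a globalization

`mem_of_finite_orbit` of `Pool/Agent/H60/Sob/Circ.lean` uses its hypothesis `hW` only for the given
vector `e` (`orbit_sum` below). Twice: first for the second factor... For `e` with finite dimensional
span of its `K`-orbit: `proj` for the first circle; each component `proj_m e` has a finite dimensional
orbit under the second circle (it is the image of that of `e` under the continuous linear map
`proj_m`); then the components `pr2 m m' e` are in the range of `ι` by density (`Act.pr2_iota`,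
`Act.pr2_other`, the span of one vector is closed). Take care of the order in which `pr2` projects
(`Act.proj2_res1`, `Act.proj1_res2` : the two projections commute).
-/

set_option autoImplicit false

namespace Pool.Agent.H40.SG

open Complex Topology Filter
open Pool.Agent.H60.Sob (CircAct proj projL proj_mem proj_complete proj_proj)

section

variable {E : Type} [NormedAddCommGroup E] [NormedSpace ℂ E] [CompleteSpace E]

theorem orbit_sum {u : ℝ → E →L[ℂ] E} {C : ℝ} (h : CircAct u C) (W : Submodule ℂ E) (e : E)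
    (hW : ∀ m, proj u m e ∈ W)
    (hF : FiniteDimensional ℂ (Submodule.span ℂ (Set.range fun φ => u φ e))) : e ∈ W := by
  set F := Submodule.span ℂ (Set.range fun φ => u φ e) with hFdef
  have hcl : IsClosed (F : Set E) := F.closed_of_finiteDimensional
  have hmem : ∀ m, proj u m e ∈ F := fun m =>
    proj_mem h m e F hcl (fun φ => Submodule.subset_span ⟨φ, rfl⟩)
  let ι := {m : ℤ // proj u m e ≠ 0}
  have hli : LinearIndependent ℂ (fun m : ι => (⟨proj u m.1 e, hmem m.1⟩ : F)) := by
    rw [linearIndependent_iff']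
    intro s g hg j hj
    have h1 := congrArg (fun x : F => projL h j.1 (x : E)) hg
    simp only [Submodule.coe_sum, Submodule.coe_smul, map_sum, map_smul,
      Pool.Agent.H60.Sob.projL_apply, proj_proj h, ZeroMemClass.coe_zero, map_zero] at h1
    rw [Finset.sum_eq_single j] at h1
    · rw [if_pos rfl] at h1
      exact (smul_eq_zero.mp h1).resolve_right j.2
    · intro b _ hb
      rw [if_neg, smul_zero]
      intro hjb
      exact hb (Subtype.ext hjb.symm)
    · intro hj'
      exact absurd hj hj'
  have hfin : Finite ι := hli.finite_of_isNoetherian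
  have hfs : {m : ℤ | proj u m e ≠ 0}.Finite := Set.finite_coe_iff.mp hfin
  have h0 : e - ∑ m ∈ hfs.toFinset, proj u m e = 0 := by
    apply proj_complete h
    intro j
    have h1 : proj u j (e - ∑ m ∈ hfs.toFinset, proj u m e) =
        projL h j (e - ∑ m ∈ hfs.toFinset, proj u m e) := rfl
    rw [h1, map_sub, map_sum]
    simp only [Pool.Agent.H60.Sob.projL_apply, proj_proj h]
    by_cases hj : proj u j e = 0
    · rw [Finset.sum_eq_zero, hj, sub_zero]
      intro m hm
      split_ifs with hjm
      · rw [← hjm]; exact hj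
      · rfl
    · rw [Finset.sum_ite_eq, if_pos (hfs.mem_toFinset.mpr hj), sub_self]
  rw [sub_eq_zero.mp h0]
  exact W.sum_mem fun m _ => hW m

variable {D D' : Dat} {w : G → ℝ} {π : G →* (E →L[ℂ] E)} {ι : Sp →ₗ[ℂ] E} {C : ℝ}

theorem Act.pr2_range (h : Act D D' w π ι C) (hd : DenseRange ι) (m m' : ℤ) (e : E) :
    pr2 π m m' e ∈ LinearMap.range ι := by
  by_cases hm : ∃ n j : ℕ, (m, m') = (D.κ + 2 * n, D'.κ + 2 * j)
  · obtain ⟨n, j, hnj⟩ := hm
    obtain ⟨rfl, rfl⟩ := Prod.mk.inj hnj
    let W : Submodule ℂ E := Submodule.span ℂ {ι (ev n j)}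
    have hWc : IsClosed (W : Set E) := W.closed_of_finiteDimensional
    have h1 : IsClosed {e : E | pr2 π (D.κ + 2 * n) (D'.κ + 2 * j) e ∈ W} :=
      hWc.preimage (h.pr2_cont _ _)
    have h2 : pr2 π (D.κ + 2 * n) (D'.κ + 2 * j) e ∈ W := by
      refine hd.induction_on (p := fun e => pr2 π (D.κ + 2 * n) (D'.κ + 2 * j) e ∈ W) e h1 ?_
      intro v
      rw [h.pr2_iota]
      exact W.smul_mem _ (Submodule.mem_span_singleton_self _)
    obtain ⟨c, hc⟩ := Submodule.mem_span_singleton.mp h2
    exact ⟨c • ev n j, by rw [map_smul, hc]⟩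
  · push Not at hm
    have h1 : IsClosed {e : E | pr2 π m m' e = 0} :=
      isClosed_eq (h.pr2_cont _ _) continuous_const
    have h2 : pr2 π m m' e = 0 := by
      refine hd.induction_on (p := fun e => pr2 π m m' e = 0) e h1 ?_
      intro v
      exact h.pr2_other m m' hm v
    rw [h2]
    exact Submodule.zero_mem _

/-- The two projections commute. -/
private theorem Act.proj_comm (h : Act D D' w π ι C) (m m' : ℤ) (e : E) :
    proj (fun φ => res2 π (rt φ)) m' (proj (fun φ => res1 π (rt φ)) m e) = pr2 π m m' e := by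
  have h1 : proj (fun φ => res2 π (rt φ)) m' (proj (fun φ => res1 π (rt φ)) m e) =
      projL h.circ2 m' (proj (fun φ => res1 π (rt φ)) m e) := rfl
  rw [h1]
  unfold pr2
  conv_lhs => unfold proj
  conv_rhs => unfold proj
  rw [map_smul, ← (projL h.circ2 m').intervalIntegral_comp_comm
    ((h.circ1.cont' m e).intervalIntegrable _ _)]
  congr 2
  funext φ
  rw [map_smul]
  congr 1
  exact h.proj2_res1 m' (rt φ) e

private theorem mem_K1 (φ : ℝ) : ((rt φ, 1) : G) ∈ K := by
  rw [← rt_zero]
  exact ⟨rfl, rfl⟩

private theorem mem_K2 (φ : ℝ) : ((1, rt φ) : G) ∈ K := by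
  rw [← rt_zero]
  exact ⟨rfl, rfl⟩

theorem Act.fin_mem (h : Act D D' w π ι C) (hd : DenseRange ι) (e : E)
    (hF : FiniteDimensional ℂ (Submodule.span ℂ (Set.range fun k : K => π k e))) :
    e ∈ LinearMap.range ι := by
  have hF1 : FiniteDimensional ℂ (Submodule.span ℂ (Set.range fun φ => res1 π (rt φ) e)) := by
    refine Submodule.finiteDimensional_of_le (Submodule.span_mono ?_ :
      _ ≤ Submodule.span ℂ (Set.range fun k : K => π k e))
    rintro _ ⟨φ, rfl⟩
    exact ⟨⟨(rt φ, 1), mem_K1 φ⟩, rfl⟩
  have hF2 : FiniteDimensional ℂ (Submodule.span ℂ (Set.range fun φ => res2 π (rt φ) e)) := by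
    refine Submodule.finiteDimensional_of_le (Submodule.span_mono ?_ :
      _ ≤ Submodule.span ℂ (Set.range fun k : K => π k e))
    rintro _ ⟨φ, rfl⟩
    exact ⟨⟨(1, rt φ), mem_K2 φ⟩, rfl⟩
  refine orbit_sum h.circ1 _ e (fun m => ?_) hF1
  refine orbit_sum h.circ2 _ _ (fun m' => ?_) ?_
  · rw [h.proj_comm]
    exact h.pr2_range hd m m' e
  · have h1 : Submodule.span ℂ (Set.range fun φ =>
        res2 π (rt φ) (proj (fun φ => res1 π (rt φ)) m e)) =
        (Submodule.span ℂ (Set.range fun φ => res2 π (rt φ) e)).map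
          (projL h.circ1 m : E →L[ℂ] E).toLinearMap := by
      rw [Submodule.map_span, ← Set.range_comp]
      congr 2
      funext φ
      exact (h.proj1_res2 m (rt φ) e).symm
    rw [h1]
    infer_instance

theorem Act.mem_fin (h : Act D D' w π ι C) (v : Sp) :
    FiniteDimensional ℂ (Submodule.span ℂ (Set.range fun k : K => π k (ι v))) := by
  have h1 : Submodule.span ℂ (Set.range fun k : K => π k (ι v)) =
      (Submodule.span ℂ (Set.range fun g : K => kapP D D' g v)).map ι := by
    rw [Submodule.map_span, ← Set.range_comp]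
    congr 2
    funext k
    exact h.hK k v
  rw [h1]
  have := kapP_fin D D' v
  infer_instance

theorem Act.injective (h : Act D D' w π ι C) (hne : ∀ n j, ι (ev n j) ≠ 0) :
    Function.Injective ι := by
  rw [injective_iff_map_eq_zero]
  intro v hv
  ext ⟨n, j⟩
  have h1 := h.pr2_iota n j v
  rw [hv] at h1
  have h2 : pr2 π (D.κ + 2 * n) (D'.κ + 2 * j) (0 : E) = 0 := by
    have h3 := h.pr2_le (D.κ + 2 * n) (D'.κ + 2 * j) (0 : E)
    rw [norm_zero, mul_zero] at h3
    exact norm_le_zero_iff.mp h3
  rw [h2] at h1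
  exact (smul_eq_zero.mp h1.symm).resolve_right (hne n j)

end

end Pool.Agent.H40.SG
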