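import Pool.Agent.H40.SG.Wgt

/-!
# The Sobolev operators

Adapt `Pool/Agent/H60/Sob/Gap.lean` (`int_eq_of_exp`, `Dsob`, `Dsob_isSobolev`,
`isSobolev_single`, `sobc_lower`).
-/

set_option autoImplicit false

namespace Pool.Agent.H40.SG

open Complex Topology Filter

/-- The scalar by which `D_s` acts on `e_n ⊗ e_j`. -/
noncomputable def sobc (D D' : Dat) (s : ℝ) (n j : ℕ) : ℝ :=
  (1 + ((D.κ:ℝ) + 2 * n) ^ 2 + ((D'.κ:ℝ) + 2 * j) ^ 2) ^ (s / 2)

theorem sobc_pos (D D' : Dat) (s : ℝ) (n j : ℕ) : 0 < sobc D D' s n j :=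
  Real.rpow_pos_of_pos (by positivity) _

/-- The Sobolev operator. -/
noncomputable def Dsob (D D' : Dat) (s : ℝ) : Sp →ₗ[ℂ] Sp :=
  Finsupp.linearCombination ℂ fun p : ℕ × ℕ => ((sobc D D' s p.1 p.2 : ℝ) : ℂ) • ev p.1 p.2

theorem Dsob_ev (D D' : Dat) (s : ℝ) (n j : ℕ) :
    Dsob D D' s (ev n j) = ((sobc D D' s n j : ℝ) : ℂ) • ev n j := by
  unfold Dsob
  rw [ev, Finsupp.linearCombination_single, one_smul]
  rfl

theorem Dsob_apply (D D' : Dat) (s : ℝ) (v : Sp) (n j : ℕ) :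
    (Dsob D D' s v) (n, j) = ((sobc D D' s n j : ℝ) : ℂ) * v (n, j) := by
  refine ev_ind (P := fun v => (Dsob D D' s v) (n, j) = ((sobc D D' s n j : ℝ) : ℂ) * v (n, j)) v
    ?_ ?_ ?_ ?_
  · simp
  · intro v w hv hw
    rw [map_add, Finsupp.add_apply, hv, hw, Finsupp.add_apply, mul_add]
  · intro c v hv
    rw [map_smul, Finsupp.smul_apply, hv, Finsupp.smul_apply, smul_eq_mul, smul_eq_mul]
    ring
  · intro n' j'
    rw [Dsob_ev, Finsupp.smul_apply, ev, Finsupp.single_apply, smul_eq_mul]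
    split_ifs with h
    · rw [Prod.mk.injEq] at h
      rw [h.1, h.2]
    · simp

private lemma sobo_rot (D D' : Dat) (hD : D.OK) (hD' : D'.OK) (θ θ' : ℝ) (v : Sp) :
    (modP hD hD').κ (rot θ θ') v = kapP D D' ((rt θ, rt θ') : G) v := rfl

private lemma sobo_rt (θ : ℝ) : (rt θ).1.1 1 1 = exp (-(θ * I)) := rfl

private lemma sobo_exp (θ : ℝ) (k : ℤ) : exp (-(θ * I)) ^ k = exp (((-k : ℤ) : ℂ) * θ * I) := by
  rw [← Complex.exp_int_mul]
  congr 1
  push_cast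
  ring

theorem Dsob_isSobolev {D D' : Dat} (hD : D.OK) (hD' : D'.OK) (s : ℝ) :
    IsSobolev (modP hD hD') s (Dsob D D' s) := by
  intro m m' v hv
  ext ⟨n, j⟩
  rw [Dsob_apply, Finsupp.smul_apply, smul_eq_mul]
  by_cases hn : v (n, j) = 0
  · rw [hn, mul_zero, mul_zero]
  · have key : ∀ θ θ' : ℝ, exp (((-(D.κ + 2 * n) : ℤ) : ℂ) * θ * I) *
        exp (((-(D'.κ + 2 * j) : ℤ) : ℂ) * θ' * I) = exp ((m * θ + m' * θ') * I) := by
      intro θ θ'
      have h1 := hv θ θ'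
      rw [sobo_rot] at h1
      have h2 := congrArg (fun w : Sp => w (n, j)) h1
      simp only [kapP_apply, Finsupp.smul_apply, smul_eq_mul, sobo_rt, sobo_exp] at h2
      exact mul_right_cancel₀ hn h2
    have h1 : -(D.κ + 2 * (n : ℤ)) = m := by
      apply Pool.Agent.H60.Sob.int_eq_of_exp
      intro θ
      have := key θ 0
      simpa using this
    have h2 : -(D'.κ + 2 * (j : ℤ)) = m' := by
      apply Pool.Agent.H60.Sob.int_eq_of_exp
      intro θ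
      have := key 0 θ
      simpa using this
    congr 2
    unfold sobc
    rw [← h1, ← h2]
    congr 2
    · push_cast
      ring
    · push_cast
      ring

theorem isSobolev_ev {D D' : Dat} {hD : D.OK} {hD' : D'.OK} {s : ℝ} {S : Sp →ₗ[ℂ] Sp}
    (hS : IsSobolev (modP hD hD') s S) (n j : ℕ) :
    S (ev n j) = ((sobc D D' s n j : ℝ) : ℂ) • ev n j := by
  have h := hS (-(D.κ + 2 * n)) (-(D'.κ + 2 * j)) (ev n j) (by
    intro θ θ'
    rw [sobo_rot, kapP_ev]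
    congr 1
    simp only [sobo_rt, sobo_exp]
    rw [← Complex.exp_add]
    congr 1
    push_cast
    ring)
  rw [h]
  congr 2
  unfold sobc
  congr 2
  · push_cast
    ring
  · push_cast
    ring

/-- `((n + 2)^r (j + 2)^r' ≤ sobc (r + r')` for `D = hol (2 d)`, `d ≥ 2`, and `D' = ver` or
`hol 4`. -/
theorem sobc_lower {d : ℕ} (hd : 2 ≤ d) {D' : Dat} (hD' : D' = ver ∨ D' = hol 4) (r r' n j : ℕ) :
    ((n:ℝ) + 2) ^ r * ((j:ℝ) + 2) ^ r' ≤ sobc (hol (2 * d)) D' ((r + r' : ℕ) : ℝ) n j := by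
  unfold sobc
  set A : ℝ := 1 + (((hol (2 * d)).κ : ℝ) + 2 * n) ^ 2 + ((D'.κ : ℝ) + 2 * j) ^ 2 with hA
  have hn : (0:ℝ) ≤ n := Nat.cast_nonneg n
  have hj : (0:ℝ) ≤ j := Nat.cast_nonneg j
  have hd' : (2:ℝ) ≤ d := by exact_mod_cast hd
  have hk : (((hol (2 * d)).κ : ℤ) : ℝ) = 2 * d := by
    show (((2 * d : ℕ) : ℤ) : ℝ) = 2 * d
    push_cast
    ring
  rw [hk] at hA
  have hA1 : ((n:ℝ) + 2) ^ 2 ≤ A := by
    rw [hA]
    nlinarith [sq_nonneg ((D'.κ : ℝ) + 2 * j), mul_nonneg hn hn,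
      mul_nonneg hn (sub_nonneg.mpr hd'), mul_nonneg (sub_nonneg.mpr hd') (sub_nonneg.mpr hd')]
  have hA2 : ((j:ℝ) + 2) ^ 2 ≤ A := by
    rw [hA]
    have h16 : (16:ℝ) ≤ (2 * (d:ℝ) + 2 * n) ^ 2 := by nlinarith
    rcases hD' with h | h
    · have hk' : ((D'.κ : ℤ) : ℝ) = -2 := by rw [h]; show (((-2 : ℤ)) : ℝ) = -2; norm_num
      rw [hk']
      nlinarith [sq_nonneg ((j:ℝ) - 2)]
    · have hk' : ((D'.κ : ℤ) : ℝ) = 4 := by rw [h]; show (((4 : ℕ) : ℤ) : ℝ) = 4; norm_num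
      rw [hk']
      nlinarith
  have hA0 : 0 < A := lt_of_lt_of_le (by positivity) hA1
  have e : ∀ (x : ℝ) (q : ℕ), 0 < x → x ^ q = (x ^ 2) ^ ((q:ℝ) / 2) := by
    intro x q hx
    rw [← Real.rpow_natCast, ← Real.rpow_natCast, ← Real.rpow_mul hx.le]
    congr 1
    push_cast
    ring
  calc ((n:ℝ) + 2) ^ r * ((j:ℝ) + 2) ^ r'
      = (((n:ℝ) + 2) ^ 2) ^ ((r:ℝ) / 2) * (((j:ℝ) + 2) ^ 2) ^ ((r':ℝ) / 2) := by
        rw [← e _ r (by positivity), ← e _ r' (by positivity)]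
    _ ≤ A ^ ((r:ℝ) / 2) * A ^ ((r':ℝ) / 2) := by
        refine mul_le_mul ?_ ?_ (Real.rpow_nonneg (by positivity) _) (Real.rpow_nonneg hA0.le _)
        · exact Real.rpow_le_rpow (by positivity) hA1 (by positivity)
        · exact Real.rpow_le_rpow (by positivity) hA2 (by positivity)
    _ = A ^ (((r + r' : ℕ) : ℝ) / 2) := by
        rw [← Real.rpow_add hA0]
        congr 1
        push_cast
        ring

end Pool.Agent.H40.SG
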