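import Pool.Agent.H40.SG.BoundsU
import Pool.Agent.H40.SG.BoundsL
import Pool.Agent.H40.SG.Sobo

/-!
# Upper bounds for the Sobolev gap

Adapt `Pool/Agent/H60/Sob/Gap.lean` (`summable_sq`, `gap_upper`, `gapSet_U`,
`gapSet_V`): `‖ι v‖ ≤ Σ |v (n, j)| ‖ι (ev n j)‖` and `|v (n, j)| sobc n j ‖ι' (ev n j)‖ ≤ C^2 ‖ι' (Dsob v)‖`
by `Act.pr2_iota`, `Act.pr2_le`. `gapSet_U` : `r = d + 1`, `r' = 3`; `gapSet_V` : `r = 2 d + 1`, `r' = 3`;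
`exists_glob` with `wgt_rot`, `wgt_pos`.
-/

set_option autoImplicit false

namespace Pool.Agent.H40.SG

open Complex Topology Filter

private theorem summable_sq : Summable fun n : ℕ => 1 / ((n:ℝ) + 2) ^ 2 := by
  have h1 : Summable fun n : ℕ => 1 / ((n:ℝ)) ^ 2 := Real.summable_one_div_nat_pow.mpr (by norm_num)
  have h2 := (summable_nat_add_iff 2).mpr h1
  refine h2.congr (fun n => ?_)
  push_cast
  rfl

section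

variable {E : Type} [NormedAddCommGroup E] [NormedSpace ℂ E]
variable {E' : Type} [NormedAddCommGroup E'] [NormedSpace ℂ E'] [CompleteSpace E']
variable {D D' : Dat} {w : G → ℝ} {π' : G →* (E' →L[ℂ] E')}
  {ι : Sp →ₗ[ℂ] E} {ι' : Sp →ₗ[ℂ] E'} {C : ℝ}

theorem gap_upper (hD : D.OK) (hD' : D'.OK) (hE' : Glob D D' w π' ι' C) (r r' : ℕ)
    (hs : ∀ n j : ℕ, ((n:ℝ) + 2) ^ (r + 2) * ((j:ℝ) + 2) ^ (r' + 2) ≤
      sobc D D' ((r + r' + 4 : ℕ) : ℝ) n j) (A : ℝ) (hA0 : 0 ≤ A)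
    (hA : ∀ n j, ‖ι (ev n j)‖ ≤ A * ((n:ℝ) + 2) ^ r * ((j:ℝ) + 2) ^ r' * ‖ι' (ev n j)‖) :
    SobLe (modP hD hD') ((r + r' + 4 : ℕ) : ℝ) (fun v => ‖ι v‖) (fun v => ‖ι' v‖) := by
  have hsum : Summable fun p : ℕ × ℕ => 1 / ((p.1:ℝ) + 2) ^ 2 * (1 / ((p.2:ℝ) + 2) ^ 2) :=
    summable_sq.mul_of_nonneg summable_sq (fun n => by positivity) (fun n => by positivity)
  refine ⟨Dsob D D' ((r + r' + 4 : ℕ) : ℝ), Dsob_isSobolev hD hD' _,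
    A * C ^ 2 * ∑' p : ℕ × ℕ, 1 / ((p.1:ℝ) + 2) ^ 2 * (1 / ((p.2:ℝ) + 2) ^ 2), fun v => ?_⟩
  set Q : ℝ := ‖ι' (Dsob D D' ((r + r' + 4 : ℕ) : ℝ) v)‖ with hQ
  have hQ0 : 0 ≤ Q := norm_nonneg _
  have h1 : ∀ p : ℕ × ℕ, ‖v p • ι (ev p.1 p.2)‖ ≤
      A * C ^ 2 * Q * (1 / ((p.1:ℝ) + 2) ^ 2 * (1 / ((p.2:ℝ) + 2) ^ 2)) := by
    rintro ⟨n, j⟩
    dsimp only
    have h2 := hE'.toAct.pr2_le (D.κ + 2 * n) (D'.κ + 2 * j)
      (ι' (Dsob D D' ((r + r' + 4 : ℕ) : ℝ) v))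
    rw [hE'.toAct.pr2_iota, Dsob_apply, norm_smul, norm_mul, Complex.norm_real,
      Real.norm_of_nonneg (sobc_pos _ _ _ _ _).le] at h2
    have h3 := hs n j
    have h4 : ((n:ℝ) + 2) ^ (r + 2) * ((j:ℝ) + 2) ^ (r' + 2) * (‖v (n, j)‖ * ‖ι' (ev n j)‖) ≤
        C ^ 2 * Q := by
      refine le_trans ?_ h2
      rw [mul_assoc (sobc D D' ((r + r' + 4 : ℕ) : ℝ) n j)]
      gcongr
    have hn : 0 < ((n:ℝ) + 2) := by positivity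
    have hj : 0 < ((j:ℝ) + 2) := by positivity
    rw [norm_smul]
    calc ‖v (n, j)‖ * ‖ι (ev n j)‖ ≤
          ‖v (n, j)‖ * (A * ((n:ℝ) + 2) ^ r * ((j:ℝ) + 2) ^ r' * ‖ι' (ev n j)‖) := by
          gcongr
          exact hA n j
      _ = A * (((n:ℝ) + 2) ^ (r + 2) * ((j:ℝ) + 2) ^ (r' + 2) * (‖v (n, j)‖ * ‖ι' (ev n j)‖)) *
          (1 / ((n:ℝ) + 2) ^ 2 * (1 / ((j:ℝ) + 2) ^ 2)) := by
          rw [pow_add, pow_add]; field_simp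
      _ ≤ A * (C ^ 2 * Q) * (1 / ((n:ℝ) + 2) ^ 2 * (1 / ((j:ℝ) + 2) ^ 2)) := by gcongr
      _ = _ := by ring
  have h2 : ι v = ∑ p ∈ v.support, v p • ι (ev p.1 p.2) := by
    conv_lhs => rw [← v.sum_single]
    rw [Finsupp.sum, map_sum]
    refine Finset.sum_congr rfl fun p _ => ?_
    rw [← map_smul]
    congr 1
    unfold ev
    rw [Finsupp.smul_single, smul_eq_mul, mul_one]
  show ‖ι v‖ ≤ _
  calc ‖ι v‖ ≤ ∑ p ∈ v.support, ‖v p • ι (ev p.1 p.2)‖ := by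
        rw [h2]
        exact norm_sum_le _ _
    _ ≤ ∑ p ∈ v.support, A * C ^ 2 * Q * (1 / ((p.1:ℝ) + 2) ^ 2 * (1 / ((p.2:ℝ) + 2) ^ 2)) :=
        Finset.sum_le_sum fun p _ => h1 p
    _ = A * C ^ 2 * Q * ∑ p ∈ v.support, (1 / ((p.1:ℝ) + 2) ^ 2 * (1 / ((p.2:ℝ) + 2) ^ 2)) := by
        rw [Finset.mul_sum]
    _ ≤ A * C ^ 2 * Q * ∑' p : ℕ × ℕ, 1 / ((p.1:ℝ) + 2) ^ 2 * (1 / ((p.2:ℝ) + 2) ^ 2) := by
        gcongr
        exact hsum.sum_le_tsum _ (fun n _ => by positivity)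
    _ = _ := by ring

end

/-- `d + 8` belongs to the set defining the gap of `U`. -/
theorem gapSet_U {d : ℕ} (hd : 2 ≤ d) :
    ((d + 8 : ℕ) : ℝ) ∈ gapSet (modP (hol_OK (k := 2 * d) (by omega)) ver_OK) (wgt d) := by
  refine ⟨by positivity, fun p q hp hq => ?_⟩
  obtain ⟨E, i1, i2, i3, π, ι, C, h1, h2⟩ := exists_glob (wgt_rot d) (wgt_pos d) hp
  obtain ⟨E', i1', i2', i3', π', ι', C', h1', h2'⟩ := exists_glob (wgt_rot d) (wgt_pos d) hq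
  obtain ⟨A1, hA1, hu⟩ := upper_U h1 (by omega)
  obtain ⟨A2, hA2, hl⟩ := lower_U h1' (by omega)
  have hA : ∀ n j, ‖ι (ev n j)‖ ≤
      A1 * A2 * ((n:ℝ) + 2) ^ (d + 1) * ((j:ℝ) + 2) ^ 3 * ‖ι' (ev n j)‖ := by
    intro n j
    have a1 := hu n j
    have a2 := hl n j
    have hn : 0 < ((n:ℝ) + 2) ^ d := by positivity
    refine le_of_mul_le_mul_left ?_ hn
    calc ((n:ℝ) + 2) ^ d * ‖ι (ev n j)‖ ≤ A1 * ((n:ℝ) + 2) * 1 := by linarith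
      _ ≤ A1 * ((n:ℝ) + 2) * (A2 * ((n:ℝ) + 2) ^ (2 * d) * ((j:ℝ) + 2) ^ 3 * ‖ι' (ev n j)‖) := by
          gcongr
      _ = _ := by
          rw [two_mul, pow_add, pow_succ]
          ring
  have hs : ∀ n j : ℕ, ((n:ℝ) + 2) ^ (d + 1 + 2) * ((j:ℝ) + 2) ^ (3 + 2) ≤
      sobc (hol (2 * d)) ver ((d + 1 + 3 + 4 : ℕ) : ℝ) n j := by
    intro n j
    have e : d + 1 + 3 + 4 = (d + 1 + 2) + (3 + 2) := by omega
    rw [e]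
    exact sobc_lower hd (Or.inl rfl) _ _ n j
  have e : d + 8 = d + 1 + 3 + 4 := by omega
  rw [e]
  obtain ⟨S, hS, c, hc⟩ := gap_upper (ι := ι) (hol_OK (k := 2 * d) (by omega)) ver_OK h1' (d + 1) 3 hs
    (A1 * A2) (by positivity) hA
  refine ⟨S, hS, c, fun v => ?_⟩
  rw [h2, h2']
  exact hc v

/-- `2 d + 8` belongs to the set defining the gap of `V`. -/
theorem gapSet_V {d : ℕ} (hd : 2 ≤ d) :
    ((2 * d + 8 : ℕ) : ℝ) ∈ gapSet (modP (hol_OK (k := 2 * d) (by omega))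
      (hol_OK (k := 4) (by omega))) (wgt d) := by
  refine ⟨by positivity, fun p q hp hq => ?_⟩
  obtain ⟨E, i1, i2, i3, π, ι, C, h1, h2⟩ := exists_glob (wgt_rot d) (wgt_pos d) hp
  obtain ⟨E', i1', i2', i3', π', ι', C', h1', h2'⟩ := exists_glob (wgt_rot d) (wgt_pos d) hq
  obtain ⟨A1, hA1, hu⟩ := upper_V h1 (by omega)
  obtain ⟨A2, hA2, hl⟩ := lower_V h1' (by omega)
  have hA : ∀ n j, ‖ι (ev n j)‖ ≤
      A1 * A2 * ((n:ℝ) + 2) ^ (2 * d + 1) * ((j:ℝ) + 2) ^ 3 * ‖ι' (ev n j)‖ := by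
    intro n j
    have a1 := hu n j
    have a2 := hl n j
    calc ‖ι (ev n j)‖ ≤ A1 * ((n:ℝ) + 2) * 1 := by linarith
      _ ≤ A1 * ((n:ℝ) + 2) * (A2 * ((n:ℝ) + 2) ^ (2 * d) * ((j:ℝ) + 2) ^ 3 * ‖ι' (ev n j)‖) := by
          gcongr
      _ = _ := by
          rw [pow_succ]
          ring
  have hs : ∀ n j : ℕ, ((n:ℝ) + 2) ^ (2 * d + 1 + 2) * ((j:ℝ) + 2) ^ (3 + 2) ≤
      sobc (hol (2 * d)) (hol 4) ((2 * d + 1 + 3 + 4 : ℕ) : ℝ) n j := by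
    intro n j
    have e : 2 * d + 1 + 3 + 4 = (2 * d + 1 + 2) + (3 + 2) := by omega
    rw [e]
    exact sobc_lower hd (Or.inr rfl) _ _ n j
  have e : 2 * d + 8 = 2 * d + 1 + 3 + 4 := by omega
  rw [e]
  obtain ⟨S, hS, c, hc⟩ := gap_upper (ι := ι) (hol_OK (k := 2 * d) (by omega))
    (hol_OK (k := 4) (by omega)) h1' (2 * d + 1) 3 hs (A1 * A2) (by positivity) hA
  refine ⟨S, hS, c, fun v => ?_⟩
  rw [h2, h2']
  exact hc v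

end Pool.Agent.H40.SG
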