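import Pool.Agent.H40.SG.Norms
import Pool.Agent.H40.SG.Gap

/-!
# The lower bound for the gap of `V`

Adapt `Pool/Agent/H60/Sob/Final.lean` (`choose_lower'`, `lower_V`), with `isSobolev_ev`, `p_lower`,
`q_upper` at the vectors `ev (2 N) 0`.
-/

set_option autoImplicit false

namespace Pool.Agent.H40.SG

open Complex Topology Filter
open Pool.Agent.H60.Sob (DD Zf Wf)

private theorem choose_low (d N : ℕ) :
    ((N:ℝ) + 1) ^ (2 * d) ≤ ((2 * d).factorial : ℝ) * ((N + 2 * d).choose (2 * d) : ℝ) := by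
  have h2 := Nat.pow_succ_le_ascFactorial (N + 1) (2 * d)
  have h3 := Nat.ascFactorial_eq_factorial_mul_choose N (2 * d)
  rw [h3] at h2
  exact_mod_cast h2

/-- Every `s` for which the two norms compare is at least `2 d`. -/
theorem gap_lower_V {d : ℕ} (hd : 0 < d) {s : ℝ} (hs : 0 ≤ s)
    (h : SobLe (modP (hol_OK (k := 2 * d) (by omega)) (hol_OK (k := 4) (by omega))) s
      (fun v => ‖io (fh 0) (fh 2) v‖) (fun v => ‖io (fh (2 * d)) (fh 2) v‖)) :
    ((2 * d : ℕ) : ℝ) ≤ s := by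
  obtain ⟨D, hD, c, hc⟩ := h
  obtain ⟨c0, hc0, hp⟩ := p_lower
  by_contra hlt
  push Not at hlt
  set K0 : ℝ := |c| * ((2 * d).factorial : ℝ) * ((2 * d + 9 : ℕ) : ℝ) ^ s / c0 with hK0
  have h1 : ∀ N : ℕ, ((N:ℝ) + 1) ^ (((2 * d : ℕ) : ℝ) - s) ≤ K0 := by
    intro N
    have h2 := hc (ev (2 * N) 0)
    simp only at h2
    set S : ℝ := sobc (hol (2 * d)) (hol 4) s (2 * N) 0 with hSdef
    have hS0 : 0 ≤ S := (sobc_pos _ _ _ _ _).le
    rw [isSobolev_ev hD, map_smul, norm_smul, Complex.norm_real, Real.norm_of_nonneg hS0] at h2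
    have h3 := (hp (2 * N)).trans h2
    have h4 := q_upper d N
    have h5 := choose_low d N
    set q := ‖io (fh (2 * d)) (fh 2) (ev (2 * N) 0)‖ with hq
    have hq0 : 0 ≤ q := norm_nonneg _
    set B : ℝ := ((N + 2 * d).choose (2 * d) : ℝ) with hB
    have hB0 : 0 ≤ B := by positivity
    set F : ℝ := ((2 * d).factorial : ℝ) with hF
    have hF0 : 0 ≤ F := by positivity
    have h6 : S ≤ ((2 * d + 9 : ℕ) : ℝ) ^ s * ((N:ℝ) + 1) ^ s := by
      rw [hSdef]
      unfold sobc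
      rw [← Real.mul_rpow (by positivity) (by positivity)]
      have h7 : (1 + (((hol (2 * d)).κ : ℝ) + 2 * ((2 * N : ℕ) : ℝ)) ^ 2 +
          (((hol 4).κ : ℝ) + 2 * ((0 : ℕ) : ℝ)) ^ 2) ≤
          (((2 * d + 9 : ℕ) : ℝ) * ((N:ℝ) + 1)) ^ 2 := by
        have e1 : ((hol (2 * d)).κ : ℝ) = 2 * (d : ℝ) := by
          show (((2 * d : ℕ) : ℤ) : ℝ) = 2 * (d : ℝ)
          push_cast; ring
        have e2 : ((hol 4).κ : ℝ) = 4 := by
          show (((4 : ℕ) : ℤ) : ℝ) = 4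
          norm_num
        rw [e1, e2]
        push_cast
        have hd0 : (0:ℝ) ≤ d := Nat.cast_nonneg d
        have hN0 : (0:ℝ) ≤ N := Nat.cast_nonneg N
        nlinarith [mul_nonneg hd0 hN0, mul_nonneg hN0 hN0, mul_nonneg hd0 hd0,
          mul_nonneg hN0 (mul_nonneg hd0 hN0), mul_nonneg hd0 (mul_nonneg hd0 hN0),
          mul_nonneg (mul_nonneg hd0 hN0) (mul_nonneg hd0 hN0)]
      calc _ ≤ ((((2 * d + 9 : ℕ) : ℝ) * ((N:ℝ) + 1)) ^ 2) ^ (s / 2) :=
            Real.rpow_le_rpow (by positivity) h7 (by positivity)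
        _ = (((2 * d + 9 : ℕ) : ℝ) * ((N:ℝ) + 1)) ^ s := by
            rw [← Real.rpow_natCast, ← Real.rpow_mul (by positivity)]
            congr 1
            push_cast
            ring
    have h8 : c0 ≤ |c| * (S * q) := by
      refine h3.trans ?_
      gcongr
      exact le_abs_self c
    have h9 : ((N:ℝ) + 1) ^ (2 * d) ≤ K0 * ((N:ℝ) + 1) ^ s := by
      have h10 : ((N:ℝ) + 1) ^ (2 * d) * c0 ≤
          (|c| * F * ((2 * d + 9 : ℕ) : ℝ) ^ s) * ((N:ℝ) + 1) ^ s := by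
        calc ((N:ℝ) + 1) ^ (2 * d) * c0 ≤ F * B * c0 := by gcongr
          _ ≤ F * B * (|c| * (S * q)) := by gcongr
          _ = F * |c| * S * (B * q) := by ring
          _ ≤ F * |c| * S * 1 := by gcongr
          _ ≤ F * |c| * (((2 * d + 9 : ℕ) : ℝ) ^ s * ((N:ℝ) + 1) ^ s) * 1 := by gcongr
          _ = _ := by ring
      rw [hK0, div_mul_eq_mul_div, le_div_iff₀ hc0]
      exact h10
    rw [Real.rpow_sub (by positivity), Real.rpow_natCast, div_le_iff₀ (by positivity)]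
    exact h9
  have h2 : Tendsto (fun N : ℕ => ((N:ℝ) + 1) ^ (((2 * d : ℕ) : ℝ) - s)) atTop atTop :=
    (tendsto_rpow_atTop (by linarith)).comp
      (tendsto_atTop_add_const_right _ _ tendsto_natCast_atTop_atTop)
  obtain ⟨N, hN⟩ := (h2.eventually (eventually_gt_atTop K0)).exists
  exact absurd (h1 N) (not_le.mpr hN)

end Pool.Agent.H40.SG
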