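import Pool.Agent.H40.SG.Ode

/-!
# Globalizations of `modP D D'`: the components

Adapt `Pool/Agent/H60/Sob/Glob.lean` and `Circ.lean`. `pr2 π m m'` is the projection to the vectors of
weight `(m, m')`.
-/

set_option autoImplicit false

namespace Pool.Agent.H40.SG

open Complex Topology Filter
open Pool.Agent.H60.Sob (CircAct proj projL)

section

variable {E : Type} [NormedAddCommGroup E] [NormedSpace ℂ E]

/-- The restriction of a representation of `G` to the first factor. -/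
def res1 (π : G →* (E →L[ℂ] E)) : SU11 →* (E →L[ℂ] E) := π.comp (MonoidHom.inl SU11 SU11)

/-- The restriction of a representation of `G` to the second factor. -/
def res2 (π : G →* (E →L[ℂ] E)) : SU11 →* (E →L[ℂ] E) := π.comp (MonoidHom.inr SU11 SU11)

theorem res1_apply (π : G →* (E →L[ℂ] E)) (g : SU11) : res1 π g = π (g, 1) := rfl
theorem res2_apply (π : G →* (E →L[ℂ] E)) (g : SU11) : res2 π g = π (1, g) := rfl

theorem res_mul (π : G →* (E →L[ℂ] E)) (g h : SU11) (e : E) :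
    π (g, h) e = res1 π g (res2 π h e) := by
  have h1 : ((g, h) : G) = (g, 1) * (1, h) := by
    rw [Prod.mk_mul_mk, mul_one, one_mul]
  rw [h1, map_mul]
  rfl

theorem res_comm (π : G →* (E →L[ℂ] E)) (g h : SU11) (e : E) :
    res1 π g (res2 π h e) = res2 π h (res1 π g e) := by
  have h1 : ((g, 1) : G) * (1, h) = (1, h) * (g, 1) := by
    rw [Prod.mk_mul_mk, Prod.mk_mul_mk, mul_one, one_mul, one_mul, mul_one]
  have h2 : π ((g, 1) * (1, h)) e = π ((1, h) * (g, 1)) e := by rw [h1]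
  rw [map_mul, map_mul] at h2
  exact h2

/-- The projection to the vectors of weight `(m, m')`. -/
noncomputable def pr2 (π : G →* (E →L[ℂ] E)) (m m' : ℤ) (e : E) : E :=
  proj (fun φ => res1 π (rt φ)) m (proj (fun φ => res2 π (rt φ)) m' e)

/-- A Banach space with a continuous action of `G` of growth at most `C w`, into which `modP D D'`
is mapped. -/
structure Act (D D' : Dat) (w : G → ℝ) (π : G →* (E →L[ℂ] E)) (ι : Sp →ₗ[ℂ] E) (C : ℝ) :
    Prop where
  cont : Continuous (fun x : G × E => π x.1 x.2)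
  hK : ∀ (g : K) v, π g (ι v) = ι (kapP D D' g v)
  deriv : ∀ (X : gLie) (γ : ℝ → G), IsExp X γ → ∀ v,
      HasDerivAt (fun t => π (γ t) (ι v)) (ι (rhoP D D' X v)) 0
  bd : ∀ g, ‖π g‖ ≤ C * w g
  wrot : ∀ φ ψ, w (rt φ, rt ψ) ≤ 1
  wpos : ∀ g, 0 < w g

/-- The weight `w` is at most one on `K`, and `Act` with an injective map with dense range is a
globalization. -/
structure Glob (D D' : Dat) (w : G → ℝ) (π : G →* (E →L[ℂ] E)) (ι : Sp →ₗ[ℂ] E) (C : ℝ) :
    Prop extends Act D D' w π ι C where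
  inj : Function.Injective ι
  dense : DenseRange ι

variable {D D' : Dat} {w : G → ℝ} {π : G →* (E →L[ℂ] E)} {ι : Sp →ₗ[ℂ] E} {C : ℝ}

theorem Act.C_nonneg (h : Act D D' w π ι C) : 0 ≤ C := by
  have h1 := h.bd 1
  have h2 : 0 ≤ C * w 1 := (norm_nonneg _).trans h1
  exact nonneg_of_mul_nonneg_left h2 (h.wpos 1)

private theorem isExp1_one : IsExp1 (0 : su11) (fun _ => (1 : SU11)) := by
  constructor
  · intro s t
    exact (mul_one (1 : SU11)).symm
  · intro i j
    exact hasDerivAt_const (0 : ℝ) _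

private theorem rt_pow (φ : ℝ) (z : ℤ) : ((rt φ).1.1 1 1) ^ z = exp (-((z : ℂ) * φ * I)) := by
  rw [rt_11, ← Complex.exp_int_mul]
  congr 1
  ring

private theorem one_11 : ((1 : SU11).1.1 1 1 : ℂ) = 1 := rfl

private theorem wle1 (h : Act D D' w π ι C) (φ ψ : ℝ) : ‖π (rt φ, rt ψ)‖ ≤ C := by
  refine (h.bd _).trans ?_
  have h1 := mul_le_mul_of_nonneg_left (h.wrot φ ψ) h.C_nonneg
  rwa [mul_one] at h1

private theorem kact (h : Act D D' w π ι C) (φ ψ : ℝ) (n j : ℕ) :
    π (rt φ, rt ψ) (ι (ev n j)) =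
      (exp (-(((D.κ + 2 * n : ℤ) : ℂ) * φ * I)) * exp (-(((D'.κ + 2 * j : ℤ) : ℂ) * ψ * I))) •
        ι (ev n j) := by
  have h1 := h.hK (rot φ ψ) (ev n j)
  rw [kapP_ev, map_smul] at h1
  have h2 : ((rot φ ψ : K) : G) = (rt φ, rt ψ) := rfl
  rw [h2] at h1
  rw [h1]
  show (((rt φ).1.1 1 1) ^ (D.κ + 2 * (n:ℤ)) * ((rt ψ).1.1 1 1) ^ (D'.κ + 2 * (j:ℤ))) • ι (ev n j) = _
  rw [rt_pow, rt_pow]

theorem Act.rp1 (h : Act D D' w π ι C) (j : ℕ) : Rp D (res1 π) (fun n => ι (ev n j)) C where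
  cont := by
    have h1 : Continuous (fun x : SU11 × E => (((x.1, 1), x.2) : G × E)) :=
      (continuous_fst.prodMk continuous_const).prodMk continuous_snd
    exact h.cont.comp h1
  bd := by
    intro φ
    have h1 := wle1 h φ 0
    rw [rt_zero] at h1
    exact h1
  wt := by
    intro φ n
    have h1 := kact h φ 0 n j
    rw [rt_zero, Complex.ofReal_zero, mul_zero, zero_mul, neg_zero, Complex.exp_zero, mul_one] at h1
    exact h1
  deriv := by
    intro X γ hγ n
    have h1 := h.deriv (X, 0) (fun t => (γ t, 1)) ⟨hγ, isExp1_one⟩ (ev n j)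
    refine h1.congr_deriv ?_
    rw [rhoP_ev]
    have h2 : ∀ i k, ((((X, 0) : gLie).2).1 i k : ℂ) = 0 := fun i k => rfl
    rw [h2, h2]
    simp only [neg_zero, zero_mul, map_zero, mul_zero, zero_smul, add_zero, sub_zero, map_add,
      map_sub, map_smul]

theorem Act.rp2 (h : Act D D' w π ι C) (n : ℕ) : Rp D' (res2 π) (fun j => ι (ev n j)) C where
  cont := by
    have h1 : Continuous (fun x : SU11 × E => (((1, x.1), x.2) : G × E)) :=
      (continuous_const.prodMk continuous_fst).prodMk continuous_snd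
    exact h.cont.comp h1
  bd := by
    intro φ
    have h1 := wle1 h 0 φ
    rw [rt_zero] at h1
    exact h1
  wt := by
    intro φ j
    have h1 := kact h 0 φ n j
    rw [rt_zero, Complex.ofReal_zero, mul_zero, zero_mul, neg_zero, Complex.exp_zero, one_mul] at h1
    exact h1
  deriv := by
    intro X γ hγ j
    have h1 := h.deriv (0, X) (fun t => (1, γ t)) ⟨isExp1_one, hγ⟩ (ev n j)
    refine h1.congr_deriv ?_
    rw [rhoP_ev]
    have h2 : ∀ i k, ((((0, X) : gLie).1).1 i k : ℂ) = 0 := fun i k => rfl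
    rw [h2, h2]
    simp only [neg_zero, zero_mul, map_zero, mul_zero, zero_smul, add_zero, sub_zero, map_add,
      map_sub, map_smul, zero_add]

theorem Act.circ1 (h : Act D D' w π ι C) : CircAct (fun φ => res1 π (rt φ)) C :=
  (h.rp1 0).circ

theorem Act.circ2 (h : Act D D' w π ι C) : CircAct (fun φ => res2 π (rt φ)) C :=
  (h.rp2 0).circ

variable [CompleteSpace E]

/-- The projection for the second factor commutes with the first factor. -/
theorem Act.proj2_res1 (h : Act D D' w π ι C) (m : ℤ) (g : SU11) (e : E) :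
    proj (fun φ => res2 π (rt φ)) m (res1 π g e) =
      res1 π g (proj (fun φ => res2 π (rt φ)) m e) := by
  unfold proj
  rw [map_smul, ← (res1 π g).intervalIntegral_comp_comm
    ((h.circ2.cont' m e).intervalIntegrable _ _)]
  congr 2
  funext φ
  rw [map_smul, res_comm]

/-- The projection for the first factor commutes with the second factor. -/
theorem Act.proj1_res2 (h : Act D D' w π ι C) (m : ℤ) (g : SU11) (e : E) :
    proj (fun φ => res1 π (rt φ)) m (res2 π g e) =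
      res2 π g (proj (fun φ => res1 π (rt φ)) m e) := by
  unfold proj
  rw [map_smul, ← (res2 π g).intervalIntegral_comp_comm
    ((h.circ1.cont' m e).intervalIntegrable _ _)]
  congr 2
  funext φ
  rw [map_smul, res_comm]

theorem Act.pr2_le (h : Act D D' w π ι C) (m m' : ℤ) (e : E) :
    ‖pr2 π m m' e‖ ≤ C ^ 2 * ‖e‖ := by
  unfold pr2
  have h1 := Pool.Agent.H60.Sob.norm_proj_le h.circ1 m (proj (fun φ => res2 π (rt φ)) m' e)
  have h2 := Pool.Agent.H60.Sob.norm_proj_le h.circ2 m' e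
  refine h1.trans ?_
  have h3 := mul_le_mul_of_nonneg_left h2 h.C_nonneg
  refine h3.trans (le_of_eq ?_)
  ring

theorem Act.pr2_cont (h : Act D D' w π ι C) (m m' : ℤ) : Continuous (pr2 π m m') := by
  have h1 : pr2 π m m' = fun e => projL h.circ1 m (projL h.circ2 m' e) := rfl
  rw [h1]
  exact (projL h.circ1 m).continuous.comp (projL h.circ2 m').continuous

private theorem pr2_ev (h : Act D D' w π ι C) (m m' : ℤ) (a b : ℕ) :
    pr2 π m m' (ι (ev a b)) =
      if m = D.κ + 2 * a ∧ m' = D'.κ + 2 * b then ι (ev a b) else 0 := by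
  unfold pr2
  rw [Pool.Agent.H60.Sob.proj_eig h.circ2 m' (D'.κ + 2 * b) (ι (ev a b))
    (fun φ => (h.rp2 a).wt φ b)]
  by_cases hb : m' = D'.κ + 2 * b
  · rw [if_pos hb, Pool.Agent.H60.Sob.proj_eig h.circ1 m (D.κ + 2 * a) (ι (ev a b))
      (fun φ => (h.rp1 b).wt φ a)]
    by_cases ha : m = D.κ + 2 * a
    · rw [if_pos ha, if_pos ⟨ha, hb⟩]
    · rw [if_neg ha, if_neg (fun hc => ha hc.1)]
  · rw [if_neg hb, if_neg (fun hc => hb hc.2)]
    have h1 : proj (fun φ => res1 π (rt φ)) m (0 : E) = projL h.circ1 m 0 := rfl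
    rw [h1, map_zero]

private theorem pr2_add (h : Act D D' w π ι C) (m m' : ℤ) (e f : E) :
    pr2 π m m' (e + f) = pr2 π m m' e + pr2 π m m' f := by
  unfold pr2
  rw [Pool.Agent.H60.Sob.proj_add h.circ2, Pool.Agent.H60.Sob.proj_add h.circ1]

private theorem pr2_smul (m m' : ℤ) (c : ℂ) (e : E) :
    pr2 π m m' (c • e) = c • pr2 π m m' e := by
  unfold pr2
  rw [Pool.Agent.H60.Sob.proj_smul, Pool.Agent.H60.Sob.proj_smul]

private theorem pr2_zero (m m' : ℤ) : pr2 π m m' (0 : E) = 0 := by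
  have h1 := pr2_smul (π := π) m m' 0 (0 : E)
  rwa [zero_smul, zero_smul] at h1

theorem Act.pr2_iota (h : Act D D' w π ι C) (n j : ℕ) (v : Sp) :
    pr2 π (D.κ + 2 * n) (D'.κ + 2 * j) (ι v) = v (n, j) • ι (ev n j) := by
  refine ev_ind (P := fun v => pr2 π (D.κ + 2 * n) (D'.κ + 2 * j) (ι v) = v (n, j) • ι (ev n j))
    v ?_ ?_ ?_ ?_
  · rw [map_zero, pr2_zero, Finsupp.coe_zero, Pi.zero_apply, zero_smul]
  · intro v w hv hw
    rw [map_add, pr2_add h, hv, hw, Finsupp.add_apply, add_smul]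
  · intro c v hv
    rw [map_smul, pr2_smul, hv, Finsupp.smul_apply, smul_eq_mul, mul_smul]
  · intro a b
    rw [pr2_ev h]
    by_cases hab : a = n ∧ b = j
    · obtain ⟨rfl, rfl⟩ := hab
      rw [if_pos ⟨rfl, rfl⟩]
      have h1 : (ev a b) (a, b) = 1 := Finsupp.single_eq_same
      rw [h1, one_smul]
    · rw [if_neg (by omega)]
      have h1 : (ev a b) (n, j) = 0 := by
        unfold ev
        rw [Finsupp.single_apply, if_neg]
        intro he
        have h2 := Prod.mk.inj he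
        exact hab h2
      rw [h1, zero_smul]

theorem Act.pr2_other (h : Act D D' w π ι C) (m m' : ℤ)
    (hm : ∀ n j : ℕ, (m, m') ≠ (D.κ + 2 * n, D'.κ + 2 * j)) (v : Sp) : pr2 π m m' (ι v) = 0 := by
  refine ev_ind (P := fun v => pr2 π m m' (ι v) = 0) v ?_ ?_ ?_ ?_
  · rw [map_zero, pr2_zero]
  · intro v w hv hw
    rw [map_add, pr2_add h, hv, hw, add_zero]
  · intro c v hv
    rw [map_smul, pr2_smul, hv, smul_zero]
  · intro a b
    rw [pr2_ev h, if_neg]
    intro hc
    exact hm a b (Prod.ext hc.1 hc.2)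

/-- The components of `π (a_s, a_t) ι (e_n ⊗ e_j)`, from the components for the two factors. -/
theorem Act.pr2_hy (h : Act D D' w π ι C) (m m' : ℤ) (n j p q : ℕ) (s t a b : ℝ)
    (h1 : FF (res1 π) (fun n => ι (ev n q)) m n s = a • ι (ev p q))
    (h2 : FF (res2 π) (fun j => ι (ev n j)) m' j t = b • ι (ev n q)) :
    pr2 π m m' (π (hy s, hy t) (ι (ev n j))) = (a * b) • ι (ev p q) := by
  unfold pr2
  rw [res_mul, h.proj2_res1]
  have h3 : proj (fun φ => res2 π (rt φ)) m' (res2 π (hy t) (ι (ev n j))) = b • ι (ev n q) := h2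
  rw [h3]
  have h4 : b • ι (ev n q) = (b : ℂ) • ι (ev n q) := (Complex.coe_smul b _).symm
  rw [h4, map_smul, Pool.Agent.H60.Sob.proj_smul]
  have h5 : proj (fun φ => res1 π (rt φ)) m (res1 π (hy s) (ι (ev n q))) = a • ι (ev p q) := h1
  rw [h5, Complex.coe_smul, smul_smul, mul_comm]

/-- The resulting inequality. -/
theorem Act.comp_le (h : Act D D' w π ι C) (m m' : ℤ) (n j p q : ℕ) (s t a b : ℝ)
    (h1 : FF (res1 π) (fun n => ι (ev n q)) m n s = a • ι (ev p q))
    (h2 : FF (res2 π) (fun j => ι (ev n j)) m' j t = b • ι (ev n q)) :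
    |a| * |b| * ‖ι (ev p q)‖ ≤ C ^ 3 * w (hy s, hy t) * ‖ι (ev n j)‖ := by
  have h3 := h.pr2_hy m m' n j p q s t a b h1 h2
  have h4 := h.pr2_le m m' (π (hy s, hy t) (ι (ev n j)))
  rw [h3, norm_smul, Real.norm_eq_abs, abs_mul] at h4
  refine h4.trans ?_
  have h5 : ‖π (hy s, hy t) (ι (ev n j))‖ ≤ C * w (hy s, hy t) * ‖ι (ev n j)‖ :=
    ((π (hy s, hy t)).le_opNorm _).trans
      (mul_le_mul_of_nonneg_right (h.bd _) (norm_nonneg _))
  refine (mul_le_mul_of_nonneg_left h5 (sq_nonneg C)).trans (le_of_eq ?_)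
  ring

end

/-- From an `InNorm` we get a globalization. -/
theorem exists_glob {D D' : Dat} {hD : D.OK} {hD' : D'.OK} {w : G → ℝ}
    (wrot : ∀ φ ψ, w (rt φ, rt ψ) ≤ 1) (wpos : ∀ g, 0 < w g) {p : Sp → ℝ}
    (h : InNorm (modP hD hD') w p) :
    ∃ (E : Type) (_ : NormedAddCommGroup E) (_ : NormedSpace ℂ E) (_ : CompleteSpace E)
      (π : G →* (E →L[ℂ] E)) (ι : Sp →ₗ[ℂ] E) (C : ℝ), Glob D D' w π ι C ∧
      ∀ v, p v = ‖ι v‖ := by
  obtain ⟨E, i1, i2, i3, π, ι, hinj, hden, hp, hcont, _, hK, hder, C, hC⟩ := h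
  exact ⟨E, i1, i2, i3, π, ι, C, ⟨⟨hcont, hK, hder, hC, wrot, wpos⟩, hinj, hden⟩, hp⟩

end Pool.Agent.H40.SG
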