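import Pool.Agent.H40.SG.Bridge

/-!
# The tensor product of two holomorphic discrete series is irreducible
-/

set_option autoImplicit false

namespace Pool.Agent.H40.SG

open Complex Topology Filter

/-- The lowering operator of the first factor. -/
noncomputable def low1 (D : Dat) : Sp →ₗ[ℂ] Sp :=
  Finsupp.linearCombination ℂ fun p : ℕ × ℕ => (D.l p.1 : ℂ) • ev (p.1 - 1) p.2

/-- The lowering operator of the second factor. -/
noncomputable def low2 (D : Dat) : Sp →ₗ[ℂ] Sp :=
  Finsupp.linearCombination ℂ fun p : ℕ × ℕ => (D.l p.2 : ℂ) • ev p.1 (p.2 - 1)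

private theorem low1_ev (D : Dat) (n j : ℕ) : low1 D (ev n j) = (D.l n : ℂ) • ev (n - 1) j := by
  unfold low1
  rw [ev, Finsupp.linearCombination_single, one_smul]

private theorem low2_ev (D : Dat) (n j : ℕ) : low2 D (ev n j) = (D.l j : ℂ) • ev n (j - 1) := by
  unfold low2
  rw [ev, Finsupp.linearCombination_single, one_smul]

private theorem ev_app (n j a b : ℕ) : ev n j (a, b) = if n = a ∧ j = b then 1 else 0 := by
  unfold ev
  rw [Finsupp.single_apply]
  simp only [Prod.mk.injEq]

private theorem low1_apply {D : Dat} (hD : D.OK) (v : Sp) (a b : ℕ) :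
    low1 D v (a, b) = (D.l (a + 1) : ℂ) * v (a + 1, b) := by
  refine ev_ind (P := fun v => low1 D v (a, b) = (D.l (a + 1) : ℂ) * v (a + 1, b)) v ?_ ?_ ?_ ?_
  · simp
  · intro v w hv hw
    rw [map_add, Finsupp.add_apply, Finsupp.add_apply, hv, hw, mul_add]
  · intro c v hv
    rw [map_smul, Finsupp.smul_apply, Finsupp.smul_apply, hv, smul_eq_mul, smul_eq_mul]
    ring
  · intro n j
    rw [low1_ev, Finsupp.smul_apply, ev_app, ev_app, smul_eq_mul]
    rcases n with _ | n
    · rw [hD.l0]
      simp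
    · rw [Nat.add_sub_cancel]
      by_cases h : n = a ∧ j = b
      · rw [if_pos h, if_pos ⟨by rw [h.1], h.2⟩, h.1]
      · rw [if_neg h, if_neg (fun h' => h ⟨by omega, h'.2⟩)]
        simp

private theorem low2_apply {D : Dat} (hD : D.OK) (v : Sp) (a b : ℕ) :
    low2 D v (a, b) = (D.l (b + 1) : ℂ) * v (a, b + 1) := by
  refine ev_ind (P := fun v => low2 D v (a, b) = (D.l (b + 1) : ℂ) * v (a, b + 1)) v ?_ ?_ ?_ ?_
  · simp
  · intro v w hv hw
    rw [map_add, Finsupp.add_apply, Finsupp.add_apply, hv, hw, mul_add]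
  · intro c v hv
    rw [map_smul, Finsupp.smul_apply, Finsupp.smul_apply, hv, smul_eq_mul, smul_eq_mul]
    ring
  · intro n j
    rw [low2_ev, Finsupp.smul_apply, ev_app, ev_app, smul_eq_mul]
    rcases j with _ | j
    · rw [hD.l0]
      simp
    · rw [Nat.add_sub_cancel]
      by_cases h : n = a ∧ j = b
      · rw [if_pos h, if_pos ⟨h.1, by rw [h.2]⟩, h.2]
      · rw [if_neg h, if_neg (fun h' => h ⟨h'.1, by omega⟩)]
        simp

/-- The element `!![0, b; conj b, 0]` of `su(1,1)`. -/
private noncomputable def bel (b : ℂ) : su11 := (Pool.Agent.H60.Sob.elt 0 b 0).1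

private theorem bel_00 (b : ℂ) : (bel b).1 0 0 = 0 := by
  unfold bel
  rw [Pool.Agent.H60.Sob.elt_00]
  simp

private theorem bel_01 (b : ℂ) : (bel b).1 0 1 = b := rfl

private theorem z00 : ((0 : su11) : Matrix (Fin 2) (Fin 2) ℂ) 0 0 = 0 := rfl

private theorem z01 : ((0 : su11) : Matrix (Fin 2) (Fin 2) ℂ) 0 1 = 0 := rfl

private theorem low1_eq (D D' : Dat) (v : Sp) :
    low1 D v = (-(1 / 2) : ℂ) • (rhoP D D' (bel 1, 0) v - I • rhoP D D' (bel I, 0) v) := by
  have h : low1 D = (-(1 / 2) : ℂ) • (rhoP D D' (bel 1, 0) - I • rhoP D D' (bel I, 0)) := by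
    refine ev_ext fun n j => ?_
    rw [LinearMap.smul_apply, LinearMap.sub_apply, LinearMap.smul_apply, rhoP_ev, rhoP_ev, low1_ev]
    simp only [bel_00, bel_01, z00, z01, map_one, map_zero, neg_zero, zero_mul, mul_zero,
      mul_one, zero_smul, zero_add, add_zero, sub_zero, Complex.conj_I]
    have hI : I * I = -1 := Complex.I_mul_I
    match_scalars
    · linear_combination (1 / 2 * (D.l n : ℂ)) * hI
    · linear_combination (1 / 2 * (D.r n : ℂ)) * hI
  exact LinearMap.congr_fun h v

private theorem low2_eq (D D' : Dat) (v : Sp) :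
    low2 D' v = (-(1 / 2) : ℂ) • (rhoP D D' (0, bel 1) v - I • rhoP D D' (0, bel I) v) := by
  have h : low2 D' = (-(1 / 2) : ℂ) • (rhoP D D' (0, bel 1) - I • rhoP D D' (0, bel I)) := by
    refine ev_ext fun n j => ?_
    rw [LinearMap.smul_apply, LinearMap.sub_apply, LinearMap.smul_apply, rhoP_ev, rhoP_ev, low2_ev]
    simp only [bel_00, bel_01, z00, z01, map_one, map_zero, neg_zero, zero_mul, mul_zero,
      mul_one, zero_smul, zero_add, add_zero, sub_zero, Complex.conj_I]
    have hI : I * I = -1 := Complex.I_mul_I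
    match_scalars
    · linear_combination (1 / 2 * (D'.l j : ℂ)) * hI
    · linear_combination (1 / 2 * (D'.r j : ℂ)) * hI
  exact LinearMap.congr_fun h v

private theorem ev00_mem {D D' : Dat} (hD : D.OK) (hD' : D'.OK) (hl : ∀ n, D.l (n + 1) ≠ 0)
    (hl' : ∀ n, D'.l (n + 1) ≠ 0) (W : Submodule ℂ Sp)
    (hW : ∀ (X : gLie), ∀ v ∈ W, rhoP D D' X v ∈ W) (N : ℕ) :
    ∀ v ∈ W, v ≠ 0 → (∀ a b, v (a, b) ≠ 0 → a + b ≤ N) → ev 0 0 ∈ W := by
  have hW1 : ∀ v ∈ W, low1 D v ∈ W := by
    intro v hv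
    rw [low1_eq D D']
    exact W.smul_mem _ (W.sub_mem (hW _ _ hv) (W.smul_mem _ (hW _ _ hv)))
  have hW2 : ∀ v ∈ W, low2 D' v ∈ W := by
    intro v hv
    rw [low2_eq D D']
    exact W.smul_mem _ (W.sub_mem (hW _ _ hv) (W.smul_mem _ (hW _ _ hv)))
  induction N with
  | zero =>
    intro v hv hv0 h
    have h1 : v = v (0, 0) • ev 0 0 := by
      ext ⟨a, b⟩
      rw [Finsupp.smul_apply, ev_app, smul_eq_mul]
      by_cases hab : 0 = a ∧ 0 = b
      · rw [if_pos hab, ← hab.1, ← hab.2, mul_one]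
      · rw [if_neg hab, mul_zero]
        by_contra hne
        have := h a b hne
        exact hab ⟨by omega, by omega⟩
    have h2 : v (0, 0) ≠ 0 := by
      intro h3
      rw [h3, zero_smul] at h1
      exact hv0 h1
    rw [h1] at hv
    exact (W.smul_mem_iff h2).mp hv
  | succ N ih =>
    intro v hv hv0 h
    by_cases hc1 : ∃ a b, v (a + 1, b) ≠ 0
    · obtain ⟨a, b, hab⟩ := hc1
      refine ih _ (hW1 v hv) ?_ ?_
      · intro h0
        have h1 := low1_apply hD v a b
        rw [h0, Finsupp.zero_apply] at h1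
        have h2 : (D.l (a + 1) : ℂ) ≠ 0 := by exact_mod_cast hl a
        exact (mul_ne_zero h2 hab) h1.symm
      · intro a' b' h1
        rw [low1_apply hD] at h1
        have := h _ _ (right_ne_zero_of_mul h1)
        omega
    · by_cases hc2 : ∃ a b, v (a, b + 1) ≠ 0
      · obtain ⟨a, b, hab⟩ := hc2
        refine ih _ (hW2 v hv) ?_ ?_
        · intro h0
          have h1 := low2_apply hD' v a b
          rw [h0, Finsupp.zero_apply] at h1
          have h2 : (D'.l (b + 1) : ℂ) ≠ 0 := by exact_mod_cast hl' b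
          exact (mul_ne_zero h2 hab) h1.symm
        · intro a' b' h1
          rw [low2_apply hD'] at h1
          have := h _ _ (right_ne_zero_of_mul h1)
          omega
      · refine ih v hv hv0 ?_
        intro a b hab
        rcases a with _ | a
        · rcases b with _ | b
          · omega
          · exact absurd ⟨0, b, hab⟩ hc2
        · exact absurd ⟨a, b, hab⟩ hc1

/-- The tensor product of two holomorphic discrete series is an irreducible `𝔤`-module. -/
theorem modS_irr {k k' : ℕ} (hk : 0 < k) (hk' : 0 < k') :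
    SGS.IsIrreducible (modS (hol_OK hk) (hol_OK hk')) := by
  refine ⟨⟨⟨ev 0 0, 0, fun h => ?_⟩⟩, fun W hW => ?_⟩
  · have h1 : ev 0 0 (0, 0) = 0 := by rw [h]; rfl
    rw [ev_app] at h1
    simp at h1
  · by_cases h0 : W = ⊥
    · exact Or.inl h0
    · right
      obtain ⟨v, hv, hv0⟩ := W.ne_bot_iff.mp h0
      have hl : ∀ k n : ℕ, (hol k).l (n + 1) ≠ 0 := by
        intro k n
        show ((n + 1 : ℕ) : ℤ) ≠ 0
        omega
      have h1 : ev 0 0 ∈ W := by
        refine ev00_mem (hol_OK hk) (hol_OK hk') (hl k) (hl k') W hW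
          (v.support.sup fun p => p.1 + p.2) v hv hv0 ?_
        intro a b hab
        exact Finset.le_sup (f := fun p : ℕ × ℕ => p.1 + p.2) (Finsupp.mem_support_iff.mpr hab)
      exact gen_ev00 (hol_OK hk) (hol_OK hk') W h1 hW

end Pool.Agent.H40.SG
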