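import Pool.Agent.H40.SG.Irr
import Pool.Agent.H40.SG.Final

/-!
# The Sobolev gap of a submodule can be larger, for a semisimple group
-/

set_option autoImplicit false

namespace Pool.Agent.H40.SG

theorem gaps_aux {d : ℕ} (hd : 2 ≤ d) :
    SG.sobolevGap (modP (hol_OK (k := 2 * d) (by omega)) ver_OK) (wgt d) ≤ ((d + 8 : ℕ) : ℝ) ∧
    ((2 * d : ℕ) : ℝ) ≤ SG.sobolevGap (modP (hol_OK (k := 2 * d) (by omega))
      (hol_OK (k := 4) (by omega))) (wgt d) := by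
  refine ⟨csInf_le ⟨0, fun s hs => hs.1⟩ (gapSet_U hd), ?_⟩
  refine le_csInf ⟨_, gapSet_V hd⟩ ?_
  rintro s ⟨hs, hs2⟩
  exact gap_lower_V (by omega) hs (hs2 _ _ (norm_V (by omega) 0 (by omega))
    (norm_V (by omega) (2 * d) le_rfl))

theorem gaps_aux2 {d : ℕ} (hd : 2 ≤ d) {pmax pmin qmax qmin : Sp → ℝ}
    (hpmax : SG.IsMaxNorm (modP (hol_OK (k := 2 * d) (by omega)) (hol_OK (k := 4) (by omega)))
      (wgt d) pmax)
    (hpmin : SG.IsMinNorm (modP (hol_OK (k := 2 * d) (by omega)) (hol_OK (k := 4) (by omega)))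
      (wgt d) pmin)
    (hqmax : SG.IsMaxNorm (modP (hol_OK (k := 2 * d) (by omega)) ver_OK) (wgt d) qmax)
    (hqmin : SG.IsMinNorm (modP (hol_OK (k := 2 * d) (by omega)) ver_OK) (wgt d) qmin) :
    sInf {s | 0 ≤ s ∧ SobLe (modP (hol_OK (k := 2 * d) (by omega)) ver_OK) s qmax qmin} ≤
      ((d + 8 : ℕ) : ℝ) ∧
    ((2 * d : ℕ) : ℝ) ≤ sInf {s | 0 ≤ s ∧ SobLe (modP (hol_OK (k := 2 * d) (by omega))
      (hol_OK (k := 4) (by omega))) s pmax pmin} := by
  constructor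
  · have h := gapSet_U hd
    exact csInf_le ⟨0, fun s hs => hs.1⟩ ⟨h.1, h.2 _ _ hqmax.1 hqmin.1⟩
  · have h := gapSet_V hd
    refine le_csInf ⟨_, h.1, h.2 _ _ hpmax.1 hpmin.1⟩ ?_
    rintro s ⟨hs, S, hS, c, hc⟩
    obtain ⟨c1, hc1⟩ := hpmax.2 _ (norm_V (d := d) (by omega) 0 (by omega))
    obtain ⟨c2, hc2⟩ := hpmin.2 _ (norm_V (d := d) (by omega) (2 * d) le_rfl)
    have hp0 : ∀ v, 0 ≤ pmax v := by
      obtain ⟨E, i1, i2, i3, π, ι, -, -, h3, -⟩ := hpmax.1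
      intro v; rw [h3]; exact norm_nonneg _
    have hq0 : ∀ v, 0 ≤ pmin v := by
      obtain ⟨E, i1, i2, i3, π, ι, -, -, h3, -⟩ := hpmin.1
      intro v; rw [h3]; exact norm_nonneg _
    refine gap_lower_V (by omega) hs ⟨S, hS, |c1| * (|c| * |c2|), fun v => ?_⟩
    calc ‖io (fh 0) (fh 2) v‖ ≤ c1 * pmax v := hc1 v
      _ ≤ |c1| * pmax v := mul_le_mul_of_nonneg_right (le_abs_self _) (hp0 v)
      _ ≤ |c1| * (c * pmin (S v)) := mul_le_mul_of_nonneg_left (hc v) (abs_nonneg _)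
      _ ≤ |c1| * (|c| * pmin (S v)) := by
          gcongr
          · exact hq0 _
          · exact le_abs_self _
      _ ≤ |c1| * (|c| * (c2 * ‖io (fh (2 * d)) (fh 2) (S v)‖)) := by
          gcongr
          exact hc2 _
      _ ≤ |c1| * (|c| * (|c2| * ‖io (fh (2 * d)) (fh 2) (S v)‖)) := by
          gcongr
          exact le_abs_self _
      _ = _ := by ring

/-- There are Harish-Chandra modules `V ⊂ U` for the semisimple group `G = SU(1,1) × SU(1,1)` and a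
weight `w` with `Norm(V, w)` and `Norm(U, w)` nonempty and `s(U, w) + B < s(V, w)`, for every `B`. -/
theorem main (B : ℝ) :
    ∃ (V : Type) (_ : AddCommGroup V) (_ : Module ℂ V) (MV : SGS.GKModule V)
      (U : Type) (_ : AddCommGroup U) (_ : Module ℂ U) (MU : SGS.GKModule U)
      (φ : V →ₗ[ℂ] U) (w : SGS.G → ℝ),
      SGS.IsHarishChandra MV ∧ SGS.IsHarishChandra MU ∧ SGS.IsEmb MV MU φ ∧
      SGS.IsIrreducible MV ∧ SGS.IsWeight w ∧
      (∃ p, SGS.InNorm MV w p) ∧ (∃ p, SGS.InNorm MU w p) ∧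
      SGS.sobolevGap MU w + B < SGS.sobolevGap MV w ∧
      (∀ pmax pmin qmax qmin, SGS.IsMaxNorm MV w pmax → SGS.IsMinNorm MV w pmin →
        SGS.IsMaxNorm MU w qmax → SGS.IsMinNorm MU w qmin →
        SGS.gapOf MU qmax qmin + B < SGS.gapOf MV pmax pmin) := by
  obtain ⟨d0, hd0⟩ := exists_nat_gt B
  set d := d0 + 9 with hd
  have hd2 : 2 ≤ d := by omega
  have hB : ((d + 8 : ℕ) : ℝ) + B < ((2 * d : ℕ) : ℝ) := by
    rw [hd]
    push_cast
    linarith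
  refine ⟨Sp, inferInstance, inferInstance, modS (hol_OK (k := 2 * d) (by omega))
    (hol_OK (k := 4) (by omega)), Sp, inferInstance, inferInstance,
    modS (hol_OK (k := 2 * d) (by omega)) ver_OK, incl, wgtS d, modS_isHC _ _,
    modS_isHC _ _, incl_isEmb _, modS_irr (by omega) (by omega), wgtS_isWeight d, ?_, ?_, ?_, ?_⟩
  · exact ⟨_, (inNorm_iff _ _ _ _).mpr (norm_V (d := d) (by omega) 0 (by omega))⟩
  · exact ⟨_, (inNorm_iff _ _ _ _).mpr (norm_U (d := d) (by omega))⟩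
  · rw [sobolevGap_eq, sobolevGap_eq]
    have h := gaps_aux hd2
    exact lt_of_lt_of_le (lt_of_le_of_lt (add_le_add h.1 le_rfl) hB) h.2
  · intro pmax pmin qmax qmin h1 h2 h3 h4
    rw [isMaxNorm_iff] at h1 h3
    rw [isMinNorm_iff] at h2 h4
    rw [gapOf_eq, gapOf_eq]
    have h := gaps_aux2 hd2 h1 h2 h3 h4
    exact lt_of_lt_of_le (lt_of_le_of_lt (add_le_add h.1 le_rfl) hB) h.2

end Pool.Agent.H40.SG
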