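import Pool.Agent.H40.SG.Defs

/-!
# The `(𝔤, K)`-modules `modP D D'`

Adapt `Pool/Agent/H60/Sob/Mod.lean` (there `rhoL`, `kapL`, `modL`; here the coefficients are those of
`D`, and the exponents are integers: the entry `c = g.1.1 1 1` of a diagonal `g` is nonzero). Linear
maps on `Sp` are compared with `ev_ext`, properties of vectors are proved with `ev_ind`.
-/

set_option autoImplicit false

namespace Pool.Agent.H40.SG

open Complex Topology Filter

theorem s_10 (g : SU11) : g.1.1 1 0 = starRingEnd ℂ (g.1.1 0 1) := g.2.1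

theorem s_11 (g : SU11) : g.1.1 1 1 = starRingEnd ℂ (g.1.1 0 0) := g.2.2

theorem s_det (g : SU11) : g.1.1 0 0 * starRingEnd ℂ (g.1.1 0 0) -
    g.1.1 0 1 * starRingEnd ℂ (g.1.1 0 1) = 1 := by
  have h := g.1.2
  rw [Matrix.det_fin_two] at h
  rw [← s_10, ← s_11]
  exact h

theorem l_conj (X : su11) : starRingEnd ℂ (X.1 0 0) = - X.1 0 0 := by
  obtain ⟨X, h3, h4, h5⟩ := X
  show starRingEnd ℂ (X 0 0) = - X 0 0
  rw [← h4]; linear_combination h5

theorem l_10 (X : su11) : X.1 1 0 = starRingEnd ℂ (X.1 0 1) := X.2.1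

theorem l_11 (X : su11) : X.1 1 1 = - X.1 0 0 := by
  obtain ⟨X, h3, h4, h5⟩ := X
  show X 1 1 = - X 0 0
  linear_combination h5

private theorem diag_unit {g : SU11} (h : g.1.1 0 1 = 0) :
    g.1.1 0 0 * starRingEnd ℂ (g.1.1 0 0) = 1 := by
  have h1 := s_det g
  rw [h] at h1
  simpa using h1

/-- For a diagonal `g` the entry `g.1.1 1 1` is nonzero. -/
theorem diag_ne {g : SU11} (h : g.1.1 0 1 = 0) : g.1.1 1 1 ≠ 0 := by
  intro h0
  have h1 := diag_unit h
  rw [← s_11, h0, mul_zero] at h1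
  exact zero_ne_one h1

theorem op1_add (D : Dat) (X Y : su11) : op1 D (X + Y) = op1 D X + op1 D Y := by
  refine ev_ext fun n j => ?_
  simp only [LinearMap.add_apply, op1_ev, Submodule.coe_add, Matrix.add_apply, map_add]
  module

theorem op2_add (D : Dat) (X Y : su11) : op2 D (X + Y) = op2 D X + op2 D Y := by
  refine ev_ext fun n j => ?_
  simp only [LinearMap.add_apply, op2_ev, Submodule.coe_add, Matrix.add_apply, map_add]
  module

theorem op1_smul (D : Dat) (r : ℝ) (X : su11) : op1 D (r • X) = (r : ℂ) • op1 D X := by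
  refine ev_ext fun n j => ?_
  simp only [LinearMap.smul_apply, op1_ev, Submodule.coe_smul, Matrix.smul_apply,
    Complex.real_smul, map_mul, Complex.conj_ofReal]
  module

theorem op2_smul (D : Dat) (r : ℝ) (X : su11) : op2 D (r • X) = (r : ℂ) • op2 D X := by
  refine ev_ext fun n j => ?_
  simp only [LinearMap.smul_apply, op2_ev, Submodule.coe_smul, Matrix.smul_apply,
    Complex.real_smul, map_mul, Complex.conj_ofReal]
  module

private theorem br_00 (X Y : su11) : (br1 X Y).1 0 0 = X.1 0 1 * starRingEnd ℂ (Y.1 0 1) -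
    Y.1 0 1 * starRingEnd ℂ (X.1 0 1) := by
  simp only [br1, Matrix.sub_apply, Matrix.mul_apply, Fin.sum_univ_two, l_10]
  ring

private theorem br_01 (X Y : su11) :
    (br1 X Y).1 0 1 = 2 * (X.1 0 0 * Y.1 0 1 - Y.1 0 0 * X.1 0 1) := by
  simp only [br1, Matrix.sub_apply, Matrix.mul_apply, Fin.sum_univ_two, l_11]
  ring

private theorem conj_two : starRingEnd ℂ (2:ℂ) = 2 := by
  rw [show (2:ℂ) = ((2:ℝ):ℂ) by norm_num, Complex.conj_ofReal]

theorem op1_lie {D : Dat} (hD : D.OK) (X Y : su11) :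
    op1 D (br1 X Y) = op1 D X ∘ₗ op1 D Y - op1 D Y ∘ₗ op1 D X := by
  refine ev_ext fun n j => ?_
  have hk : ((D.κ : ℂ)) = D.r n * D.l (n + 1) - D.r (n - 1) * D.l n - 2 * n := by
    have hc : ((D.r n : ℂ)) * D.l (n + 1) - D.r (n - 1) * D.l n = D.κ + 2 * n := by
      exact_mod_cast hD.comm n
    linear_combination (-1 : ℂ) * hc
  have hl : (D.l 0 : ℂ) = 0 := by rw [hD.l0]; norm_num
  simp only [LinearMap.sub_apply, LinearMap.comp_apply, op1_ev, map_add, map_sub, map_smul]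
  rw [br_00, br_01]
  simp only [map_mul, map_sub, l_conj]
  rw [conj_two]
  simp only [hk]
  rcases n with _ | n
  · simp only [Nat.cast_zero, zero_add, hl, zero_mul, zero_smul, Nat.zero_sub, Nat.cast_one,
      mul_zero, add_zero]
    module
  · simp only [Nat.add_sub_cancel]
    rcases n with _ | n
    · simp only [Nat.cast_add, Nat.cast_zero, Nat.cast_one, zero_add, hl, zero_mul, zero_smul,
        mul_zero, add_zero, Nat.zero_sub]
      module
    · simp only [Nat.cast_add, Nat.cast_one, Nat.add_sub_cancel]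
      module

theorem op2_lie {D : Dat} (hD : D.OK) (X Y : su11) :
    op2 D (br1 X Y) = op2 D X ∘ₗ op2 D Y - op2 D Y ∘ₗ op2 D X := by
  refine ev_ext fun j n => ?_
  have hk : ((D.κ : ℂ)) = D.r n * D.l (n + 1) - D.r (n - 1) * D.l n - 2 * n := by
    have hc : ((D.r n : ℂ)) * D.l (n + 1) - D.r (n - 1) * D.l n = D.κ + 2 * n := by
      exact_mod_cast hD.comm n
    linear_combination (-1 : ℂ) * hc
  have hl : (D.l 0 : ℂ) = 0 := by rw [hD.l0]; norm_num
  simp only [LinearMap.sub_apply, LinearMap.comp_apply, op2_ev, map_add, map_sub, map_smul]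
  rw [br_00, br_01]
  simp only [map_mul, map_sub, l_conj]
  rw [conj_two]
  simp only [hk]
  rcases n with _ | n
  · simp only [Nat.cast_zero, zero_add, hl, zero_mul, zero_smul, Nat.zero_sub, Nat.cast_one,
      mul_zero, add_zero]
    module
  · simp only [Nat.add_sub_cancel]
    rcases n with _ | n
    · simp only [Nat.cast_add, Nat.cast_zero, Nat.cast_one, zero_add, hl, zero_mul, zero_smul,
        mul_zero, add_zero, Nat.zero_sub]
      module
    · simp only [Nat.cast_add, Nat.cast_one, Nat.add_sub_cancel]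
      module

/-- The actions of the two factors commute. -/
theorem op_comm (D D' : Dat) (X Y : su11) : op1 D X ∘ₗ op2 D' Y = op2 D' Y ∘ₗ op1 D X := by
  refine ev_ext fun n j => ?_
  simp only [LinearMap.comp_apply, op1_ev, op2_ev, map_add, map_sub, map_smul]
  module

theorem rhoP_lie {D D' : Dat} (hD : D.OK) (hD' : D'.OK) (X Y : gLie) :
    rhoP D D' (bracket X Y) = rhoP D D' X ∘ₗ rhoP D D' Y - rhoP D D' Y ∘ₗ rhoP D D' X := by
  show op1 D (br1 X.1 Y.1) + op2 D' (br1 X.2 Y.2) = (op1 D X.1 + op2 D' X.2) ∘ₗ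
    (op1 D Y.1 + op2 D' Y.2) - (op1 D Y.1 + op2 D' Y.2) ∘ₗ (op1 D X.1 + op2 D' X.2)
  rw [op1_lie hD, op2_lie hD']
  simp only [LinearMap.add_comp, LinearMap.comp_add]
  rw [op_comm D D' X.1 Y.2, op_comm D D' Y.1 X.2]
  abel

theorem kapP_apply (D D' : Dat) (g : G) (v : Sp) (n j : ℕ) :
    (kapP D D' g v) (n, j) =
      ((g.1.1.1 1 1) ^ (D.κ + 2 * n) * (g.2.1.1 1 1) ^ (D'.κ + 2 * j)) * v (n, j) := by
  refine ev_ind (P := fun v => (kapP D D' g v) (n, j) =
      ((g.1.1.1 1 1) ^ (D.κ + 2 * n) * (g.2.1.1 1 1) ^ (D'.κ + 2 * j)) * v (n, j)) v ?_ ?_ ?_ ?_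
  · simp
  · intro v w hv hw
    rw [map_add, Finsupp.add_apply, hv, hw, Finsupp.add_apply]
    ring
  · intro c v hv
    rw [map_smul, Finsupp.smul_apply, hv, Finsupp.smul_apply, smul_eq_mul, smul_eq_mul]
    ring
  · intro n' j'
    rw [kapP_ev, Finsupp.smul_apply, smul_eq_mul]
    unfold ev
    by_cases h : (n', j') = (n, j)
    · rw [Prod.mk.injEq] at h
      rw [h.1, h.2]
    · rw [Finsupp.single_eq_of_ne (Ne.symm h), mul_zero, mul_zero]

private theorem K_0 (g : K) : g.1.1.1.1 0 1 = 0 := g.2.1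

private theorem K_0' (g : K) : g.1.2.1.1 0 1 = 0 := g.2.2

private theorem mul_11 (g h : SU11) (hh : h.1.1 0 1 = 0) :
    (g * h).1.1 1 1 = g.1.1 1 1 * h.1.1 1 1 := by
  show (g.1 * h.1 : Matrix.SpecialLinearGroup (Fin 2) ℂ) 1 1 = _
  rw [Matrix.SpecialLinearGroup.coe_mul, Matrix.mul_apply, Fin.sum_univ_two]
  have h3 : (h.1 : Matrix (Fin 2) (Fin 2) ℂ) 0 1 = 0 := hh
  rw [h3, mul_zero, zero_add]

private theorem one_11 : (1 : SU11).1.1 1 1 = 1 := by
  show (1 : Matrix (Fin 2) (Fin 2) ℂ) 1 1 = 1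
  simp

/-- The action of `K` as a homomorphism. -/
noncomputable def kapH (D D' : Dat) : K →* Module.End ℂ Sp where
  toFun g := kapP D D' g
  map_one' := by
    refine ev_ext fun n j => ?_
    rw [kapP_ev]
    show ((1 : SU11).1.1 1 1 ^ (D.κ + 2 * n) * (1 : SU11).1.1 1 1 ^ (D'.κ + 2 * j)) • ev n j = ev n j
    rw [one_11, one_zpow, one_zpow, mul_one, one_smul]
  map_mul' := by
    intro g h
    refine ev_ext fun n j => ?_
    show kapP D D' ((g : G) * (h : G)) (ev n j) = kapP D D' g (kapP D D' h (ev n j))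
    rw [kapP_ev, kapP_ev, map_smul, kapP_ev, smul_smul]
    congr 1
    have h1 : ((g : G) * (h : G)).1.1.1 1 1 = (g : G).1.1.1 1 1 * (h : G).1.1.1 1 1 :=
      mul_11 (g : G).1 (h : G).1 (K_0 h)
    have h2 : ((g : G) * (h : G)).2.1.1 1 1 = (g : G).2.1.1 1 1 * (h : G).2.1.1 1 1 :=
      mul_11 (g : G).2 (h : G).2 (K_0' h)
    rw [h1, h2, mul_zpow, mul_zpow]
    ring

theorem kapP_fin (D D' : Dat) (v : Sp) :
    FiniteDimensional ℂ (Submodule.span ℂ (Set.range fun g : K => kapP D D' g v)) := by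
  classical
  let F : Submodule ℂ Sp :=
    Submodule.span ℂ (v.support.image fun p => (Finsupp.single p (1 : ℂ) : Sp) : Finset Sp)
  have hF : FiniteDimensional ℂ F := FiniteDimensional.span_finset ℂ _
  refine Submodule.finiteDimensional_of_le (S₂ := F) (Submodule.span_le.mpr ?_)
  rintro _ ⟨g, rfl⟩
  simp only [SetLike.mem_coe]
  have h1 : kapP D D' g v = ∑ p ∈ v.support, (kapP D D' g v) p • (Finsupp.single p (1 : ℂ) : Sp) := by
    ext q
    rw [Finsupp.finsetSum_apply]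
    by_cases hq : q ∈ v.support
    · rw [Finset.sum_eq_single q]
      · simp
      · intro p _ hp
        rw [Finsupp.smul_apply, Finsupp.single_eq_of_ne (Ne.symm hp), smul_zero]
      · intro h; exact absurd hq h
    · have h2 : v q = 0 := Finsupp.notMem_support_iff.1 hq
      obtain ⟨n, j⟩ := q
      rw [kapP_apply, h2, mul_zero]
      symm
      refine Finset.sum_eq_zero fun p hp => ?_
      rw [Finsupp.smul_apply, Finsupp.single_eq_of_ne, smul_zero]
      rintro rfl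
      exact hq hp
  rw [h1]
  refine F.sum_mem fun p hp => F.smul_mem _ (Submodule.subset_span ?_)
  simp only [Finset.coe_image, Set.mem_image]
  exact ⟨p, hp, rfl⟩

private theorem cont_K1 (i j : Fin 2) : Continuous fun g : K => (g : G).1.1.1 i j := by
  have h1 : Continuous fun g : K => (g : G).1.1 :=
    continuous_subtype_val.comp (continuous_fst.comp continuous_subtype_val)
  have h2 : Continuous fun g : K => (g : G).1.1.1 := continuous_subtype_val.comp h1
  exact (continuous_apply j).comp ((continuous_apply i).comp h2)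

private theorem cont_K2 (i j : Fin 2) : Continuous fun g : K => (g : G).2.1.1 i j := by
  have h1 : Continuous fun g : K => (g : G).2.1 :=
    continuous_subtype_val.comp (continuous_snd.comp continuous_subtype_val)
  have h2 : Continuous fun g : K => (g : G).2.1.1 := continuous_subtype_val.comp h1
  exact (continuous_apply j).comp ((continuous_apply i).comp h2)

theorem kapP_cont (D D' : Dat) (v : Sp) (l : Sp →ₗ[ℂ] ℂ) :
    Continuous fun g : K => l (kapP D D' g v) := by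
  refine ev_ind (P := fun v => Continuous fun g : K => l (kapP D D' g v)) v ?_ ?_ ?_ ?_
  · simp only [map_zero]; exact continuous_const
  · intro v w hv hw
    simp only [map_add]; exact hv.add hw
  · intro c v hv
    simp only [map_smul]; exact hv.const_smul c
  · intro n j
    simp only [kapP_ev, map_smul, smul_eq_mul]
    refine Continuous.mul (Continuous.mul ?_ ?_) continuous_const
    · exact (cont_K1 1 1).zpow₀ _ (fun g => Or.inl (diag_ne (K_0 g)))
    · exact (cont_K2 1 1).zpow₀ _ (fun g => Or.inl (diag_ne (K_0' g)))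

theorem IsExp1_zero {X : su11} {γ : ℝ → SU11} (h : IsExp1 X γ) : γ 0 = 1 := by
  have h1 := h.1 0 0
  rw [add_zero] at h1
  exact left_eq_mul.mp h1

theorem IsExp_zero {X : gLie} {γ : ℝ → G} (h : IsExp X γ) : γ 0 = 1 :=
  Prod.ext (IsExp1_zero h.1) (IsExp1_zero h.2)

private theorem exp_01 {X : su11} {γ : ℝ → SU11} (h : IsExp1 X γ) (h0 : ∀ t, (γ t).1.1 0 1 = 0) :
    X.1 0 1 = 0 := by
  have h4 := h.2 0 1
  have h5 : (fun t => (γ t).1.1 0 1) = fun _ => (0:ℂ) := by
    funext t; exact h0 t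
  rw [h5] at h4
  exact h4.unique (hasDerivAt_const _ _)

theorem kapP_deriv (D D' : Dat) (X : gLie) (γ : ℝ → K)
    (h : IsExp X (fun t => (γ t : G))) (v : Sp) (l : Sp →ₗ[ℂ] ℂ) :
    HasDerivAt (fun t => l (kapP D D' (γ t) v)) (l (rhoP D D' X v)) 0 := by
  have hX1 : X.1.1 0 1 = 0 := exp_01 h.1 (fun t => K_0 (γ t))
  have hX2 : X.2.1 0 1 = 0 := exp_01 h.2 (fun t => K_0' (γ t))
  refine ev_ind (P := fun v => HasDerivAt (fun t => l (kapP D D' (γ t) v)) (l (rhoP D D' X v)) 0)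
    v ?_ ?_ ?_ ?_
  · simp only [map_zero]; exact hasDerivAt_const _ _
  · intro v w hv hw
    simp only [map_add]; exact hv.add hw
  · intro c v hv
    simp only [map_smul]; exact hv.const_smul c
  · intro n j
    simp only [kapP_ev, rhoP_ev, hX1, hX2, map_smul, map_add, map_sub, smul_eq_mul]
    have h5 : (γ 0 : G) = 1 := IsExp_zero h
    have h6 : (γ 0 : G).1.1.1 1 1 = 1 := by rw [h5]; exact one_11
    have h6' : (γ 0 : G).2.1.1 1 1 = 1 := by rw [h5]; exact one_11
    have h4 := (hasDerivAt_zpow (D.κ + 2 * n) ((γ 0 : G).1.1.1 1 1) (Or.inl (by rw [h6]; exact one_ne_zero))).comp (0:ℝ) (h.1.2 1 1)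
    have h4' := (hasDerivAt_zpow (D'.κ + 2 * j) ((γ 0 : G).2.1.1 1 1) (Or.inl (by rw [h6']; exact one_ne_zero))).comp (0:ℝ) (h.2.2 1 1)
    have h7 := (h4.mul h4').mul_const (l (ev n j))
    refine h7.congr_deriv ?_
    simp only [Function.comp_apply, h6, h6', l_11, one_zpow, map_zero]
    push_cast
    ring

private theorem Ad_00 {g : SU11} (h : g.1.1 0 1 = 0) (X : su11) : (Ad1 g X).1 0 0 = X.1 0 0 := by
  have hd := s_11 g
  have hc : g.1.1 1 0 = 0 := by rw [s_10 g, h]; simp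
  have hu := diag_unit h
  simp only [Ad1, InvMemClass.coe_inv, Matrix.SpecialLinearGroup.coe_inv, Matrix.adjugate_fin_two, Matrix.mul_apply,
    Fin.sum_univ_two, h, hc, hd, Matrix.of_apply, Matrix.cons_val', Matrix.cons_val_zero,
    Matrix.cons_val_one, Matrix.cons_val_fin_one]
  linear_combination (X.1 0 0) * hu

private theorem Ad_01 {g : SU11} (h : g.1.1 0 1 = 0) (X : su11) :
    (Ad1 g X).1 0 1 = (g.1.1 0 0) ^ 2 * X.1 0 1 := by
  simp only [Ad1, InvMemClass.coe_inv, Matrix.SpecialLinearGroup.coe_inv, Matrix.adjugate_fin_two, Matrix.mul_apply,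
    Fin.sum_univ_two, h, Matrix.of_apply, Matrix.cons_val', Matrix.cons_val_zero,
    Matrix.cons_val_one, Matrix.cons_val_fin_one]
  ring

private theorem kap_op1 {D : Dat} (hD : D.OK) (D' : Dat) (g : G) (hg : g.1.1.1 0 1 = 0)
    (X : su11) (n j : ℕ) :
    kapP D D' g (op1 D X (ev n j)) = op1 D (Ad1 g.1 X) (kapP D D' g (ev n j)) := by
  have hc : g.1.1.1 1 1 ≠ 0 := diag_ne hg
  have hu : g.1.1.1 0 0 * g.1.1.1 1 1 = 1 := by rw [s_11]; exact diag_unit hg
  have hs : starRingEnd ℂ (g.1.1.1 0 0) = g.1.1.1 1 1 := (s_11 g.1).symm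
  have hl : (D.l 0 : ℂ) = 0 := by rw [hD.l0]; norm_num
  simp only [op1_ev, kapP_ev, map_add, map_sub, map_smul]
  rw [Ad_00 hg, Ad_01 hg]
  simp only [map_mul, map_pow, hs]
  generalize g.1.1.1 0 0 = a at *
  generalize g.1.1.1 1 1 = c at *
  generalize g.2.1.1 1 1 ^ (D'.κ + 2 * (j:ℤ)) = w at *
  have e1 : c ^ (D.κ + 2 * ((n + 1 : ℕ) : ℤ)) = c ^ (D.κ + 2 * (n:ℤ)) * c ^ 2 := by
    rw [show D.κ + 2 * ((n + 1 : ℕ) : ℤ) = (D.κ + 2 * (n:ℤ)) + 2 by push_cast; ring,
      zpow_add₀ hc]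
    norm_cast
  rw [e1]
  rcases n with _ | n
  · simp only [Nat.cast_zero, hl, zero_mul, zero_smul, Nat.zero_sub, zero_add, mul_zero, add_zero,
      sub_zero]
    module
  · have e2 : c ^ (D.κ + 2 * ((n + 1 : ℕ) : ℤ)) * a ^ 2 = c ^ (D.κ + 2 * (n:ℤ)) := by
      rw [show D.κ + 2 * ((n + 1 : ℕ) : ℤ) = (D.κ + 2 * (n:ℤ)) + 2 by push_cast; ring,
        zpow_add₀ hc]
      have : c ^ (2:ℤ) * a ^ 2 = 1 := by
        norm_cast
        rw [← mul_pow, mul_comm, hu, one_pow]
      rw [mul_assoc, this, mul_one]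
    rw [Nat.add_sub_cancel]
    rw [← e2]
    module

private theorem kap_op2 (D : Dat) {D' : Dat} (hD : D'.OK) (g : G) (hg : g.2.1.1 0 1 = 0)
    (X : su11) (n j : ℕ) :
    kapP D D' g (op2 D' X (ev n j)) = op2 D' (Ad1 g.2 X) (kapP D D' g (ev n j)) := by
  have hc : g.2.1.1 1 1 ≠ 0 := diag_ne hg
  have hu : g.2.1.1 0 0 * g.2.1.1 1 1 = 1 := by rw [s_11]; exact diag_unit hg
  have hs : starRingEnd ℂ (g.2.1.1 0 0) = g.2.1.1 1 1 := (s_11 g.2).symm
  have hl : (D'.l 0 : ℂ) = 0 := by rw [hD.l0]; norm_num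
  simp only [op2_ev, kapP_ev, map_add, map_sub, map_smul]
  rw [Ad_00 hg, Ad_01 hg]
  simp only [map_mul, map_pow, hs]
  generalize g.2.1.1 0 0 = a at *
  generalize g.2.1.1 1 1 = c at *
  generalize g.1.1.1 1 1 ^ (D.κ + 2 * (n:ℤ)) = w at *
  have e1 : c ^ (D'.κ + 2 * ((j + 1 : ℕ) : ℤ)) = c ^ (D'.κ + 2 * (j:ℤ)) * c ^ 2 := by
    rw [show D'.κ + 2 * ((j + 1 : ℕ) : ℤ) = (D'.κ + 2 * (j:ℤ)) + 2 by push_cast; ring,
      zpow_add₀ hc]
    norm_cast
  rw [e1]
  rcases j with _ | j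
  · simp only [Nat.cast_zero, hl, zero_mul, zero_smul, Nat.zero_sub, zero_add, mul_zero, add_zero,
      sub_zero]
    module
  · have e2 : c ^ (D'.κ + 2 * ((j + 1 : ℕ) : ℤ)) * a ^ 2 = c ^ (D'.κ + 2 * (j:ℤ)) := by
      rw [show D'.κ + 2 * ((j + 1 : ℕ) : ℤ) = (D'.κ + 2 * (j:ℤ)) + 2 by push_cast; ring,
        zpow_add₀ hc]
      have : c ^ (2:ℤ) * a ^ 2 = 1 := by
        norm_cast
        rw [← mul_pow, mul_comm, hu, one_pow]
      rw [mul_assoc, this, mul_one]
    rw [Nat.add_sub_cancel]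
    rw [← e2]
    module

theorem kapP_Ad {D D' : Dat} (hD : D.OK) (hD' : D'.OK) (g : K) (X : gLie) (v : Sp) :
    kapP D D' g (rhoP D D' X v) = rhoP D D' (Ad g X) (kapP D D' g v) := by
  refine ev_ind (P := fun v => kapP D D' g (rhoP D D' X v) =
    rhoP D D' (Ad g X) (kapP D D' g v)) v ?_ ?_ ?_ ?_
  · simp only [map_zero]
  · intro v w hv hw
    simp only [map_add]; rw [hv, hw]
  · intro c v hv
    simp only [map_smul]; rw [hv]
  · intro n j
    show kapP D D' g ((op1 D X.1 + op2 D' X.2) (ev n j)) =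
      (op1 D (Ad1 (g : G).1 X.1) + op2 D' (Ad1 (g : G).2 X.2)) (kapP D D' g (ev n j))
    rw [LinearMap.add_apply, LinearMap.add_apply, map_add, kap_op1 hD D' (g : G) (K_0 g),
      kap_op2 D hD' (g : G) (K_0' g)]

/-- The external tensor product of the lowest weight modules with data `D` and `D'`. -/
noncomputable def modP {D D' : Dat} (hD : D.OK) (hD' : D'.OK) : GKModule Sp where
  ρ := rhoP D D'
  κ := kapH D D'
  ρ_add X Y := by
    show op1 D (X.1 + Y.1) + op2 D' (X.2 + Y.2) = (op1 D X.1 + op2 D' X.2) + (op1 D Y.1 + op2 D' Y.2)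
    rw [op1_add, op2_add]
    abel
  ρ_smul r X := by
    show op1 D (r • X.1) + op2 D' (r • X.2) = (r : ℂ) • (op1 D X.1 + op2 D' X.2)
    rw [op1_smul, op2_smul, smul_add]
  ρ_lie := rhoP_lie hD hD'
  κ_fin := kapP_fin D D'
  κ_cont := kapP_cont D D'
  κ_deriv := kapP_deriv D D'
  κ_Ad := kapP_Ad hD hD'

end Pool.Agent.H40.SG
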