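import Pool.Agent.H40.SG.Fam
import Pool.Agent.H40.SG.Glob

/-!
# The action of `G` on `C(DD × DD, ℂ)`

Adapt `Pool/Agent/H60/Sob/Model.lean` (section `Rep`). `ten f h` is the function `f(Z) h(Z')`.
-/

set_option autoImplicit false

namespace Pool.Agent.H40.SG

open Complex Topology Filter
open Pool.Agent.H60.Sob (DD cfac mu den num cont_cfac cont_mu cfac_mul mu_mul cfac_one mu_one)

/-- The space of continuous functions on the square of the closed disc. -/
abbrev FF2 : Type := C(DD × DD, ℂ)

/-- The function `f(Z) h(Z')`. -/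
noncomputable def ten (f h : C(DD, ℂ)) : FF2 :=
  ⟨fun Z => f Z.1 * h Z.2, by fun_prop⟩

theorem ten_apply (f h : C(DD, ℂ)) (Z : DD × DD) : ten f h Z = f Z.1 * h Z.2 := rfl

theorem ten_norm (f h : C(DD, ℂ)) : ‖ten f h‖ ≤ ‖f‖ * ‖h‖ := by
  rw [ContinuousMap.norm_le _ (by positivity)]
  intro Z
  rw [ten_apply, norm_mul]
  exact mul_le_mul (f.norm_coe_le_norm _) (h.norm_coe_le_norm _) (norm_nonneg _) (norm_nonneg _)

/-- `ten` as a continuous linear map in the first variable. -/
noncomputable def tenL (h : C(DD, ℂ)) : C(DD, ℂ) →L[ℂ] FF2 :=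
  LinearMap.mkContinuous
    { toFun := fun f => ten f h
      map_add' := by intro f g; ext Z; simp [ten_apply, add_mul]
      map_smul' := by intro c f; ext Z; simp [ten_apply, mul_assoc] } ‖h‖ (by
        intro f
        rw [mul_comm]
        exact ten_norm f h)

/-- `ten` as a continuous linear map in the second variable. -/
noncomputable def tenR (f : C(DD, ℂ)) : C(DD, ℂ) →L[ℂ] FF2 :=
  LinearMap.mkContinuous
    { toFun := fun h => ten f h
      map_add' := by intro g h; ext Z; simp [ten_apply, mul_add]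
      map_smul' := by
        intro c h; ext Z
        simp only [ten_apply, ContinuousMap.smul_apply, smul_eq_mul, RingHom.id_apply]
        ring } ‖f‖ (fun h => ten_norm f h)

theorem tenL_apply (f h : C(DD, ℂ)) : tenL h f = ten f h := rfl
theorem tenR_apply (f h : C(DD, ℂ)) : tenR f h = ten f h := rfl

/-- `ten` as a bilinear map. -/
private noncomputable def tenB : C(DD, ℂ) →L[ℝ] C(DD, ℂ) →L[ℝ] FF2 :=
  LinearMap.mkContinuous₂
    (LinearMap.mk₂ ℝ ten
      (fun f g h => by ext Z; simp [ten_apply, add_mul])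
      (fun c f h => by ext Z; simp [ten_apply, mul_assoc])
      (fun f g h => by ext Z; simp [ten_apply, mul_add])
      (fun c f h => by
        ext Z
        simp only [ten_apply, ContinuousMap.smul_apply, Complex.real_smul]
        ring)) 1 (fun f h => by
      rw [one_mul]
      exact ten_norm f h)

private theorem tenB_apply (f h : C(DD, ℂ)) : tenB f h = ten f h := rfl

/-- `ten f h` depends differentiably on `f` and `h`. -/
theorem ten_deriv {f h : ℝ → C(DD, ℂ)} {f' h' : C(DD, ℂ)} {t : ℝ} (hf : HasDerivAt f f' t)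
    (hh : HasDerivAt h h' t) :
    HasDerivAt (fun s => ten (f s) (h s)) (ten f' (h t) + ten (f t) h') t := by
  have h1 := tenB.hasDerivAt_of_bilinear (fun _ => hf) (fun _ => hh)
  simp only [tenB_apply] at h1
  rw [add_comm] at h1
  exact h1

private theorem mem_step (L : C(DD, ℂ) →L[ℂ] FF2) (φ : ℕ → C(DD, ℂ)) {T : Submodule ℂ FF2}
    (hT : IsClosed (T : Set FF2)) (h : ∀ n, L (φ n) ∈ T) {f : C(DD, ℂ)}
    (hf : f ∈ (Submodule.span ℂ (Set.range φ)).topologicalClosure) : L f ∈ T := by
  have h1 : (Submodule.span ℂ (Set.range φ)).topologicalClosure ≤ T.comap L.toLinearMap := by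
    refine Submodule.topologicalClosure_minimal _ ?_ (hT.preimage L.continuous)
    rw [Submodule.span_le]
    rintro _ ⟨n, rfl⟩
    exact h n
  exact h1 hf

/-- If `f`, `h` are in the closures of the spans of `ψ`, `ψ'`, then `ten f h` is in the closure of the
span of the `ten (ψ n) (ψ' j)`. -/
theorem ten_mem {ψ ψ' : ℕ → C(DD, ℂ)} {f h : C(DD, ℂ)}
    (hf : f ∈ (Submodule.span ℂ (Set.range ψ)).topologicalClosure)
    (hh : h ∈ (Submodule.span ℂ (Set.range ψ')).topologicalClosure) :
    ten f h ∈ (Submodule.span ℂ (Set.range fun p : ℕ × ℕ => ten (ψ p.1) (ψ' p.2))).topologicalClosure := by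
  have hc := Submodule.isClosed_topologicalClosure
    (Submodule.span ℂ (Set.range fun p : ℕ × ℕ => ten (ψ p.1) (ψ' p.2)))
  have h1 : ∀ j, ten f (ψ' j) ∈
      (Submodule.span ℂ (Set.range fun p : ℕ × ℕ => ten (ψ p.1) (ψ' p.2))).topologicalClosure := by
    intro j
    refine mem_step (tenL (ψ' j)) ψ hc (fun n => ?_) hf
    rw [tenL_apply]
    exact Submodule.le_topologicalClosure _ (Submodule.subset_span ⟨(n, j), rfl⟩)
  exact mem_step (tenR f) ψ' hc h1 hh

theorem PiF_cont_aux (k α k' α' : ℕ) (g : G) (f : FF2) :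
    Continuous fun Z : DD × DD => cfac k α (up g.1) Z.1 * cfac k' α' (up g.2) Z.2 *
      f (mu (up g.1) Z.1, mu (up g.2) Z.2) := by
  have h1 : Continuous fun Z : DD × DD => cfac k α (up g.1) Z.1 :=
    cont_cfac k α continuous_const continuous_fst
  have h2 : Continuous fun Z : DD × DD => cfac k' α' (up g.2) Z.2 :=
    cont_cfac k' α' continuous_const continuous_snd
  have h3 : Continuous fun Z : DD × DD => mu (up g.1) Z.1 :=
    cont_mu continuous_const continuous_fst
  have h4 : Continuous fun Z : DD × DD => mu (up g.2) Z.2 :=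
    cont_mu continuous_const continuous_snd
  exact (h1.mul h2).mul (f.continuous.comp (h3.prodMk h4))

/-- The action of `G` on `C(DD × DD, ℂ)`. -/
noncomputable def PiF (k α k' α' : ℕ) (g : G) (f : FF2) : FF2 :=
  ⟨fun Z => cfac k α (up g.1) Z.1 * cfac k' α' (up g.2) Z.2 *
      f (mu (up g.1) Z.1, mu (up g.2) Z.2), PiF_cont_aux k α k' α' g f⟩

private theorem PiF_apply (k α k' α' : ℕ) (g : G) (f : FF2) (Z : DD × DD) :
    PiF k α k' α' g f Z = cfac k α (up g.1) Z.1 * cfac k' α' (up g.2) Z.2 *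
      f (mu (up g.1) Z.1, mu (up g.2) Z.2) := rfl

theorem PiF_ten (k α k' α' : ℕ) (g : G) (f h : C(DD, ℂ)) :
    PiF k α k' α' g (ten f h) = ten (Tf k α g.1 f) (Tf k' α' g.2 h) := by
  ext Z
  simp only [PiF_apply, ten_apply, Tf_apply]
  ring

/-- The hypothesis that the action grows at most like `w`. -/
def GrowthOK (k α k' α' : ℕ) (w : G → ℝ) : Prop :=
  ∀ (g : G) (Z Z' : DD), ‖cfac k α (up g.1) Z‖ * ‖cfac k' α' (up g.2) Z'‖ ≤ w g

variable {k α k' α' : ℕ} {w : G → ℝ}

theorem PiF_norm (hG : GrowthOK k α k' α' w) (g : G) (f : FF2) :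
    ‖PiF k α k' α' g f‖ ≤ w g * ‖f‖ := by
  have h0 : 0 ≤ w g := by
    have h1 := hG g ⟨0, by simp⟩ ⟨0, by simp⟩
    exact le_trans (by positivity) h1
  rw [ContinuousMap.norm_le _ (by positivity)]
  intro Z
  rw [PiF_apply, norm_mul, norm_mul]
  exact mul_le_mul (hG g Z.1 Z.2) (f.norm_coe_le_norm _) (norm_nonneg _) h0

/-- The action as a homomorphism to bounded operators. -/
noncomputable def PiL (hG : GrowthOK k α k' α' w) : G →* (FF2 →L[ℂ] FF2) where
  toFun g := LinearMap.mkContinuous
    { toFun := PiF k α k' α' g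
      map_add' := by
        intro f h
        ext Z
        simp only [PiF_apply, ContinuousMap.add_apply]
        ring
      map_smul' := by
        intro c f
        ext Z
        simp only [PiF_apply, ContinuousMap.smul_apply, smul_eq_mul, RingHom.id_apply]
        ring } (w g) (PiF_norm hG g)
  map_one' := by
    ext f Z
    change PiF k α k' α' 1 f Z = f Z
    rw [PiF_apply]
    change cfac k α (up 1) Z.1 * cfac k' α' (up 1) Z.2 * f (mu (up 1) Z.1, mu (up 1) Z.2) = f Z
    rw [up_one, cfac_one, cfac_one, mu_one, mu_one, one_mul, one_mul]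
  map_mul' := by
    intro g h
    ext f Z
    change PiF k α k' α' (g * h) f Z = PiF k α k' α' g (PiF k α k' α' h f) Z
    simp only [PiF_apply]
    change cfac k α (up (g.1 * h.1)) Z.1 * cfac k' α' (up (g.2 * h.2)) Z.2 *
      f (mu (up (g.1 * h.1)) Z.1, mu (up (g.2 * h.2)) Z.2) = _
    rw [up_mul, up_mul, cfac_mul, cfac_mul, mu_mul, mu_mul]
    ring

theorem PiL_apply (hG : GrowthOK k α k' α' w) (g : G) (f : FF2) :
    PiL hG g f = PiF k α k' α' g f := rfl

theorem PiL_cont (hG : GrowthOK k α k' α' w) :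
    Continuous (fun x : G × FF2 => PiL hG x.1 x.2) := by
  change Continuous (fun x : G × FF2 => PiF k α k' α' x.1 x.2)
  apply ContinuousMap.continuous_of_continuous_uncurry
  have a1 : Continuous fun q : (G × FF2) × (DD × DD) => up q.1.1.1 :=
    up_cont.comp (continuous_fst.comp (continuous_fst.comp continuous_fst))
  have a2 : Continuous fun q : (G × FF2) × (DD × DD) => up q.1.1.2 :=
    up_cont.comp (continuous_snd.comp (continuous_fst.comp continuous_fst))
  have b1 : Continuous fun q : (G × FF2) × (DD × DD) => q.2.1 :=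
    continuous_fst.comp continuous_snd
  have b2 : Continuous fun q : (G × FF2) × (DD × DD) => q.2.2 :=
    continuous_snd.comp continuous_snd
  have h1 : Continuous fun q : (G × FF2) × (DD × DD) => cfac k α (up q.1.1.1) q.2.1 :=
    cont_cfac k α a1 b1
  have h2 : Continuous fun q : (G × FF2) × (DD × DD) => cfac k' α' (up q.1.1.2) q.2.2 :=
    cont_cfac k' α' a2 b2
  have h3 : Continuous fun q : (G × FF2) × (DD × DD) => mu (up q.1.1.1) q.2.1 := cont_mu a1 b1
  have h4 : Continuous fun q : (G × FF2) × (DD × DD) => mu (up q.1.1.2) q.2.2 := cont_mu a2 b2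
  have h5 : Continuous fun q : (G × FF2) × (DD × DD) =>
      q.1.2 (mu (up q.1.1.1) q.2.1, mu (up q.1.1.2) q.2.2) :=
    (continuous_snd.comp continuous_fst).eval (h3.prodMk h4)
  exact (h1.mul h2).mul h5

theorem PiL_bd (hG : GrowthOK k α k' α' w) (hw : ∀ g, 0 < w g) (g : G) :
    ‖PiL hG g‖ ≤ 1 * w g := by
  rw [one_mul]
  exact LinearMap.mkContinuous_norm_le _ (hw g).le (PiF_norm hG g)

/-- The map `ev n j ↦ ten (ψ n) (ψ' j)`. -/
noncomputable def io (ψ ψ' : ℕ → C(DD, ℂ)) : Sp →ₗ[ℂ] FF2 :=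
  Finsupp.linearCombination ℂ fun p : ℕ × ℕ => ten (ψ p.1) (ψ' p.2)

theorem io_ev (ψ ψ' : ℕ → C(DD, ℂ)) (n j : ℕ) : io ψ ψ' (ev n j) = ten (ψ n) (ψ' j) := by
  unfold io
  rw [ev, Finsupp.linearCombination_single, one_smul]

private theorem exp_zero {X : su11} {γ : ℝ → SU11} (h : IsExp1 X γ) : γ 0 = 1 := by
  have h1 := h.1 0 0
  rw [add_zero] at h1
  exact (left_eq_mul).1 h1

private theorem Tf_one (k α : ℕ) (f : C(DD, ℂ)) : Tf k α 1 f = f := by
  ext Z
  rw [Tf_apply, up_one, cfac_one, mu_one, one_mul]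

/-- The functions on the square of the disc form an `Act`. -/
theorem act_model {D D' : Dat} {ψ ψ' : ℕ → C(DD, ℂ)} (hψ : Fam D k α ψ) (hψ' : Fam D' k' α' ψ')
    (hG : GrowthOK k α k' α' w) (hw : ∀ g, 0 < w g) (hrot : ∀ φ χ, w (rt φ, rt χ) ≤ 1) :
    Act D D' w (PiL hG) (io ψ ψ') 1 := by
  refine ⟨PiL_cont hG, ?_, ?_, PiL_bd hG hw, hrot, hw⟩
  · intro g v
    refine ev_ind (P := fun v => PiL hG g (io ψ ψ' v) = io ψ ψ' (kapP D D' g v)) v (by simp)
      ?_ ?_ ?_
    · intro v v' h1 h2
      rw [map_add, map_add, map_add, map_add, h1, h2]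
    · intro c v h1
      rw [map_smul, map_smul, map_smul, map_smul, h1]
    · intro n j
      have hg : (g : G).1.1.1 0 1 = 0 ∧ (g : G).2.1.1 0 1 = 0 := g.2
      rw [io_ev, PiL_apply, PiF_ten, hψ.kap _ hg.1, hψ'.kap _ hg.2, kapP_ev, map_smul, io_ev]
      ext Z
      simp only [ten_apply, ContinuousMap.smul_apply, smul_eq_mul]
      ring
  · intro X γ hγ v
    refine ev_ind (P := fun v => HasDerivAt (fun t => PiL hG (γ t) (io ψ ψ' v))
      (io ψ ψ' (rhoP D D' X v)) 0) v ?_ ?_ ?_ ?_
    · simpa using hasDerivAt_const (0 : ℝ) (0 : FF2)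
    · intro v v' h1 h2
      have h3 := h1.add h2
      rw [map_add, map_add, map_add]
      refine h3.congr_of_eventuallyEq (Eventually.of_forall fun t => ?_)
      simp
    · intro c v h1
      have h3 := h1.const_smul c
      rw [map_smul, map_smul, map_smul]
      refine h3.congr_of_eventuallyEq (Eventually.of_forall fun t => ?_)
      simp
    · intro n j
      have e1 := hψ.deriv X.1 _ hγ.1 n
      have e2 := hψ'.deriv X.2 _ hγ.2 j
      have h3 := ten_deriv e1 e2
      have z1 : (γ 0).1 = 1 := exp_zero hγ.1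
      have z2 : (γ 0).2 = 1 := exp_zero hγ.2
      rw [z1, z2, Tf_one, Tf_one] at h3
      have h4 : (fun t => PiL hG (γ t) (io ψ ψ' (ev n j))) =
          fun t => ten (Tf k α (γ t).1 (ψ n)) (Tf k' α' (γ t).2 (ψ' j)) := by
        funext t
        rw [io_ev, PiL_apply, PiF_ten]
      rw [h4]
      refine h3.congr_deriv ?_
      rw [rhoP_ev]
      simp only [map_add, map_sub, map_smul, io_ev]
      ext Z
      simp only [ten_apply, ContinuousMap.smul_apply, ContinuousMap.add_apply,
        ContinuousMap.sub_apply, smul_eq_mul]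
      ring

end Pool.Agent.H40.SG
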