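import Pool.Agent.H40.SG.Model

/-!
# The closed subspace generated by the model is invariant

`EE` is the closure of the range of `io ψ ψ'`. Let `v = io (ev 0 0)`. By `Fam.gen`, `PiF_ten` and
`ten_mem` all `PiL g v` are in `EE`. For a fixed `g` the `e` with `PiL g e ∈ EE` form a closed
subspace `F` which contains all `PiL h v`; `F` contains `proj (PiL h v)` for the two circle actions
(`proj_mem` of `Circ.lean` twice, with `Act.proj2_res1`), hence by `Act.pr2_hy` and `Rp.top` a multiple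
(nonzero by `ctop_ne`) of every `io (ev n j)`.
-/

set_option autoImplicit false

namespace Pool.Agent.H40.SG

open Complex Topology Filter
open Pool.Agent.H60.Sob (DD cfac mu CircAct proj projL proj_mem)

variable {D D' : Dat} {k α k' α' : ℕ} {w : G → ℝ} {ψ ψ' : ℕ → C(DD, ℂ)}

/-- The closed subspace spanned by the image of `Sp`. -/
noncomputable def EE (ψ ψ' : ℕ → C(DD, ℂ)) : Submodule ℂ FF2 :=
  (LinearMap.range (io ψ ψ')).topologicalClosure

theorem EE_closed : IsClosed (EE ψ ψ' : Set FF2) :=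
  Submodule.isClosed_topologicalClosure _

theorem io_mem (v : Sp) : io ψ ψ' v ∈ EE ψ ψ' :=
  Submodule.le_topologicalClosure _ ⟨v, rfl⟩

theorem range_io : LinearMap.range (io ψ ψ') =
    Submodule.span ℂ (Set.range fun p : ℕ × ℕ => ten (ψ p.1) (ψ' p.2)) := by
  unfold io
  exact Finsupp.range_linearCombination (R := ℂ) (v := fun p : ℕ × ℕ => ten (ψ p.1) (ψ' p.2))

theorem orbit_mem (hψ : Fam D k α ψ) (hψ' : Fam D' k' α' ψ') (hG : GrowthOK k α k' α' w) (g : G) :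
    PiL hG g (io ψ ψ' (ev 0 0)) ∈ EE ψ ψ' := by
  rw [PiL_apply, io_ev, PiF_ten]
  unfold EE
  rw [range_io]
  exact ten_mem (hψ.gen g.1) (hψ'.gen g.2)

theorem PiL_ev_mem (hD : D.OK) (hD' : D'.OK) (hψ : Fam D k α ψ) (hψ' : Fam D' k' α' ψ')
    (hG : GrowthOK k α k' α' w) (hw : ∀ g, 0 < w g) (hrot : ∀ φ χ, w (rt φ, rt χ) ≤ 1)
    (g : G) (n j : ℕ) : PiL hG g (io ψ ψ' (ev n j)) ∈ EE ψ ψ' := by
  have hA := act_model hψ hψ' hG hw hrot
  set F : Submodule ℂ FF2 := (EE ψ ψ').comap (PiL hG g : FF2 →ₗ[ℂ] FF2) with hF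
  have hFc : IsClosed (F : Set FF2) := EE_closed.preimage (PiL hG g).continuous
  have hFo : ∀ h : G, PiL hG h (io ψ ψ' (ev 0 0)) ∈ F := by
    intro h
    show PiL hG g (PiL hG h (io ψ ψ' (ev 0 0))) ∈ EE ψ ψ'
    have h1 : PiL hG g (PiL hG h (io ψ ψ' (ev 0 0))) = PiL hG (g * h) (io ψ ψ' (ev 0 0)) := by
      rw [map_mul]
      rfl
    rw [h1]
    exact orbit_mem hψ hψ' hG _
  have hpr : pr2 (PiL hG) (D.κ + 2 * n) (D'.κ + 2 * j)
      (PiL hG (hy 1, hy 1) (io ψ ψ' (ev 0 0))) ∈ F := by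
    unfold pr2
    refine proj_mem hA.circ1 _ _ F hFc fun φ => ?_
    have h2 := hA.proj2_res1 (D'.κ + 2 * j) (rt φ) (PiL hG (hy 1, hy 1) (io ψ ψ' (ev 0 0)))
    rw [← h2]
    refine proj_mem hA.circ2 _ _ F hFc fun χ => ?_
    have h3 : res2 (PiL hG) (rt χ) (res1 (PiL hG) (rt φ) (PiL hG (hy 1, hy 1) (io ψ ψ' (ev 0 0)))) =
        PiL hG (((1 : SU11), rt χ) * ((rt φ, (1 : SU11)) * (hy 1, hy 1))) (io ψ ψ' (ev 0 0)) := by
      rw [map_mul, map_mul]
      rfl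
    rw [h3]
    exact hFo _
  have htop := hA.pr2_hy (D.κ + 2 * n) (D'.κ + 2 * j) 0 0 n j 1 1 (ctop D n 1) (ctop D' j 1)
    ((hA.rp1 j).top hD n 1 one_pos) ((hA.rp2 0).top hD' j 1 one_pos)
  rw [htop] at hpr
  have hne : ((ctop D n 1 * ctop D' j 1 : ℝ) : ℂ) ≠ 0 := by
    exact_mod_cast mul_ne_zero (ctop_ne hD n one_pos) (ctop_ne hD' j one_pos)
  have h4 : io ψ ψ' (ev n j) = ((ctop D n 1 * ctop D' j 1 : ℝ) : ℂ)⁻¹ •
      ((ctop D n 1 * ctop D' j 1) • io ψ ψ' (ev n j)) := by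
    rw [← Complex.coe_smul (ctop D n 1 * ctop D' j 1), smul_smul, inv_mul_cancel₀ hne, one_smul]
  have h5 : io ψ ψ' (ev n j) ∈ F := by
    rw [h4]
    exact F.smul_mem _ hpr
  exact h5

theorem PiL_mem (hD : D.OK) (hD' : D'.OK) (hψ : Fam D k α ψ) (hψ' : Fam D' k' α' ψ')
    (hG : GrowthOK k α k' α' w) (hw : ∀ g, 0 < w g) (hrot : ∀ φ χ, w (rt φ, rt χ) ≤ 1)
    (g : G) (f : FF2) (hf : f ∈ EE ψ ψ') : PiL hG g f ∈ EE ψ ψ' := by
  have hcl : IsClosed {f : FF2 | PiL hG g f ∈ EE ψ ψ'} :=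
    EE_closed.preimage (PiL hG g).continuous
  have h1 : ∀ v : Sp, PiL hG g (io ψ ψ' v) ∈ EE ψ ψ' := by
    intro v
    refine ev_ind (P := fun v => PiL hG g (io ψ ψ' v) ∈ EE ψ ψ') v ?_ ?_ ?_ ?_
    · rw [map_zero, map_zero]
      exact (EE ψ ψ').zero_mem
    · intro v w hv hw
      rw [map_add, map_add]
      exact (EE ψ ψ').add_mem hv hw
    · intro c v hv
      rw [map_smul, map_smul]
      exact (EE ψ ψ').smul_mem _ hv
    · intro n j
      exact PiL_ev_mem hD hD' hψ hψ' hG hw hrot g n j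
  refine closure_minimal (s := (LinearMap.range (io ψ ψ') : Set FF2)) ?_ hcl hf
  rintro _ ⟨v, rfl⟩
  exact h1 v

end Pool.Agent.H40.SG
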