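import Pool.Agent.H40.SG.Model2
import Pool.Agent.H40.SG.Fin

/-!
# The weighted sup norms belong to `Norm(V, w)`

Adapt `Pool/Agent/H60/Sob/Model3.lean` (`piE`, `iotE`, `model_inNorm`, `hasDerivAt_subtype`).
-/

set_option autoImplicit false

namespace Pool.Agent.H40.SG

open Complex Topology Filter
open Pool.Agent.H60.Sob (DD cfac mu CircAct proj projL hasDerivAt_subtype)

variable {D D' : Dat} {k α k' α' : ℕ} {w : G → ℝ} {ψ ψ' : ℕ → C(DD, ℂ)}

theorem ten_ne {f h : C(DD, ℂ)} (hf : f ≠ 0) (hh : h ≠ 0) : ten f h ≠ 0 := by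
  have h1 : ∃ Z, f Z ≠ 0 := by
    by_contra hcon
    push Not at hcon
    exact hf (ContinuousMap.ext fun Z => hcon Z)
  have h2 : ∃ Z, h Z ≠ 0 := by
    by_contra hcon
    push Not at hcon
    exact hh (ContinuousMap.ext fun Z => hcon Z)
  obtain ⟨Z, hZ⟩ := h1
  obtain ⟨Z', hZ'⟩ := h2
  intro h0
  have h3 : ten f h (Z, Z') = 0 := by
    rw [h0]
    rfl
  rw [ten_apply] at h3
  exact mul_ne_zero hZ hZ' h3

theorem EE_complete : CompleteSpace (EE ψ ψ') := EE_closed.completeSpace_coe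

/-- The representation on `EE`. -/
noncomputable def piE (hD : D.OK) (hD' : D'.OK) (hψ : Fam D k α ψ) (hψ' : Fam D' k' α' ψ')
    (hG : GrowthOK k α k' α' w) (hw : ∀ g, 0 < w g) (hrot : ∀ φ χ, w (rt φ, rt χ) ≤ 1) :
    G →* (EE ψ ψ' →L[ℂ] EE ψ ψ') where
  toFun g := ((PiL hG g).comp (EE ψ ψ').subtypeL).codRestrict (EE ψ ψ')
    (fun f => PiL_mem hD hD' hψ hψ' hG hw hrot g f f.2)
  map_one' := by
    ext1 f
    apply Subtype.ext
    show PiL hG 1 (f : FF2) = f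
    rw [map_one]
    rfl
  map_mul' g h := by
    ext1 f
    apply Subtype.ext
    show PiL hG (g * h) (f : FF2) = PiL hG g (PiL hG h (f : FF2))
    rw [map_mul]
    rfl

/-- The embedding into `EE`. -/
noncomputable def ioE (ψ ψ' : ℕ → C(DD, ℂ)) : Sp →ₗ[ℂ] EE ψ ψ' :=
  (io ψ ψ').codRestrict (EE ψ ψ') io_mem

theorem ioE_coe (v : Sp) : ((ioE ψ ψ' v : EE ψ ψ') : FF2) = io ψ ψ' v := rfl

theorem ioE_dense : DenseRange (ioE ψ ψ') := by
  intro f
  have hf : (f : FF2) ∈ closure (LinearMap.range (io ψ ψ') : Set FF2) := f.2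
  rw [closure_subtype]
  refine closure_mono ?_ hf
  rintro _ ⟨v, rfl⟩
  exact ⟨ioE ψ ψ' v, ⟨v, rfl⟩, rfl⟩

/-- The closed subspace `EE` with the restricted action. -/
theorem act_E (hD : D.OK) (hD' : D'.OK) (hψ : Fam D k α ψ) (hψ' : Fam D' k' α' ψ')
    (hG : GrowthOK k α k' α' w) (hw : ∀ g, 0 < w g) (hrot : ∀ φ χ, w (rt φ, rt χ) ≤ 1) :
    Act D D' w (piE hD hD' hψ hψ' hG hw hrot) (ioE ψ ψ') 1 := by
  have hA := act_model hψ hψ' hG hw hrot
  refine ⟨?_, fun g v => ?_, fun X γ hX v => ?_, fun g => ?_, hrot, hw⟩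
  · have h1 : Continuous fun p : G × EE ψ ψ' => p.1 := continuous_fst
    have h2 : Continuous fun p : G × EE ψ ψ' => (p.2 : FF2) :=
      continuous_subtype_val.comp continuous_snd
    exact Continuous.subtype_mk ((PiL_cont hG).comp (h1.prodMk h2)) _
  · apply Subtype.ext
    exact hA.hK g v
  · apply hasDerivAt_subtype
    exact hA.deriv X γ hX v
  · refine ContinuousLinearMap.opNorm_le_bound _ (by rw [one_mul]; exact (hw g).le) (fun f => ?_)
    have h1 := (PiL hG g).le_opNorm (f : FF2)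
    exact h1.trans (mul_le_mul_of_nonneg_right (PiL_bd hG hw g) (norm_nonneg _))

theorem model_inNorm (hD : D.OK) (hD' : D'.OK) (hψ : Fam D k α ψ) (hψ' : Fam D' k' α' ψ')
    (hG : GrowthOK k α k' α' w) (hw : ∀ g, 0 < w g) (hrot : ∀ φ χ, w (rt φ, rt χ) ≤ 1) :
    InNorm (modP hD hD') w (fun v => ‖io ψ ψ' v‖) := by
  have hcomp : CompleteSpace (EE ψ ψ') := EE_complete
  have hA := act_E hD hD' hψ hψ' hG hw hrot
  have hne : ∀ n j, ioE ψ ψ' (ev n j) ≠ 0 := by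
    intro n j h0
    have h1 : io ψ ψ' (ev n j) = 0 := by
      rw [← ioE_coe, h0]
      rfl
    rw [io_ev] at h1
    exact ten_ne (hψ.ne n) (hψ'.ne j) h1
  refine ⟨EE ψ ψ', inferInstance, inferInstance, hcomp, piE hD hD' hψ hψ' hG hw hrot, ioE ψ ψ',
    hA.injective hne, ioE_dense, fun v => rfl, hA.cont, fun e => ⟨fun hF => ?_, ?_⟩,
    fun g v => hA.hK g v, fun X γ hX v => hA.deriv X γ hX v, 1, hA.bd⟩
  · exact hA.fin_mem ioE_dense e hF
  · rintro ⟨v, rfl⟩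
    exact hA.mem_fin v

end Pool.Agent.H40.SG
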