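import Pool.Agent.H40.SG.Glob

/-!
# The weight

Adapt the beginning of `Pool/Agent/H60/Sob/Bounds.lean` (`wgt_mul`, `wgt_cont`, `wgt_isWeight`,
`wgt_hyp_cen`). There `tn n` is the time with `cosh (tn n) ^ 2 = n + 2`, see `sinh_tn`, `cosh_tn_sq`,
`tanh_pow`, `tn_pos`; these lemmas are used as they are.
-/

set_option autoImplicit false

namespace Pool.Agent.H40.SG

open Complex Topology Filter
open Pool.Agent.H60.Sob (tn tn_pos sinh_tn cosh_tn_sq tanh_pow)

/-- The size of an element of `SU(1,1)`. -/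
noncomputable def sz (g : SU11) : ℝ := ‖g.1.1 0 0‖ + ‖g.1.1 0 1‖

private theorem mul00 (g h : SU11) : (g * h).1.1 0 0 =
    g.1.1 0 0 * h.1.1 0 0 + g.1.1 0 1 * starRingEnd ℂ (h.1.1 0 1) :=
  Pool.Agent.H60.Sob.G_mul_00 (g, 1) (h, 1)

private theorem mul01 (g h : SU11) : (g * h).1.1 0 1 =
    g.1.1 0 0 * h.1.1 0 1 + g.1.1 0 1 * starRingEnd ℂ (h.1.1 0 0) :=
  Pool.Agent.H60.Sob.G_mul_01 (g, 1) (h, 1)

theorem sz_mul (g h : SU11) : sz (g * h) ≤ sz g * sz h := by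
  unfold sz
  rw [mul00, mul01]
  refine (add_le_add (norm_add_le _ _) (norm_add_le _ _)).trans ?_
  simp only [norm_mul, RCLike.norm_conj]
  nlinarith [norm_nonneg (g.1.1 0 0)]

theorem one_le_sz (g : SU11) : 1 ≤ sz g := Pool.Agent.H60.Sob.SU_one_le (g, 1)

theorem sz_rt (φ : ℝ) : sz (rt φ) = 1 := by
  unfold sz
  rw [rt_00, rt_01, norm_zero, add_zero, Complex.norm_exp_ofReal_mul_I]

theorem sz_cont : Continuous sz := by
  have h : ∀ i j : Fin 2, Continuous fun g : SU11 => g.1.1 i j := by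
    intro i j
    have h1 : Continuous fun g : SU11 => g.1 := continuous_subtype_val
    have h2 : Continuous fun g : SU11 => g.1.1 := continuous_subtype_val.comp h1
    exact (continuous_apply j).comp ((continuous_apply i).comp h2)
  exact ((h 0 0).norm).add ((h 0 1).norm)

/-- The weight `w(g, g') = max (|g|^(2 d), |g'|^2)`. -/
noncomputable def wgt (d : ℕ) (g : G) : ℝ := max (sz g.1 ^ (2 * d)) (sz g.2 ^ 2)

private theorem sz_pos (g : SU11) : 0 < sz g := lt_of_lt_of_le one_pos (one_le_sz g)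

theorem wgt_pos (d : ℕ) (g : G) : 0 < wgt d g :=
  lt_of_lt_of_le (pow_pos (sz_pos g.2) 2) (le_max_right _ _)

theorem wgt_rot (d : ℕ) (φ ψ : ℝ) : wgt d (rt φ, rt ψ) ≤ 1 := by
  unfold wgt
  rw [sz_rt, sz_rt, one_pow, one_pow, max_self]

theorem wgt_isWeight (d : ℕ) : IsWeight (wgt d) := by
  have hc : Continuous (wgt d) := by
    have h1 : Continuous fun g : G => sz g.1 ^ (2 * d) := (sz_cont.comp continuous_fst).pow _
    have h2 : Continuous fun g : G => sz g.2 ^ 2 := (sz_cont.comp continuous_snd).pow _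
    exact h1.max h2
  refine ⟨wgt_pos d, fun g h => ?_, fun g => ⟨wgt d g + 1, ?_⟩⟩
  · have p1 : 0 < wgt d g := wgt_pos d g
    have p2 : 0 < wgt d h := wgt_pos d h
    have q1 := (sz_pos h.1).le
    have q2 := (sz_pos h.2).le
    have q3 := (sz_pos (g * h).1).le
    have q4 := (sz_pos (g * h).2).le
    refine max_le ?_ ?_
    · calc sz (g * h).1 ^ (2 * d) ≤ (sz g.1 * sz h.1) ^ (2 * d) :=
            pow_le_pow_left₀ q3 (sz_mul g.1 h.1) _
        _ = sz g.1 ^ (2 * d) * sz h.1 ^ (2 * d) := mul_pow _ _ _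
        _ ≤ wgt d g * wgt d h :=
            mul_le_mul (le_max_left _ _) (le_max_left _ _) (pow_nonneg q1 _) p1.le
    · calc sz (g * h).2 ^ 2 ≤ (sz g.2 * sz h.2) ^ 2 :=
            pow_le_pow_left₀ q4 (sz_mul g.2 h.2) _
        _ = sz g.2 ^ 2 * sz h.2 ^ 2 := mul_pow _ _ _
        _ ≤ wgt d g * wgt d h :=
            mul_le_mul (le_max_right _ _) (le_max_right _ _) (pow_nonneg q2 _) p1.le
  · filter_upwards [hc.continuousAt.eventually (gt_mem_nhds (lt_add_one (wgt d g)))]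
      with h hh using hh.le

private theorem sz_hy {t : ℝ} (ht : 0 < t) : sz (hy t) = Real.cosh t + Real.sinh t := by
  unfold sz
  rw [hy_00, hy_01, Complex.norm_real, Complex.norm_real, Real.norm_eq_abs, Real.norm_eq_abs,
    abs_of_pos (Real.cosh_pos _), abs_of_pos (Real.sinh_pos_iff.mpr ht)]

private theorem sz_hy_pow (n k : ℕ) : sz (hy (tn n)) ^ (2 * k) ≤ 4 ^ k * ((n:ℝ) + 2) ^ k := by
  have h0 : 0 < Real.cosh (tn n) := Real.cosh_pos _
  have h1 : 0 < Real.sinh (tn n) := Real.sinh_pos_iff.mpr (tn_pos n)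
  have h2 : Real.sinh (tn n) ≤ Real.cosh (tn n) := (Real.sinh_lt_cosh _).le
  rw [sz_hy (tn_pos n)]
  calc (Real.cosh (tn n) + Real.sinh (tn n)) ^ (2 * k) ≤ (2 * Real.cosh (tn n)) ^ (2 * k) :=
        pow_le_pow_left₀ (by positivity) (by linarith) _
    _ = 4 ^ k * ((n:ℝ) + 2) ^ k := by
        rw [pow_mul, mul_pow, cosh_tn_sq, mul_pow]
        norm_num

/-- The weight at the times `tn n`, `tn N`. -/
theorem wgt_hy (d : ℕ) (hd : 0 < d) (n N : ℕ) :
    wgt d (hy (tn n), hy (tn N)) ≤ 4 ^ d * max (((n:ℝ) + 2) ^ d) ((N:ℝ) + 2) := by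
  have h4 : (4:ℝ) ≤ 4 ^ d := by
    calc (4:ℝ) = 4 ^ 1 := by norm_num
      _ ≤ 4 ^ d := pow_le_pow_right₀ (by norm_num) hd
  have h5 : (0:ℝ) < 4 ^ d := by positivity
  unfold wgt
  refine max_le ((sz_hy_pow n d).trans ?_) ?_
  · exact mul_le_mul_of_nonneg_left (le_max_left _ _) h5.le
  · have h6 := sz_hy_pow N 1
    rw [mul_one, pow_one, pow_one] at h6
    have h7 : (0:ℝ) ≤ (N:ℝ) + 2 := by positivity
    calc sz (hy (tn N)) ^ 2 ≤ 4 * ((N:ℝ) + 2) := h6
      _ ≤ 4 ^ d * ((N:ℝ) + 2) := mul_le_mul_of_nonneg_right h4 h7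
      _ ≤ _ := mul_le_mul_of_nonneg_left (le_max_right _ _) h5.le

/-- The weight at the times `tn n` and `1`. -/
theorem wgt_hy_one (d : ℕ) (hd : 0 < d) (n : ℕ) :
    wgt d (hy (tn n), hy 1) ≤ 8 * 4 ^ d * ((n:ℝ) + 2) ^ d := by
  have h4 : (1:ℝ) ≤ 4 ^ d := one_le_pow₀ (by norm_num)
  have h3 : (1:ℝ) ≤ ((n:ℝ) + 2) ^ d := one_le_pow₀ (by linarith [Nat.cast_nonneg (α := ℝ) n])
  have h5 : (0:ℝ) < 4 ^ d * ((n:ℝ) + 2) ^ d := by positivity
  unfold wgt
  refine max_le ((sz_hy_pow n d).trans ?_) ?_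
  · nlinarith
  · rw [sz_hy one_pos, Real.cosh_add_sinh]
    have h6 := Real.exp_one_lt_d9
    have h7 := Real.exp_pos 1
    have h8 : Real.exp 1 ^ 2 ≤ 8 := by nlinarith
    have h9 : (1:ℝ) ≤ 4 ^ d * ((n:ℝ) + 2) ^ d := by nlinarith
    nlinarith

/-- `tanh (tn N) ^ j ≥ 1/2` for `j ≤ N`. -/
theorem tanh_pow_le {j N : ℕ} (h : j ≤ N) :
    (1:ℝ)/2 ≤ (Real.sinh (tn N) / Real.cosh (tn N)) ^ j := by
  have h0 : 0 < Real.cosh (tn N) := Real.cosh_pos _
  have h1 : 0 < Real.sinh (tn N) := Real.sinh_pos_iff.mpr (tn_pos N)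
  refine (tanh_pow N).trans (pow_le_pow_of_le_one (by positivity) ?_ h)
  rw [div_le_one h0]
  exact (Real.sinh_lt_cosh _).le

/-- Lower bound for the binomial coefficient in `ctop (hol k)`. -/
theorem ctop_hol_lower (k : ℕ) (hk : 0 < k) : ∃ F : ℝ, 0 < F ∧ ∀ n : ℕ,
    ((n:ℝ) + 2) ^ (k - 1) ≤ F * ((∏ i ∈ Finset.range n, ((hol k).r i : ℝ)) / n.factorial) := by
  refine ⟨((2 ^ (k - 1) * (k - 1).factorial : ℕ) : ℝ), by positivity, fun n => ?_⟩
  have hp : ∏ i ∈ Finset.range n, ((hol k).r i : ℝ) = (k.ascFactorial n : ℝ) := by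
    induction n with
    | zero => simp
    | succ n ih =>
      rw [Finset.prod_range_succ, ih, Nat.ascFactorial_succ]
      show _ * ((((k:ℤ) + (n:ℤ) : ℤ)) : ℝ) = _
      push_cast
      ring
  have hq : (k.ascFactorial n : ℝ) / n.factorial = ((k + n - 1).choose n : ℝ) := by
    rw [Nat.ascFactorial_eq_factorial_mul_choose' k n, Nat.cast_mul]
    have : (n.factorial : ℝ) ≠ 0 := by positivity
    field_simp
  rw [hp, hq]
  have h1 : (n + 1) ^ (k - 1) ≤ (k - 1).factorial * (k + n - 1).choose n := by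
    have h2 := Nat.pow_succ_le_ascFactorial (n + 1) (k - 1)
    have h3 := Nat.ascFactorial_eq_factorial_mul_choose n (k - 1)
    have h4 : (n + (k - 1)).choose (k - 1) = (k + n - 1).choose n := by
      have h5 : k + n - 1 = n + (k - 1) := by omega
      rw [h5]
      rw [← Nat.choose_symm_add]
    rw [← h4, ← h3]
    exact h2
  have h2 : (n + 2) ^ (k - 1) ≤ (2 ^ (k - 1) * (k - 1).factorial) * (k + n - 1).choose n := by
    calc (n + 2) ^ (k - 1) ≤ (2 * (n + 1)) ^ (k - 1) := by gcongr; omega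
      _ = 2 ^ (k - 1) * (n + 1) ^ (k - 1) := mul_pow _ _ _
      _ ≤ 2 ^ (k - 1) * ((k - 1).factorial * (k + n - 1).choose n) := by gcongr
      _ = _ := by ring
  exact_mod_cast h2

theorem ctop_ver (n : ℕ) : (∏ i ∈ Finset.range n, (ver.r i : ℝ)) / n.factorial = 1 := by
  have hp : ∏ i ∈ Finset.range n, (ver.r i : ℝ) = (n.factorial : ℝ) := by
    rw [← Finset.prod_range_add_one_eq_factorial]
    push_cast
    refine Finset.prod_congr rfl fun i _ => ?_
    show ((((i:ℤ) + 1 : ℤ)) : ℝ) = _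
    push_cast
    ring
  rw [hp, div_self (by positivity)]

end Pool.Agent.H40.SG
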