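import Pool.Agent.H40.SG.Model3
import Pool.Agent.H40.SG.FamVer
import Pool.Agent.H40.SG.Wgt
import Pool.Agent.H60.Sob.Final

/-!
# The norms on `V` and `U`

Adapt `Pool/Agent/H60/Sob/Final.lean` (`growth_V`, `growth_U`, `p_lower`, `q_upper`).
-/

set_option autoImplicit false

namespace Pool.Agent.H40.SG

open Complex Topology Filter
open Pool.Agent.H60.Sob (DD cfac mu den Zf Wf cfac_norm_le cfac_norm_eq)

/-- The functions `Wf^α Zf^n`. -/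
noncomputable def fh (α : ℕ) (n : ℕ) : C(DD, ℂ) := Wf ^ α * Zf ^ n

private lemma norms_cfac43 (g : Pool.Agent.H60.Sob.G) (Z : DD) :
    ‖cfac 4 3 g Z‖ ≤ (‖g.1.1.1 0 0‖ + ‖g.1.1.1 0 1‖) ^ 2 := by
  unfold Pool.Agent.H60.Sob.cfac
  rw [norm_div, norm_pow, Complex.norm_real, Real.norm_of_nonneg (by positivity)]
  have hd := norm_pos_iff.mpr (Pool.Agent.H60.Sob.den_ne g Z)
  have h2 := Pool.Agent.H60.Sob.den_upper g Z
  rw [div_le_iff₀ (by positivity)]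
  have e1 : ‖den g Z‖ ^ (2 * 3) = ‖den g Z‖ ^ 2 * ‖den g Z‖ ^ 4 := by ring
  rw [e1]
  gcongr

private lemma norms_Wf_le (Z : DD) : ‖Wf Z‖ ≤ 1 := by
  rw [Pool.Agent.H60.Sob.Wf_apply, Complex.norm_real, Real.norm_eq_abs, abs_le]
  have hZ := Pool.Agent.H60.Sob.DD_norm Z
  have h0 := norm_nonneg (Z : ℂ)
  constructor <;> nlinarith

theorem growth_V (d α : ℕ) (h : α ≤ 2 * d) : GrowthOK (2 * d) α 4 2 (wgt d) := by
  intro g Z Z'
  have h1 := Pool.Agent.H60.Sob.cfac_norm_le h (up g.1) Z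
  have h2 : ‖cfac 4 2 (up g.2) Z'‖ = 1 := Pool.Agent.H60.Sob.cfac_norm_eq 2 (up g.2) Z'
  rw [h2, mul_one]
  exact h1.trans (le_max_left _ _)

theorem growth_U (d : ℕ) : GrowthOK (2 * d) d 4 3 (wgt d) := by
  intro g Z Z'
  have h1 := norms_cfac43 (up g.2) Z'
  rw [Pool.Agent.H60.Sob.cfac_norm_eq d (up g.1) Z, one_mul]
  exact h1.trans (le_max_right _ _)

theorem norm_V {d : ℕ} (hd : 0 < d) (α : ℕ) (h : α ≤ 2 * d) :
    InNorm (modP (hol_OK (k := 2 * d) (by omega)) (hol_OK (k := 4) (by omega))) (wgt d)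
      (fun v => ‖io (fh α) (fh 2) v‖) :=
  model_inNorm _ _ (fam_hol (2 * d) α) (fam_hol 4 2) (growth_V d α h) (wgt_pos d) (wgt_rot d)

theorem norm_U {d : ℕ} (hd : 0 < d) :
    InNorm (modP (hol_OK (k := 2 * d) (by omega)) ver_OK) (wgt d)
      (fun v => ‖io (fh d) chi v‖) :=
  model_inNorm _ _ (fam_hol (2 * d) d) fam_ver (growth_U d) (wgt_pos d) (wgt_rot d)

theorem p_lower : ∃ c : ℝ, 0 < c ∧ ∀ n : ℕ, c ≤ ‖io (fh 0) (fh 2) (ev n 0)‖ := by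
  refine ⟨1, one_pos, fun n => ?_⟩
  rw [io_ev]
  have h1 : ‖(ten (fh 0 n) (fh 2 0)) (⟨1, by simp⟩, ⟨0, by simp⟩)‖ ≤ ‖ten (fh 0 n) (fh 2 0)‖ :=
    ContinuousMap.norm_coe_le_norm _ _
  refine le_trans (le_of_eq ?_) h1
  rw [ten_apply]
  unfold fh
  simp

theorem q_upper (d N : ℕ) : ((N + 2 * d).choose (2 * d) : ℝ) *
    ‖io (fh (2 * d)) (fh 2) (ev (2 * N) 0)‖ ≤ 1 := by
  have hpos : (0:ℝ) < ((N + 2 * d).choose (2 * d) : ℝ) := by
    exact_mod_cast Nat.choose_pos (by omega)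
  rw [← le_div_iff₀' hpos, ContinuousMap.norm_le _ (by positivity)]
  rintro ⟨Z, Z'⟩
  rw [io_ev, ten_apply]
  unfold fh
  simp only [ContinuousMap.mul_apply, ContinuousMap.pow_apply, pow_zero, mul_one]
  have hW := norms_Wf_le Z'
  have hW2 : ‖Wf Z' ^ 2‖ ≤ 1 := by
    rw [norm_pow]
    exact pow_le_one₀ (norm_nonneg _) hW
  rw [norm_mul]
  refine (mul_le_of_le_one_right (norm_nonneg _) hW2).trans ?_
  simp only [Pool.Agent.H60.Sob.Zf_apply, Pool.Agent.H60.Sob.Wf_apply]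
  have hZ := Pool.Agent.H60.Sob.DD_norm Z
  set x : ℝ := ‖(Z:ℂ)‖ ^ 2 with hx
  have hx0 : 0 ≤ x := by positivity
  have hx1 : x ≤ 1 := by rw [hx]; nlinarith [norm_nonneg (Z:ℂ)]
  rw [norm_mul, norm_pow, norm_pow, Complex.norm_real, Real.norm_of_nonneg (by linarith),
    pow_mul ‖(Z:ℂ)‖, ← hx, le_div_iff₀' hpos]
  have h1 := add_pow x (1 - x) (N + 2 * d)
  rw [add_sub_cancel, one_pow] at h1
  refine le_trans ?_ (le_of_eq h1.symm)
  have h2 : ((N + 2 * d).choose (2 * d) : ℝ) * ((1 - x) ^ (2 * d) * x ^ N) =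
      x ^ N * (1 - x) ^ (N + 2 * d - N) * ((N + 2 * d).choose N : ℝ) := by
    rw [Nat.add_sub_cancel_left, ← Nat.choose_symm_add]
    ring
  rw [h2]
  refine Finset.single_le_sum (f := fun m => x ^ m * (1 - x) ^ (N + 2 * d - m) *
    ((N + 2 * d).choose m : ℝ)) (fun i _ => ?_) (Finset.mem_range.mpr (by omega))
  have : 0 ≤ 1 - x := by linarith
  positivity

end Pool.Agent.H40.SG
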