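import Pool.Agent.H40.SG.Sl2

/-!
# The components of `σ (a_t) v`, explicitly

Adapt `Pool/Agent/H60/Sob/Ode.lean` (`vecHop` can be used as it is; `cf`, `ode_taylor`, `ode_solve`,
`sm_deriv`, `ode_zero`).

`Rp.top`: with `F n t = FF σ v (D.κ + 2 N) n t`, `FF_deriv` and `FF_alg` for `n = 0` (where `D.l 0 = 0`)
give `F 0 ' = (N (cosh / sinh - sinh / cosh) - D.κ sinh / cosh) F 0`, so `F 0` is a constant times
`sinh^N / cosh^(N + κ)`, and the constant is determined by the Taylor expansion at `0`.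
`Rp.ver_bot` : `F 0 = cosh² v 0`, then `F 1 = F 0 '`, `2 F 2 = F 1 ' - 2 F 0`.
-/

set_option autoImplicit false

namespace Pool.Agent.H40.SG

open Complex Topology Filter
open Pool.Agent.H60.Sob (CircAct proj projL elt hyp)

/-- The coefficient of `v N` in `σ (a_t) (v 0)`. -/
noncomputable def ctop (D : Dat) (N : ℕ) (t : ℝ) : ℝ :=
  (∏ i ∈ Finset.range N, (D.r i : ℝ)) / N.factorial * (Real.sinh t / Real.cosh t) ^ N *
    Real.cosh t ^ (-D.κ)

theorem ctop_ne {D : Dat} (hD : D.OK) (N : ℕ) {t : ℝ} (ht : 0 < t) : ctop D N t ≠ 0 := by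
  have hs : 0 < Real.sinh t := Real.sinh_pos_iff.mpr ht
  have hc : 0 < Real.cosh t := Real.cosh_pos t
  unfold ctop
  have h1 : (∏ i ∈ Finset.range N, (D.r i : ℝ)) ≠ 0 :=
    Finset.prod_ne_zero_iff.mpr fun i _ => Int.cast_ne_zero.mpr (hD.rne i)
  have h2 : ((N.factorial : ℕ) : ℝ) ≠ 0 := by positivity
  exact mul_ne_zero (mul_ne_zero (div_ne_zero h1 h2) (pow_ne_zero _ (div_ne_zero hs.ne' hc.ne')))
    (zpow_ne_zero _ hc.ne')

section Taylor

variable {E : Type*} [NormedAddCommGroup E] [NormedSpace ℝ E]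

/-- The Taylor coefficients. -/
private noncomputable def cg (r : ℕ → ℝ) (n : ℕ) : ℕ → ℝ
  | 0 => 1
  | (j + 1) => ((j:ℝ) + 1)⁻¹ * r (n - j - 1) * cg r n j

private theorem cg_eq (r : ℕ → ℝ) (n : ℕ) : ∀ j, j ≤ n → cg r n j * (j.factorial : ℝ) =
    ∏ i ∈ Finset.range j, r (n - 1 - i) := by
  intro j
  induction j with
  | zero => intro _; simp [cg]
  | succ j ih =>
    intro hj
    rw [Finset.prod_range_succ, ← ih (by omega), cg, Nat.factorial_succ]
    have : n - j - 1 = n - 1 - j := by omega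
    rw [this]
    push_cast
    have : ((j:ℝ) + 1) ≠ 0 := by positivity
    field_simp

private theorem cg_top (r : ℕ → ℝ) (n : ℕ) :
    cg r n n = (∏ i ∈ Finset.range n, r i) / (n.factorial : ℝ) := by
  have h1 := cg_eq r n n le_rfl
  rw [Finset.prod_range_reflect (fun i => r i) n] at h1
  have h3 : (n.factorial : ℝ) ≠ 0 := by positivity
  rw [← h1, mul_div_assoc, div_self h3, mul_one]

private theorem taylorg (r l : ℕ → ℝ) (n : ℕ) (F : ℕ → ℝ → E) (e : E)
    (hA : ∀ m t, HasDerivAt (F m) (r m • F (m + 1) t - l m • F (m - 1) t) t)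
    (hl : l 0 = 0) (hi : ∀ m, F m 0 = if m = n then e else 0) :
    ∀ j, j ≤ n → ∀ m, m + j ≤ n →
      Tendsto (fun t : ℝ => (t ^ j)⁻¹ • F m t) (𝓝[>] 0)
        (𝓝 (if m + j = n then cg r n j • e else 0)) := by
  intro j
  induction j with
  | zero =>
    intro _ m hm
    simp only [pow_zero, inv_one, one_smul, add_zero, cg]
    rw [← hi m]
    exact (hA m 0).continuousAt.tendsto.mono_left nhdsWithin_le_nhds
  | succ j ih =>
    intro hj m hm
    have hne : F m 0 = 0 := by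
      rw [hi m, if_neg (by omega)]
    have h1 := ih (by omega) (m + 1) (by omega)
    have h2 : Tendsto (fun t : ℝ => (t ^ j)⁻¹ • (l m • F (m - 1) t)) (𝓝[>] 0) (𝓝 0) := by
      rcases m with _ | m
      · simp [hl]
      · have h3 := ih (by omega) m (by omega)
        rw [if_neg (by omega)] at h3
        have h4 := h3.const_smul (l (m + 1))
        rw [smul_zero] at h4
        refine h4.congr (fun t => ?_)
        rw [Nat.add_sub_cancel, smul_comm]
    have h5 : Tendsto (fun t : ℝ => (t ^ j)⁻¹ • (r m • F (m + 1) t - l m • F (m - 1) t))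
        (𝓝[>] 0) (𝓝 (r m • (if m + 1 + j = n then cg r n j • e else 0))) := by
      have h6 := (h1.const_smul (r m)).sub h2
      rw [sub_zero] at h6
      refine h6.congr (fun t => ?_)
      rw [smul_sub, smul_comm]
    have h7 := Pool.Agent.H60.Sob.vecHop (F m) _ (hA m) hne j _ h5
    have h8 : ((j:ℝ) + 1)⁻¹ • (r m • (if m + 1 + j = n then cg r n j • e else 0)) =
        if m + (j + 1) = n then cg r n (j + 1) • e else 0 := by
      by_cases hmn : m + (j + 1) = n
      · rw [if_pos hmn, if_pos (by omega), smul_smul, smul_smul]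
        congr 1
        rw [cg]
        have : n - j - 1 = m := by omega
        rw [this]
      · rw [if_neg hmn, if_neg (by omega), smul_zero, smul_zero]
    rw [h8] at h7
    exact h7

/-- The solution of the differential equation for the lowest vector. -/
private theorem solveg (κ : ℤ) (r l : ℕ → ℝ) (n : ℕ) (F : ℕ → ℝ → E) (e : E)
    (hA : ∀ m t, HasDerivAt (F m) (r m • F (m + 1) t - l m • F (m - 1) t) t)
    (hl : l 0 = 0)
    (hB : ∀ t, ((κ:ℝ) + 2 * n) • F 0 t = (κ * Real.cosh (2 * t)) • F 0 t +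
      (r 0 * Real.sinh (2 * t)) • F 1 t)
    (hi : ∀ m, F m 0 = if m = n then e else 0) (t : ℝ) (ht : 0 < t) :
    F 0 t = (cg r n n * (Real.sinh t / Real.cosh t) ^ n * Real.cosh t ^ (-κ)) • e := by
  set G : ℝ → E := fun t => (Real.cosh t ^ κ * (Real.cosh t / Real.sinh t) ^ n) • F 0 t with hG
  have hGd : ∀ t, 0 < t → HasDerivAt G 0 t := by
    intro t ht
    have hs : 0 < Real.sinh t := Real.sinh_pos_iff.mpr ht
    have hc : 0 < Real.cosh t := Real.cosh_pos t
    have h8 := Real.cosh_sq_sub_sinh_sq t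
    have h0 : HasDerivAt (fun t => Real.cosh t ^ κ)
        (Real.cosh t ^ κ * (κ * (Real.sinh t / Real.cosh t))) t := by
      have h2 := (hasDerivAt_zpow κ (Real.cosh t) (Or.inl hc.ne')).comp t (Real.hasDerivAt_cosh t)
      refine h2.congr_deriv ?_
      rw [zpow_sub_one₀ hc.ne']
      field_simp
    have h0' : HasDerivAt (fun t => (Real.cosh t / Real.sinh t) ^ n)
        ((Real.cosh t / Real.sinh t) ^ n *
          (n * (Real.sinh t / Real.cosh t - Real.cosh t / Real.sinh t))) t := by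
      have h2 := ((Real.hasDerivAt_cosh t).div (Real.hasDerivAt_sinh t) hs.ne').pow n
      refine h2.congr_deriv ?_
      rcases n with _ | n
      · simp
      · rw [Nat.add_sub_cancel]
        simp only [Pi.div_apply]
        have h10 : (Real.sinh t * Real.sinh t - Real.cosh t * Real.cosh t) / Real.sinh t ^ 2 =
            (Real.cosh t / Real.sinh t) * (Real.sinh t / Real.cosh t - Real.cosh t / Real.sinh t) := by
          field_simp
        rw [h10]
        push_cast
        ring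
    have h1 := h0.mul h0'
    have h3 := h1.smul (hA 0 t)
    refine h3.congr_deriv ?_
    have h4 : r 0 • F 1 t =
        (n * (Real.cosh t / Real.sinh t - Real.sinh t / Real.cosh t) -
          κ * (Real.sinh t / Real.cosh t)) • F 0 t := by
      have h5 := hB t
      have h6 : (2 * Real.sinh t * Real.cosh t) • (r 0 • F 1 t) =
          ((κ:ℝ) + 2 * n - κ * Real.cosh (2 * t)) • F 0 t := by
        rw [sub_smul, h5, Real.sinh_two_mul]
        module
      have h7 : r 0 • F 1 t = (2 * Real.sinh t * Real.cosh t)⁻¹ •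
          (((κ:ℝ) + 2 * n - κ * Real.cosh (2 * t)) • F 0 t) := by
        rw [← h6, smul_smul, inv_mul_cancel₀ (by positivity), one_smul]
      rw [h7, smul_smul]
      congr 1
      rw [Real.cosh_two_mul]
      field_simp
      linear_combination (-(κ:ℝ) - 2 * n) * h8
    simp only [hl, zero_smul, sub_zero, zero_add, Pi.mul_apply]
    rw [h4, smul_smul, ← add_smul]
    have h9 : Real.cosh t ^ κ * (Real.cosh t / Real.sinh t) ^ n *
        (n * (Real.cosh t / Real.sinh t - Real.sinh t / Real.cosh t) -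
          κ * (Real.sinh t / Real.cosh t)) +
        (Real.cosh t ^ κ * (κ * (Real.sinh t / Real.cosh t)) * (Real.cosh t / Real.sinh t) ^ n +
        Real.cosh t ^ κ * ((Real.cosh t / Real.sinh t) ^ n *
          (n * (Real.sinh t / Real.cosh t - Real.cosh t / Real.sinh t)))) = 0 := by
      ring
    rw [h9, zero_smul]
  have hconst : ∀ s, 0 < s → G s = G t := by
    intro s hs
    refine isOpen_Ioi.is_const_of_deriv_eq_zero (s := Set.Ioi (0:ℝ)) isPreconnected_Ioi
      (fun x hx => (hGd x hx).differentiableAt.differentiableWithinAt)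
      (fun x hx => (hGd x hx).deriv) hs ht
  have hlim : Tendsto G (𝓝[>] 0) (𝓝 (cg r n n • e)) := by
    have h1 := taylorg r l n F e hA hl hi n le_rfl 0 (by omega)
    rw [if_pos (by omega)] at h1
    have hcosh : Tendsto Real.cosh (𝓝[>] 0) (𝓝 1) := by
      have := Real.continuous_cosh.tendsto 0
      rw [Real.cosh_zero] at this
      exact this.mono_left nhdsWithin_le_nhds
    have h2 : Tendsto (fun t : ℝ => Real.cosh t ^ κ * (Real.cosh t ^ n *
        ((Real.sinh t / t) ^ n)⁻¹)) (𝓝[>] 0) (𝓝 (1 ^ κ * (1 ^ n * (1 ^ n)⁻¹))) := by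
      refine Tendsto.mul ?_ (Tendsto.mul ?_ ?_)
      · exact hcosh.zpow₀ κ (Or.inl one_ne_zero)
      · exact hcosh.pow _
      · exact (Pool.Agent.H60.Sob.sinh_div_tendsto.pow n).inv₀ (by simp)
    have h3 := h2.smul h1
    rw [one_zpow, one_pow, inv_one, mul_one, mul_one, one_smul] at h3
    refine h3.congr' ?_
    filter_upwards [self_mem_nhdsWithin] with s hs
    rw [Set.mem_Ioi] at hs
    rw [hG, smul_smul]
    simp only
    congr 1
    have hsp : 0 < Real.sinh s := Real.sinh_pos_iff.mpr hs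
    rw [div_pow, div_pow]
    field_simp
  have hlim2 : Tendsto G (𝓝[>] 0) (𝓝 (G t)) := by
    refine tendsto_const_nhds.congr' ?_
    filter_upwards [self_mem_nhdsWithin] with s hs
    exact (hconst s hs).symm
  have hfin := tendsto_nhds_unique hlim hlim2
  have hs : 0 < Real.sinh t := Real.sinh_pos_iff.mpr ht
  have hc : 0 < Real.cosh t := Real.cosh_pos t
  have h10 : F 0 t = ((Real.sinh t / Real.cosh t) ^ n * Real.cosh t ^ (-κ)) • G t := by
    rw [hG]
    simp only
    rw [smul_smul]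
    have h11 : (Real.sinh t / Real.cosh t) ^ n * Real.cosh t ^ (-κ) *
        (Real.cosh t ^ κ * (Real.cosh t / Real.sinh t) ^ n) = 1 := by
      have h12 : Real.cosh t ^ (-κ) * Real.cosh t ^ κ = 1 := by
        rw [← zpow_add₀ hc.ne', neg_add_cancel, zpow_zero]
      have h13 : (Real.sinh t / Real.cosh t) ^ n * (Real.cosh t / Real.sinh t) ^ n = 1 := by
        rw [← mul_pow, div_mul_div_comm, mul_comm (Real.cosh t), div_self (by positivity), one_pow]
      calc (Real.sinh t / Real.cosh t) ^ n * Real.cosh t ^ (-κ) *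
          (Real.cosh t ^ κ * (Real.cosh t / Real.sinh t) ^ n) =
          (Real.cosh t ^ (-κ) * Real.cosh t ^ κ) *
            ((Real.sinh t / Real.cosh t) ^ n * (Real.cosh t / Real.sinh t) ^ n) := by ring
        _ = 1 := by rw [h12, h13, mul_one]
    rw [h11, one_smul]
  rw [h10, ← hfin, smul_smul]
  congr 1
  ring

end Taylor

section

variable {E : Type} [NormedAddCommGroup E] [NormedSpace ℂ E] [CompleteSpace E]
variable {D : Dat} {σ : SU11 →* (E →L[ℂ] E)} {v : ℕ → E} {C : ℝ}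

theorem Rp.top (h : Rp D σ v C) (hD : D.OK) (N : ℕ) (t : ℝ) (ht : 0 < t) :
    FF σ v (D.κ + 2 * N) 0 t = ctop D N t • v N := by
  have hl : (D.l 0 : ℝ) = 0 := by rw [hD.l0, Int.cast_zero]
  have hB : ∀ t : ℝ, ((D.κ:ℝ) + 2 * N) • FF σ v (D.κ + 2 * N) 0 t =
      (D.κ * Real.cosh (2 * t)) • FF σ v (D.κ + 2 * N) 0 t +
      ((D.r 0 : ℝ) * Real.sinh (2 * t)) • FF σ v (D.κ + 2 * N) 1 t := by
    intro t
    have h1 := FF_alg h (D.κ + 2 * N) 0 t
    rw [hl, zero_mul, zero_smul, add_zero, Nat.cast_zero, mul_zero, add_zero, Nat.zero_add] at h1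
    have h2 : (((D.κ + 2 * N : ℤ)) : ℝ) = (D.κ : ℝ) + 2 * N := by push_cast; ring
    rw [h2] at h1
    exact h1
  have hi : ∀ m : ℕ, FF σ v (D.κ + 2 * N) m 0 = if m = N then v N else 0 := by
    intro m
    rw [FF_init h]
    by_cases hm : m = N
    · rw [if_pos hm, if_pos (by rw [hm]), hm]
    · rw [if_neg hm, if_neg (by omega)]
  have h3 := solveg D.κ (fun m => (D.r m : ℝ)) (fun m => (D.l m : ℝ)) N
    (fun m => FF σ v (D.κ + 2 * N) m) (v N) (fun m t => FF_deriv h _ m t) hl hB hi t ht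
  rw [cg_top] at h3
  exact h3

theorem Rp.bot {k : ℕ} (hk : 0 < k) (h : Rp (hol k) σ v C) (n : ℕ) (t : ℝ) (ht : 0 < t) :
    FF σ v (k : ℤ) n t = ((-(Real.sinh t / Real.cosh t)) ^ n / Real.cosh t ^ k) • v 0 := by
  have hr : ∀ m : ℕ, (((hol k).r m : ℤ) : ℝ) = (k:ℝ) + m := by
    intro m
    show (((k:ℤ) + (m:ℤ) : ℤ) : ℝ) = _
    push_cast
    ring
  have hl : ∀ m : ℕ, (((hol k).l m : ℤ) : ℝ) = (m:ℝ) := by
    intro m
    show (((m:ℤ) : ℤ) : ℝ) = _
    push_cast
    ring
  have hκ : (((hol k).κ : ℤ) : ℝ) = (k:ℝ) := by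
    show (((k:ℤ) : ℤ) : ℝ) = _
    push_cast
    ring
  refine Pool.Agent.H60.Sob.ode_zero k hk (fun m => FF σ v (k:ℤ) m) (v 0) ?_ ?_ ?_ n t ht
  · intro m t
    have h1 := FF_deriv h (k:ℤ) m t
    rw [hr, hl] at h1
    exact h1
  · intro t
    have h1 := FF_alg h (k:ℤ) 0 t
    rw [hr, hl, hκ] at h1
    rw [Nat.cast_zero, zero_mul, zero_smul, add_zero, mul_zero, add_zero, Nat.zero_add] at h1
    rw [Nat.cast_zero, mul_zero, add_zero]
    have h2 : (((k:ℤ)) : ℝ) = (k : ℝ) := by push_cast; ring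
    rw [h2] at h1
    exact h1
  · intro m
    rw [FF_init h]
    have h2 : (hol k).κ = (k:ℤ) := rfl
    rw [h2]
    by_cases hm : m = 0
    · rw [if_pos hm, if_pos (by rw [hm]; simp), hm]
    · rw [if_neg hm, if_neg (by omega)]

private theorem ver_zero (h : Rp ver σ v C) (t : ℝ) (ht : 0 < t) :
    FF σ v (-2) 0 t = (Real.cosh t ^ 2) • v 0 := by
  have h1 := h.top ver_OK 0 t ht
  have h2 : (ver.κ + 2 * ((0:ℕ):ℤ)) = -2 := rfl
  rw [h2] at h1
  rw [h1]
  congr 1
  unfold ctop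
  rw [Finset.range_zero, Finset.prod_empty, Nat.factorial_zero, Nat.cast_one, div_one, pow_zero,
    mul_one, one_mul]
  have h3 : -ver.κ = ((2:ℕ):ℤ) := rfl
  rw [h3, zpow_natCast]

private theorem ver_one (h : Rp ver σ v C) (t : ℝ) (ht : 0 < t) :
    FF σ v (-2) 1 t = (2 * Real.cosh t * Real.sinh t) • v 0 := by
  have h1 := FF_deriv h (-2) 0 t
  have hr : ((ver.r 0 : ℤ) : ℝ) = 1 := by
    show ((((0:ℕ):ℤ) + 1 : ℤ) : ℝ) = 1
    simp
  have hl : ((ver.l 0 : ℤ) : ℝ) = 0 := by rw [ver_OK.l0, Int.cast_zero]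
  rw [hr, hl, one_smul, zero_smul, sub_zero, Nat.zero_add] at h1
  have h2 : HasDerivAt (fun t : ℝ => (Real.cosh t ^ 2) • v 0)
      ((2 * Real.cosh t * Real.sinh t) • v 0) t := by
    have h3 := ((Real.hasDerivAt_cosh t).pow 2).smul_const (v 0)
    refine h3.congr_deriv ?_
    congr 1
    push_cast
    ring
  have h3 : (FF σ v (-2) 0) =ᶠ[𝓝 t] fun t => (Real.cosh t ^ 2) • v 0 := by
    filter_upwards [lt_mem_nhds ht] with s hs
    exact ver_zero h s hs
  exact h1.unique (h2.congr_of_eventuallyEq h3)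

private theorem ver_two (h : Rp ver σ v C) (t : ℝ) (ht : 0 < t) :
    FF σ v (-2) 2 t = (Real.sinh t ^ 2) • v 0 := by
  have h1 := FF_deriv h (-2) 1 t
  have hr : ((ver.r 1 : ℤ) : ℝ) = 2 := by
    show ((((1:ℕ):ℤ) + 1 : ℤ) : ℝ) = 2
    norm_num
  have hl : ((ver.l 1 : ℤ) : ℝ) = -2 := by
    show (((if (1:ℕ) = 0 then 0 else ((1:ℕ):ℤ) - 3 : ℤ)) : ℝ) = -2
    norm_num
  rw [hr, hl, Nat.sub_self, ver_zero h t ht] at h1
  have h2 : HasDerivAt (fun t : ℝ => (2 * Real.cosh t * Real.sinh t) • v 0)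
      ((2 * (Real.sinh t * Real.sinh t + Real.cosh t * Real.cosh t)) • v 0) t := by
    have h3 := (((Real.hasDerivAt_cosh t).const_mul 2).mul (Real.hasDerivAt_sinh t)).smul_const (v 0)
    refine h3.congr_deriv ?_
    congr 1
    ring
  have h3 : (FF σ v (-2) 1) =ᶠ[𝓝 t] fun t => (2 * Real.cosh t * Real.sinh t) • v 0 := by
    filter_upwards [lt_mem_nhds ht] with s hs
    exact ver_one h s hs
  have h4 := h1.unique (h2.congr_of_eventuallyEq h3)
  have h5 : (2:ℝ) • FF σ v (-2) (1 + 1) t = (2:ℝ) • ((Real.sinh t ^ 2) • v 0) := by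
    have h6 : (2:ℝ) • FF σ v (-2) (1 + 1) t =
        ((2 * (Real.sinh t * Real.sinh t + Real.cosh t * Real.cosh t)) • v 0) +
        (-2:ℝ) • ((Real.cosh t ^ 2) • v 0) := by
      rw [← h4, sub_add_cancel]
    rw [h6, smul_smul, smul_smul, ← add_smul]
    congr 1
    ring
  exact smul_right_injective E (two_ne_zero : (2:ℝ) ≠ 0) h5

theorem Rp.ver_bot (h : Rp ver σ v C) (n : ℕ) (hn : n ≤ 2) (t : ℝ) (ht : 0 < t) :
    FF σ v (-2) n t =
      (((2 : ℕ).choose n : ℝ) * Real.sinh t ^ n * Real.cosh t ^ (2 - n)) • v 0 := by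
  rcases n with _ | _ | _ | n
  · rw [ver_zero h t ht]
    congr 1
    simp
  · rw [ver_one h t ht]
    congr 1
    simp
    ring
  · rw [ver_two h t ht]
    congr 1
    simp
  · omega

/-- The vectors `v 3, v 4, ...` behave as the basis of the discrete series of weight `4`. -/
theorem Rp.shift (h : Rp ver σ v C) : Rp (hol 4) σ (fun n => v (n + 3)) C where
  cont := h.cont
  bd := h.bd
  wt := by
    intro φ n
    have h1 := h.wt φ (n + 3)
    have h2 : ver.κ + 2 * ((n + 3 : ℕ) : ℤ) = (hol 4).κ + 2 * (n : ℤ) := by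
      show (-2 : ℤ) + 2 * ((n + 3 : ℕ) : ℤ) = ((4:ℕ):ℤ) + 2 * (n : ℤ)
      push_cast
      ring
    rw [h2] at h1
    exact h1
  deriv := by
    intro X γ hγ n
    have h1 := h.deriv X γ hγ (n + 3)
    refine h1.congr_deriv ?_
    have hκ : (ver.κ : ℂ) + 2 * ((n + 3 : ℕ) : ℂ) = ((hol 4).κ : ℂ) + 2 * (n : ℂ) := by
      show ((-2 : ℤ) : ℂ) + 2 * ((n + 3 : ℕ) : ℂ) = (((4:ℕ):ℤ) : ℂ) + 2 * (n : ℂ)
      push_cast
      ring
    have hr : (ver.r (n + 3) : ℂ) = ((hol 4).r n : ℂ) := by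
      show ((((n + 3 : ℕ) : ℤ) + 1 : ℤ) : ℂ) = ((((4:ℕ):ℤ) + (n:ℤ) : ℤ) : ℂ)
      push_cast
      ring
    have hl : (ver.l (n + 3) : ℂ) = ((hol 4).l n : ℂ) := by
      show ((if n + 3 = 0 then 0 else ((n + 3 : ℕ) : ℤ) - 3 : ℤ) : ℂ) = (((n:ℤ) : ℤ) : ℂ)
      rw [if_neg (by omega)]
      push_cast
      ring
    rw [hκ, hr, hl]
    rcases n with _ | n
    · have h0 : ((hol 4).l 0 : ℂ) = 0 := by
        rw [(hol_OK (by norm_num : 0 < 4)).l0, Int.cast_zero]
      rw [h0, zero_mul, zero_smul, zero_smul]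
    · rfl

end

end Pool.Agent.H40.SG
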