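import Pool.Agent.H40.SG.Mod

/-!
# Representations of `SU(1,1)` on a Banach space with a lowest weight family

Adapt `Pool/Agent/H60/Sob/Glob.lean` (`circAct_of`, `Glob.deriv_at`, `FF`, `FF_deriv`, `FF_alg`,
`FF_init`) and the one-parameter subgroups of `Pool/Agent/H60/Sob/Grp.lean` (`isExp_hyp`,
`isExp_conj`, to be used through `g ↦ (g, 1)` or proved again).
-/

set_option autoImplicit false

namespace Pool.Agent.H40.SG

open Complex Topology Filter
open Pool.Agent.H60.Sob (CircAct proj projL elt hyp)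

/-- The hyperbolic one-parameter subgroup of `SU(1,1)`. -/
noncomputable def hy (t : ℝ) : SU11 := (hyp t).1

theorem hy_00 (t : ℝ) : (hy t).1.1 0 0 = Real.cosh t := rfl
theorem hy_01 (t : ℝ) : (hy t).1.1 0 1 = Real.sinh t := rfl

theorem rt_11 (t : ℝ) : (rt t).1.1 1 1 = exp (-(t * I)) := rfl
theorem rt_00 (t : ℝ) : (rt t).1.1 0 0 = exp (t * I) := rfl
theorem rt_01 (t : ℝ) : (rt t).1.1 0 1 = 0 := rfl

theorem hy_add (s t : ℝ) : hy (s + t) = hy s * hy t :=
  congrArg Prod.fst (Pool.Agent.H60.Sob.hyp_add s t)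

theorem hy_zero : hy 0 = 1 := congrArg Prod.fst Pool.Agent.H60.Sob.hyp_zero

theorem rt_add (s t : ℝ) : rt (s + t) = rt s * rt t :=
  congrArg (fun k : Pool.Agent.H60.Sob.K => (k : Pool.Agent.H60.Sob.G).1)
    (Pool.Agent.H60.Sob.rot_add s t)

theorem rt_zero : rt 0 = 1 :=
  congrArg (fun k : Pool.Agent.H60.Sob.K => (k : Pool.Agent.H60.Sob.G).1)
    Pool.Agent.H60.Sob.rot_zero

theorem rt_two_pi (s : ℝ) : rt (s + 2 * Real.pi) = rt s :=
  congrArg (fun k : Pool.Agent.H60.Sob.K => (k : Pool.Agent.H60.Sob.G).1)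
    (Pool.Agent.H60.Sob.rot_two_pi s)

theorem cont_rt : Continuous rt := continuous_fst.comp Pool.Agent.H60.Sob.cont_rot

theorem isExp1_hy : IsExp1 (elt 0 1 0).1 hy :=
  ⟨hy_add, Pool.Agent.H60.Sob.isExp_hyp.2.1⟩

theorem isExp1_conj (t : ℝ) :
    IsExp1 (elt (Real.cosh (2 * t)) (Real.sinh (2 * t) * I) 0).1
      (fun φ => hy (-t) * rt φ * hy t) :=
  ⟨fun s s' => congrArg Prod.fst ((Pool.Agent.H60.Sob.isExp_conj t).1 s s'),
    (Pool.Agent.H60.Sob.isExp_conj t).2.1⟩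

section

variable {E : Type} [NormedAddCommGroup E] [NormedSpace ℂ E]

/-- A continuous representation `σ` of `SU(1,1)` on a Banach space, with vectors `v 0, v 1, ...` on
which the Lie algebra and the torus act as on the basis of the lowest weight module with data
`D`. -/
structure Rp (D : Dat) (σ : SU11 →* (E →L[ℂ] E)) (v : ℕ → E) (C : ℝ) : Prop where
  cont : Continuous (fun x : SU11 × E => σ x.1 x.2)
  bd : ∀ φ, ‖σ (rt φ)‖ ≤ C
  wt : ∀ (φ : ℝ) (n : ℕ), σ (rt φ) (v n) = exp (-(((D.κ + 2 * n : ℤ) : ℂ) * φ * I)) • v n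
  deriv : ∀ (X : su11) (γ : ℝ → SU11), IsExp1 X γ → ∀ n : ℕ,
    HasDerivAt (fun t => σ (γ t) (v n))
      ((-(X.1 0 0) * (D.κ + 2 * n)) • v n + (D.r n * starRingEnd ℂ (X.1 0 1)) • v (n + 1) -
        (D.l n * X.1 0 1) • v (n - 1)) 0

variable {D : Dat} {σ : SU11 →* (E →L[ℂ] E)} {v : ℕ → E} {C : ℝ}

theorem Rp.circ (h : Rp D σ v C) : CircAct (fun φ => σ (rt φ)) C where
  cont e := h.cont.comp (cont_rt.prodMk continuous_const)
  add s t e := by rw [rt_add, map_mul]; rfl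
  zero e := by rw [rt_zero]; simp
  per s e := by rw [rt_two_pi]
  bd φ e := ((σ (rt φ)).le_opNorm e).trans (by gcongr; exact h.bd φ)

/-- The derivative at any time. -/
theorem Rp.deriv_at (h : Rp D σ v C) {X : su11} {γ : ℝ → SU11} (hγ : IsExp1 X γ) (n : ℕ) (t : ℝ) :
    HasDerivAt (fun s => σ (γ s) (v n))
      (σ (γ t) ((-(X.1 0 0) * (D.κ + 2 * n)) • v n +
        (D.r n * starRingEnd ℂ (X.1 0 1)) • v (n + 1) - (D.l n * X.1 0 1) • v (n - 1))) t := by
  have h1 := h.deriv X γ hγ n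
  set w := (-(X.1 0 0) * (D.κ + 2 * n)) • v n +
        (D.r n * starRingEnd ℂ (X.1 0 1)) • v (n + 1) - (D.l n * X.1 0 1) • v (n - 1) with hw
  have h2 : HasDerivAt (fun s => σ (γ (s - t)) (v n)) w t := by
    have h3 : HasDerivAt (fun s => σ (γ s) (v n)) w (t - t) := by
      rw [sub_self]; exact h1
    exact h3.comp_sub_const t t
  have h4 := (((σ (γ t)).restrictScalars ℝ).hasFDerivAt.comp_hasDerivAt t h2)
  refine h4.congr_of_eventuallyEq (Filter.Eventually.of_forall fun s => ?_)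
  show σ (γ s) (v n) = σ (γ t) (σ (γ (s - t)) (v n))
  have h5 : γ s = γ t * γ (s - t) := by rw [← hγ.1, add_sub_cancel]
  rw [h5, map_mul]
  rfl

/-- The component of weight `m` of `σ (a_t) (v n)`. -/
noncomputable def FF (σ : SU11 →* (E →L[ℂ] E)) (v : ℕ → E) (m : ℤ) (n : ℕ) (t : ℝ) : E :=
  proj (fun φ => σ (rt φ)) m (σ (hy t) (v n))

variable [CompleteSpace E]

theorem FF_deriv (h : Rp D σ v C) (m : ℤ) (n : ℕ) (t : ℝ) :
    HasDerivAt (FF σ v m n)
      ((D.r n : ℝ) • FF σ v m (n + 1) t - (D.l n : ℝ) • FF σ v m (n - 1) t) t := by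
  have hc := h.circ
  have h1 := h.deriv_at isExp1_hy n t
  have h2 := (((projL hc m).restrictScalars ℝ).hasFDerivAt.comp_hasDerivAt t h1)
  refine h2.congr_deriv ?_
  have e0 : (elt 0 1 0).1.1 0 0 = 0 := by
    rw [Pool.Agent.H60.Sob.elt_00]; simp
  have e1 : (elt 0 1 0).1.1 0 1 = 1 := rfl
  show projL hc m (σ (hy t) ((-((elt 0 1 0).1.1 0 0) * (D.κ + 2 * n)) • v n +
        (D.r n * starRingEnd ℂ ((elt 0 1 0).1.1 0 1)) • v (n + 1) -
        (D.l n * (elt 0 1 0).1.1 0 1) • v (n - 1))) = _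
  rw [e0, e1]
  simp only [map_sub, map_smul, Pool.Agent.H60.Sob.projL_apply, neg_zero, zero_mul, zero_smul, zero_add,
    map_one, mul_one]
  unfold FF
  rw [← Complex.coe_smul, ← Complex.coe_smul]
  push_cast
  rfl

theorem FF_alg (h : Rp D σ v C) (m : ℤ) (n : ℕ) (t : ℝ) :
    (m : ℝ) • FF σ v m n t =
      (((D.κ : ℝ) + 2 * n) * Real.cosh (2 * t)) • FF σ v m n t +
      ((D.r n : ℝ) * Real.sinh (2 * t)) • FF σ v m (n + 1) t +
      ((D.l n : ℝ) * Real.sinh (2 * t)) • FF σ v m (n - 1) t := by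
  have hc := h.circ
  have h1 : HasDerivAt (fun φ : ℝ => projL hc m (σ (rt φ) (σ (hy t) (v n))))
      (-(m * I) • FF σ v m n t) 0 := by
    have h2 : (fun φ : ℝ => projL hc m (σ (rt φ) (σ (hy t) (v n)))) =
        fun φ : ℝ => exp (-(m * φ * I)) • FF σ v m n t := by
      funext φ
      rw [Pool.Agent.H60.Sob.projL_apply]
      exact Pool.Agent.H60.Sob.proj_rot hc m φ _
    rw [h2]
    have h3 : HasDerivAt (fun φ : ℝ => exp (-(m * φ * I))) (-(m * I)) 0 := by
      have := ((((hasDerivAt_id (0:ℝ)).ofReal_comp.const_mul (m:ℂ)).mul_const I).neg.cexp)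
      simpa using this
    exact h3.smul_const _
  set X : su11 := (elt (Real.cosh (2 * t)) (Real.sinh (2 * t) * I) 0).1 with hX
  have h2 : HasDerivAt (fun φ : ℝ => projL hc m (σ (rt φ) (σ (hy t) (v n))))
      (projL hc m (σ (hy t) ((-(X.1 0 0) * (D.κ + 2 * n)) • v n +
        (D.r n * starRingEnd ℂ (X.1 0 1)) • v (n + 1) - (D.l n * X.1 0 1) • v (n - 1)))) 0 := by
    have h3 := h.deriv _ _ (isExp1_conj t) n
    have h4 := (((projL hc m).comp (σ (hy t))).restrictScalars ℝ).hasFDerivAt.comp_hasDerivAt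
      0 h3
    refine h4.congr_of_eventuallyEq (Filter.Eventually.of_forall fun φ => ?_)
    show projL hc m (σ (rt φ) (σ (hy t) (v n))) =
      projL hc m (σ (hy t) (σ (hy (-t) * rt φ * hy t) (v n)))
    have h5 : rt φ * hy t = hy t * (hy (-t) * rt φ * hy t) := by
      rw [← mul_assoc, ← mul_assoc, ← hy_add, add_neg_cancel, hy_zero, one_mul]
    congr 1
    have h6 : σ (rt φ) (σ (hy t) (v n)) = σ (rt φ * hy t) (v n) := by rw [map_mul]; rfl
    rw [h6, h5, map_mul]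
    rfl
  have h3 := h1.unique h2
  have e0 : X.1 0 0 = (Real.cosh (2 * t) : ℂ) * I := rfl
  have e1 : X.1 0 1 = (Real.sinh (2 * t) : ℂ) * I := rfl
  have e2 : starRingEnd ℂ ((Real.sinh (2 * t) : ℂ) * I) = -((Real.sinh (2 * t) : ℂ) * I) := by
    rw [map_mul, Complex.conj_ofReal, Complex.conj_I, mul_neg]
  rw [e0, e1, e2] at h3
  simp only [map_sub, map_add, map_smul, Pool.Agent.H60.Sob.projL_apply] at h3
  have h4 : ∀ n', proj (fun φ => σ (rt φ)) m (σ (hy t) (v n')) = FF σ v m n' t := fun n' => rfl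
  rw [h4, h4, h4] at h3
  have h6 : (I : ℂ) • (-((m : ℂ) * I) • FF σ v m n t) = (m : ℂ) • FF σ v m n t := by
    rw [smul_smul]
    congr 1
    linear_combination (-(m : ℂ)) * Complex.I_mul_I
  have h7 : (m : ℂ) • FF σ v m n t =
      (((D.κ : ℂ) + 2 * n) * (Real.cosh (2 * t) : ℂ)) • FF σ v m n t +
      ((D.r n : ℂ) * (Real.sinh (2 * t) : ℂ)) • FF σ v m (n + 1) t +
      ((D.l n : ℂ) * (Real.sinh (2 * t) : ℂ)) • FF σ v m (n - 1) t := by
    rw [← h6, h3]
    simp only [smul_sub, smul_add, smul_smul]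
    have hI := Complex.I_mul_I
    have f1 : I * (-((Real.cosh (2 * t) : ℂ) * I) * ((D.κ : ℂ) + 2 * n)) =
        ((D.κ : ℂ) + 2 * n) * (Real.cosh (2 * t) : ℂ) := by
      linear_combination (-((Real.cosh (2 * t) : ℂ) * ((D.κ : ℂ) + 2 * n))) * hI
    have f2 : I * ((D.r n : ℂ) * -((Real.sinh (2 * t) : ℂ) * I)) =
        (D.r n : ℂ) * (Real.sinh (2 * t) : ℂ) := by
      linear_combination (-((D.r n : ℂ) * (Real.sinh (2 * t) : ℂ))) * hI
    have f3 : I * ((D.l n : ℂ) * ((Real.sinh (2 * t) : ℂ) * I)) =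
        -((D.l n : ℂ) * (Real.sinh (2 * t) : ℂ)) := by
      linear_combination ((D.l n : ℂ) * (Real.sinh (2 * t) : ℂ)) * hI
    rw [f1, f2, f3, neg_smul, sub_neg_eq_add]
  rw [← Complex.coe_smul, ← Complex.coe_smul (((D.κ : ℝ) + 2 * n) * Real.cosh (2 * t)),
    ← Complex.coe_smul ((D.r n : ℝ) * Real.sinh (2 * t)),
    ← Complex.coe_smul ((D.l n : ℝ) * Real.sinh (2 * t))]
  push_cast
  push_cast at h7
  exact h7

theorem FF_init (h : Rp D σ v C) (m : ℤ) (n : ℕ) :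
    FF σ v m n 0 = if m = D.κ + 2 * n then v n else 0 := by
  unfold FF
  rw [hy_zero, map_one, one_apply_eq_self]
  exact Pool.Agent.H60.Sob.proj_eig h.circ m (D.κ + 2 * n) (v n) (fun φ => h.wt φ n)

end

end Pool.Agent.H40.SG
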