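import Pool.Agent.H40.SG.FamHol

/-!
# The model of the Verma module

`chi j` is the coefficient of `x^j` in `(conj Z - x)^3 / (1 - x Z)`. For the action `Tf 4 3`
(`|den|^6 / den^4`) the translate of `chi 0 = (conj Z)^3` by `g` is `(conj num)^3 / den`, and
`conj num = a (conj Z - x)`, `den = a (1 - x Z)` with `x = conj b / a`, `|x| < 1`: it is
`a^2 Σ x^j chi j` (`a = g 0 0`, `b = g 0 1`).

For `j = i + 3` : `chi j = - Wf^3 Zf^i`, so everything follows from `fam_hol 4 3` (data `hol 4`), note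
`ver.r (i + 3) = (hol 4).r i`, `ver.l (i + 3) = (hol 4).l i`, `ver.κ + 2 (i + 3) = 4 + 2 i`. For
`j = 0, 1, 2` the translates are polynomials in `num`, `den`, `1/den`, `conj num`, `conj den`:
`chi 0 -> (conj num)^3 / den`,
`chi 1 -> (conj num)^3 num / den^2 - 3 (conj num)^2 conj den / den`,
`chi 2 -> (conj num)^3 num^2 / den^3 - 3 (conj num)^2 (conj den) num / den^2
  + 3 (conj num) (conj den)^2 / den`
(multiply out `|den|^6 / den^4 = (conj den)^3 / den`); differentiate with `numf_deriv`, `denf_deriv`,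
`inv_deriv` of `Pool/Agent/H60/Sob/Model3.lean` and their conjugates.
-/

set_option autoImplicit false

namespace Pool.Agent.H40.SG

open Complex Topology Filter
open Pool.Agent.H60.Sob (DD cfac mu den num Zf Wf numf denf Ph)

/-- The function `conj Z` on the disc. -/
noncomputable def Zb : C(DD, ℂ) := ⟨fun Z => starRingEnd ℂ (Z : ℂ), by fun_prop⟩

theorem Zb_apply (Z : DD) : Zb Z = starRingEnd ℂ (Z : ℂ) := rfl

theorem Wf_eq : Wf = 1 - Zf * Zb := by
  ext Z
  rw [Pool.Agent.H60.Sob.Wf_apply]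
  simp only [ContinuousMap.sub_apply, ContinuousMap.mul_apply, ContinuousMap.one_apply,
    Pool.Agent.H60.Sob.Zf_apply, Zb_apply]
  rw [Complex.mul_conj, Complex.normSq_eq_norm_sq]
  push_cast
  ring

/-- The functions which model the basis of the Verma module `ver`. -/
noncomputable def chi : ℕ → C(DD, ℂ)
  | 0 => Zb ^ 3
  | 1 => Zb ^ 3 * Zf - (3:ℂ) • Zb ^ 2
  | 2 => Zb ^ 3 * Zf ^ 2 - (3:ℂ) • (Zb ^ 2 * Zf) + (3:ℂ) • Zb
  | (n + 3) => -(Wf ^ 3 * Zf ^ n)

private theorem ac_one (g : SU11) (hg : g.1.1 0 1 = 0) : g.1.1 0 0 * g.1.1 1 1 = 1 := by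
  have h := g.1.2
  rw [Matrix.det_fin_two, hg, zero_mul, sub_zero] at h
  exact h

private theorem conj_a (g : SU11) : starRingEnd ℂ (g.1.1 0 0) = g.1.1 1 1 := g.2.2.symm

private theorem norm_a (g : SU11) (hg : g.1.1 0 1 = 0) : ‖g.1.1 0 0‖ = 1 := by
  have h := ac_one g hg
  rw [← conj_a, Complex.mul_conj, Complex.normSq_eq_norm_sq] at h
  have h2 : ‖g.1.1 0 0‖ ^ 2 = 1 := by exact_mod_cast h
  exact (pow_eq_one_iff_of_nonneg (norm_nonneg _) two_ne_zero).1 h2

private theorem den_a (g : SU11) (hg : g.1.1 0 1 = 0) (Z : ℂ) : den (up g) Z = g.1.1 0 0 := by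
  show g.1.1 0 0 - starRingEnd ℂ (g.1.1 0 1) * Z = g.1.1 0 0
  rw [hg, map_zero, zero_mul, sub_zero]

private theorem num_a (g : SU11) (hg : g.1.1 0 1 = 0) (Z : ℂ) :
    num (up g) Z = g.1.1 1 1 * Z := by
  show starRingEnd ℂ (g.1.1 0 0) * Z - g.1.1 0 1 = g.1.1 1 1 * Z
  rw [hg, sub_zero, conj_a]

private theorem zp {a c : ℂ} (h : a * c = 1) (n : ℕ) :
    c ^ (ver.κ + 2 * (n : ℤ)) = a ^ 2 * (c ^ 2) ^ n := by
  have hc : c ≠ 0 := right_ne_zero_of_mul_eq_one h
  have ha : a = c⁻¹ := eq_inv_of_mul_eq_one_left h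
  have h1 : c ^ (ver.κ + 2 * (n : ℤ)) = c ^ (-2 : ℤ) * c ^ (((2 * n : ℕ)) : ℤ) := by
    rw [← zpow_add₀ hc]
    congr 1
  rw [h1, zpow_natCast, pow_mul, ha, zpow_neg, inv_pow]
  rfl

theorem chi_kap (g : SU11) (hg : g.1.1 0 1 = 0) (n : ℕ) :
    Tf 4 3 g (chi n) = ((g.1.1 1 1) ^ (ver.κ + 2 * n)) • chi n := by
  have hac := ac_one g hg
  have hc : g.1.1 1 1 ≠ 0 := right_ne_zero_of_mul_eq_one hac
  have ha : g.1.1 0 0 = (g.1.1 1 1)⁻¹ := eq_inv_of_mul_eq_one_left hac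
  rw [zp hac n]
  ext Z
  have h1 : cfac 4 3 (up g) Z = (g.1.1 1 1) ^ 4 := by
    unfold cfac
    rw [den_a g hg, norm_a g hg, ha]
    simp
  have h2 : ((mu (up g) Z : DD) : ℂ) = (g.1.1 1 1) ^ 2 * (Z : ℂ) := by
    rw [Pool.Agent.H60.Sob.mu_coe, den_a g hg, num_a g hg, ha]
    field_simp
  have h3 : Zb (mu (up g) Z) = ((g.1.1 1 1)⁻¹) ^ 2 * Zb Z := by
    have h4 : starRingEnd ℂ (g.1.1 1 1) = (g.1.1 1 1)⁻¹ := by
      rw [← ha, ← conj_a, Complex.conj_conj]
    rw [Zb_apply, Zb_apply, h2, map_mul, map_pow, h4]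
  have h5 : Wf (mu (up g) Z) = Wf Z := by
    have h6 := Pool.Agent.H60.Sob.Wf_mu (up g) Z
    rw [den_a g hg, norm_a g hg, one_pow, Complex.ofReal_one, mul_one] at h6
    exact h6
  have h6 : Zf (mu (up g) Z) = (g.1.1 1 1) ^ 2 * Zf Z := h2
  rw [Tf_apply, h1, ha]
  set c := g.1.1 1 1 with hcd
  match n with
  | 0 =>
    simp only [chi, ContinuousMap.smul_apply, ContinuousMap.pow_apply, h3, smul_eq_mul]
    field_simp
  | 1 =>
    simp only [chi, ContinuousMap.smul_apply, ContinuousMap.sub_apply, ContinuousMap.mul_apply,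
      ContinuousMap.pow_apply, h3, h6, smul_eq_mul]
    field_simp
  | 2 =>
    simp only [chi, ContinuousMap.smul_apply, ContinuousMap.sub_apply, ContinuousMap.add_apply,
      ContinuousMap.mul_apply, ContinuousMap.pow_apply, h3, h6, smul_eq_mul]
    field_simp
  | n + 3 =>
    simp only [chi, ContinuousMap.smul_apply, ContinuousMap.neg_apply, ContinuousMap.mul_apply,
      ContinuousMap.pow_apply, h5, h6, smul_eq_mul]
    rw [mul_pow]
    field_simp
    ring

theorem chi_ne (n : ℕ) : chi n ≠ 0 := by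
  intro h
  have h1 : (1 / 2 : ℂ) ∈ Metric.closedBall (0 : ℂ) 1 := by
    rw [Metric.mem_closedBall, dist_zero_right]
    norm_num
  have h2 : chi n ⟨1 / 2, h1⟩ = 0 := by rw [h]; rfl
  have h3 : starRingEnd ℂ (1 / 2 : ℂ) = 1 / 2 := by
    rw [map_div₀, map_one, map_ofNat]
  have h4 : Wf ⟨1 / 2, h1⟩ = 3 / 4 := by
    rw [Wf_eq]
    simp only [ContinuousMap.sub_apply, ContinuousMap.mul_apply, ContinuousMap.one_apply,
      Pool.Agent.H60.Sob.Zf_apply, Zb_apply, h3]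
    norm_num
  match n, h2 with
  | 0, h2 =>
    simp only [chi, ContinuousMap.pow_apply, Zb_apply, h3] at h2
    norm_num at h2
  | 1, h2 =>
    simp only [chi, ContinuousMap.smul_apply, ContinuousMap.sub_apply, ContinuousMap.mul_apply,
      ContinuousMap.pow_apply, Zb_apply, Pool.Agent.H60.Sob.Zf_apply, h3, smul_eq_mul] at h2
    norm_num at h2
  | 2, h2 =>
    simp only [chi, ContinuousMap.smul_apply, ContinuousMap.sub_apply, ContinuousMap.add_apply,
      ContinuousMap.mul_apply, ContinuousMap.pow_apply, Zb_apply, Pool.Agent.H60.Sob.Zf_apply,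
      h3, smul_eq_mul] at h2
    norm_num at h2
  | n + 3, h2 =>
    simp only [chi, ContinuousMap.neg_apply, ContinuousMap.mul_apply, ContinuousMap.pow_apply,
      Pool.Agent.H60.Sob.Zf_apply, h4] at h2
    have h5 : ((3 / 4 : ℂ) ^ 3 * (1 / 2 : ℂ) ^ n) ≠ 0 :=
      mul_ne_zero (by norm_num) (pow_ne_zero _ (by norm_num))
    exact h5 (neg_eq_zero.1 h2)

end Pool.Agent.H40.SG
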