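import Pool.Agent.H40.SG.VerDefs

/-!
# The model of the Verma module: the generating function

See the explanation in `VerDefs.lean`. `chi_gen` : multiply by `1 - x Z`; the series converges since
`‖chi j‖ ≤ 8`; use `hasSum_geom_series_inverse` as in `inv_mem` of `Pool/Agent/H60/Sob/Model2.lean`, or the
finite sums `(1 - x Z) Σ_(j < n) x^j chi j = (conj Z - x)^3 + x^n (...)`.
-/

set_option autoImplicit false

namespace Pool.Agent.H40.SG

open Complex Topology Filter
open Pool.Agent.H60.Sob (DD cfac mu den num Zf Wf numf denf Ph)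

/-- `(conj Z - x)^3 = (1 - x Z) Σ_(j < n) x^j chi j` up to a term with the factor `x^n`. -/
theorem chi_gen (x : ℂ) (hx : ‖x‖ < 1) :
    HasSum (fun j => x ^ j • chi j)
      ((Zb - x • (1 : C(DD, ℂ))) ^ 3 * Ring.inverse ((1 : C(DD, ℂ)) - x • Zf)) := by
  have hcZ : ‖x • Zf‖ < 1 := by
    rw [norm_smul]
    have := Pool.Agent.H60.Sob.Zf_norm
    nlinarith [norm_nonneg x]
  have hs := hasSum_geom_series_inverse (x • Zf) hcZ
  have hu : IsUnit ((1 : C(DD, ℂ)) - x • Zf) := isUnit_one_sub_of_norm_lt_one hcZ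
  have hy := Ring.mul_inverse_cancel _ hu
  set y : C(DD, ℂ) := Ring.inverse ((1 : C(DD, ℂ)) - x • Zf) with hydef
  have h3 : HasSum (fun n => x ^ (n + 3) • chi (n + 3)) (-(x ^ 3 • Wf ^ 3) * y) := by
    have h := hs.mul_left (-(x ^ 3 • Wf ^ 3))
    have e : (fun n : ℕ => -(x ^ 3 • Wf ^ 3) * (x • Zf) ^ n) =
        fun n : ℕ => x ^ (n + 3) • chi (n + 3) := by
      funext n
      show -(x ^ 3 • Wf ^ 3) * (x • Zf) ^ n = x ^ (n + 3) • (-(Wf ^ 3 * Zf ^ n))
      rw [smul_pow, pow_add]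
      simp only [Algebra.smul_def, map_mul, map_pow]
      ring
    rw [e] at h
    exact h
  have h4 := (hasSum_nat_add_iff (f := fun j => x ^ j • chi j) 3).mp h3
  have e2 : -(x ^ 3 • Wf ^ 3) * y + ∑ i ∈ Finset.range 3, x ^ i • chi i =
      (Zb - x • (1 : C(DD, ℂ))) ^ 3 * y := by
    have c0 : chi 0 = Zb ^ 3 := rfl
    have c1 : chi 1 = Zb ^ 3 * Zf - (3:ℂ) • Zb ^ 2 := rfl
    have c2 : chi 2 = Zb ^ 3 * Zf ^ 2 - (3:ℂ) • (Zb ^ 2 * Zf) + (3:ℂ) • Zb := rfl
    have m3 : algebraMap ℂ C(DD, ℂ) 3 = 3 := map_ofNat _ 3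
    rw [Finset.sum_range_succ, Finset.sum_range_succ, Finset.sum_range_succ, Finset.sum_range_zero,
      c0, c1, c2, Wf_eq]
    simp only [Algebra.smul_def, map_pow, m3, pow_zero, map_one, one_mul, pow_one, zero_add,
      mul_one] at hy ⊢
    generalize algebraMap ℂ C(DD, ℂ) x = X at hy ⊢
    linear_combination (-(Zb ^ 3 + X * (Zb ^ 3 * Zf - 3 * Zb ^ 2) +
      X ^ 2 * (Zb ^ 3 * Zf ^ 2 - 3 * (Zb ^ 2 * Zf) + 3 * Zb))) * hy
  rw [e2] at h4
  exact h4

theorem chi_gen_mem (g : SU11) :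
    Tf 4 3 g (chi 0) ∈ (Submodule.span ℂ (Set.range chi)).topologicalClosure := by
  have hS := Pool.Agent.H60.Sob.SU_norm (up g)
  have ea : (up g).1.1.1 0 0 = g.1.1 0 0 := rfl
  have eb : (up g).1.1.1 0 1 = g.1.1 0 1 := rfl
  rw [ea, eb] at hS
  have ha : g.1.1 0 0 ≠ 0 := by
    intro h
    rw [h, norm_zero] at hS
    nlinarith [sq_nonneg ‖g.1.1 0 1‖]
  set a : ℂ := g.1.1 0 0 with hadef
  set b : ℂ := g.1.1 0 1 with hbdef
  set x : ℂ := starRingEnd ℂ b / a with hxdef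
  have hx : ‖x‖ < 1 := by
    rw [hxdef, norm_div, RCLike.norm_conj, div_lt_one (norm_pos_iff.mpr ha)]
    have h1 := norm_nonneg a
    have h2 := norm_nonneg b
    nlinarith
  have hcZ : ‖x • Zf‖ < 1 := by
    rw [norm_smul]
    have := Pool.Agent.H60.Sob.Zf_norm
    nlinarith [norm_nonneg x]
  have hu : IsUnit ((1 : C(DD, ℂ)) - x • Zf) := isUnit_one_sub_of_norm_lt_one hcZ
  have hy := Ring.mul_inverse_cancel _ hu
  have key : Tf 4 3 g (chi 0) = a ^ 2 • ((Zb - x • (1 : C(DD, ℂ))) ^ 3 *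
      Ring.inverse ((1 : C(DD, ℂ)) - x • Zf)) := by
    ext Z
    have hyZ := congrArg (fun f : C(DD, ℂ) => f Z) hy
    simp only [ContinuousMap.mul_apply, ContinuousMap.sub_apply, ContinuousMap.one_apply,
      ContinuousMap.smul_apply, Pool.Agent.H60.Sob.Zf_apply, smul_eq_mul] at hyZ
    have c0 : chi 0 = Zb ^ 3 := rfl
    rw [Tf_apply, c0]
    simp only [ContinuousMap.mul_apply, ContinuousMap.sub_apply, ContinuousMap.one_apply,
      ContinuousMap.smul_apply, ContinuousMap.pow_apply, Zb_apply, smul_eq_mul, mul_one,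
      Pool.Agent.H60.Sob.mu_coe]
    have hd : den (up g) Z = a * (1 - x * (Z : ℂ)) := by
      unfold Pool.Agent.H60.Sob.den
      rw [ea, eb, hxdef]
      field_simp
    have hdne := Pool.Agent.H60.Sob.den_ne (up g) Z
    have hn : starRingEnd ℂ (num (up g) Z) = a * (starRingEnd ℂ (Z : ℂ) - x) := by
      unfold Pool.Agent.H60.Sob.num
      rw [ea, eb, hxdef]
      simp only [map_sub, map_mul, Complex.conj_conj]
      field_simp
    have hcf : cfac 4 3 (up g) Z = (starRingEnd ℂ (den (up g) Z)) ^ 3 / den (up g) Z := by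
      unfold Pool.Agent.H60.Sob.cfac
      have e1 : ((‖den (up g) (Z : ℂ)‖ ^ (2 * 3) : ℝ) : ℂ) =
          (den (up g) Z * starRingEnd ℂ (den (up g) Z)) ^ 3 := by
        rw [Complex.mul_conj, Complex.normSq_eq_norm_sq]
        push_cast
        ring
      rw [e1]
      field_simp
    have hcd : starRingEnd ℂ (den (up g) Z) ≠ 0 := by
      simpa using hdne
    have h1x : (1 - x * (Z : ℂ)) ≠ 0 := by
      intro h0
      rw [h0, mul_zero] at hd
      exact hdne hd
    have hinv : (Ring.inverse ((1 : C(DD, ℂ)) - x • Zf)) Z = (1 - x * (Z : ℂ))⁻¹ :=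
      eq_inv_of_mul_eq_one_right hyZ
    rw [hinv, hcf, map_div₀, hn, hd]
    rw [hd] at hcd
    field_simp
  rw [key]
  refine Submodule.smul_mem _ _ ?_
  have hs := chi_gen x hx
  refine (Submodule.isClosed_topologicalClosure _).mem_of_tendsto hs.tendsto_sum_nat
    (Filter.Eventually.of_forall fun n => ?_)
  refine Submodule.sum_mem _ fun i _ => Submodule.smul_mem _ _ ?_
  exact Submodule.le_topologicalClosure _ (Submodule.subset_span ⟨i, rfl⟩)

end Pool.Agent.H40.SG
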